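import Mathlib

set_option autoImplicit false

namespace Pool.Agent.Lib.MP_270b52_co

open Finset

/-- A weighted intersecting family on `V`. -/
structure Sys (V : Type) where
  Ω : Type
  fin : Fintype Ω
  e : Ω → Finset V
  w : Ω → ℝ
  w_nonneg : ∀ ω, 0 ≤ w ω
  inter : ∀ ω ω', ¬ Disjoint (e ω) (e ω')

attribute [instance] Sys.fin

open Classical in
/-- Indicator of disjointness. -/
noncomputable def ind {V : Type} (A B : Finset V) : ℝ := if Disjoint A B then 1 else 0

theorem ind_pos {V : Type} {A B : Finset V} (h : Disjoint A B) : ind A B = 1 := by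
  unfold ind; rw [if_pos h]

theorem ind_neg {V : Type} {A B : Finset V} (h : ¬ Disjoint A B) : ind A B = 0 := by
  unfold ind; rw [if_neg h]

theorem ind_nonneg {V : Type} (A B : Finset V) : 0 ≤ ind A B := by
  by_cases h : Disjoint A B
  · rw [ind_pos h]; exact zero_le_one
  · rw [ind_neg h]

theorem ind_le_one {V : Type} (A B : Finset V) : ind A B ≤ 1 := by
  by_cases h : Disjoint A B
  · rw [ind_pos h]
  · rw [ind_neg h]; exact zero_le_one

namespace Sys

variable {V : Type}

noncomputable def mass (S : Sys V) : ℝ := ∑ ω, S.w ω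

noncomputable def P (S : Sys V) (C : Finset V) : ℝ := ∑ ω, S.w ω * ind (S.e ω) C

def Unif (S : Sys V) (s : ℕ) : Prop := ∀ ω, (S.e ω).card = s

theorem P_nonneg (S : Sys V) (C : Finset V) : 0 ≤ S.P C := by
  exact sum_nonneg fun ω _ => mul_nonneg (S.w_nonneg ω) (ind_nonneg _ _)

theorem P_le_mass (S : Sys V) (C : Finset V) : S.P C ≤ S.mass := by
  exact sum_le_sum fun ω _ => mul_le_of_le_one_right (S.w_nonneg ω) (ind_le_one _ _)

end Sys

/-- The fibre of a set of pairs. -/
def fib {I V : Type} [Fintype V] [DecidableEq I] [DecidableEq V] (C : Finset (I × V)) (i : I) :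
    Finset V := univ.filter (fun v => (i, v) ∈ C)

theorem sum_card_fib {I V : Type} [Fintype I] [Fintype V] [DecidableEq I] [DecidableEq V]
    (C : Finset (I × V)) : ∑ i, (fib C i).card = C.card := by
  rw [card_eq_sum_card_fiberwise (f := Prod.fst) (s := C) (t := univ) (fun _ _ => mem_univ _)]
  refine sum_congr rfl fun i _ => ?_
  refine card_bij (fun v _ => (i, v)) ?_ ?_ ?_
  · intro v hv
    simp only [fib, mem_filter, mem_univ, true_and] at hv
    simp [hv]
  · intro a _ b _ h
    simpa using h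
  · rintro ⟨j, v⟩ h
    simp only [mem_filter] at h
    obtain ⟨h1, rfl⟩ := h
    exact ⟨v, by simpa [fib] using h1, rfl⟩

/-- Composition of an outer family on blocks with an inner family. -/
noncomputable def comp {I V : Type} [Fintype I] [Fintype V] [DecidableEq I] [DecidableEq V]
    (O : Sys I) (S : Sys V) : Sys (I × V) where
  Ω := O.Ω × (I → S.Ω)
  fin := by classical exact inferInstance
  e := fun x => univ.filter (fun p => p.1 ∈ O.e x.1 ∧ p.2 ∈ S.e (x.2 p.1))
  w := fun x => O.w x.1 * ∏ i, S.w (x.2 i)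
  w_nonneg := fun x => mul_nonneg (O.w_nonneg _) (prod_nonneg fun i _ => S.w_nonneg _)
  inter := by
    rintro ⟨o, f⟩ ⟨o', f'⟩
    obtain ⟨i, hi, hi'⟩ := not_disjoint_iff.1 (O.inter o o')
    obtain ⟨v, hv, hv'⟩ := not_disjoint_iff.1 (S.inter (f i) (f' i))
    exact not_disjoint_iff.2 ⟨(i, v), by simp [hi, hv], by simp [hi', hv']⟩

section
variable {I V : Type} [Fintype I] [Fintype V] [DecidableEq I] [DecidableEq V]

theorem comp_unif (O : Sys I) (S : Sys V) {a b : ℕ} (hO : O.Unif a) (hS : S.Unif b) :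
    (comp O S).Unif (a * b) := by
  rintro ⟨o, f⟩
  rw [← sum_card_fib]
  have : ∀ i, (fib ((comp O S).e (o, f)) i).card = if i ∈ O.e o then b else 0 := by
    intro i
    split_ifs with h
    · rw [← hS (f i)]
      congr 1
      ext v
      simp [fib, comp, h]
    · rw [card_eq_zero]
      ext v
      simp [fib, comp, h]
  simp only [this]
  rw [← sum_filter]
  simp [hO o]

omit [Fintype V] [DecidableEq V] in
theorem sum_pi_prod (S : Sys V) (g : I → S.Ω → ℝ) :
    ∑ f : I → S.Ω, ∏ i, g i (f i) = ∏ i, ∑ ω, g i ω := by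
  classical
  rw [prod_univ_sum, Fintype.piFinset_univ]

theorem comp_mass (O : Sys I) (S : Sys V) (hS : S.mass = 1) : (comp O S).mass = O.mass := by
  classical
  unfold Sys.mass at *
  change ∑ x : O.Ω × (I → S.Ω), O.w x.1 * ∏ i, S.w (x.2 i) = _
  rw [Fintype.sum_prod_type]
  refine sum_congr rfl fun o _ => ?_
  simp only
  rw [← mul_sum, sum_pi_prod S (fun _ ω => S.w ω)]
  simp [hS]

theorem comp_P (O : Sys I) (S : Sys V) (hS : S.mass = 1) (C : Finset (I × V)) :
    (comp O S).P C = ∑ o, O.w o * ∏ i ∈ O.e o, S.P (fib C i) := by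
  classical
  unfold Sys.P
  change (∑ x : O.Ω × (I → S.Ω), (O.w x.1 * ∏ i, S.w (x.2 i)) * ind ((comp O S).e x) C) = _
  rw [Fintype.sum_prod_type]
  refine sum_congr rfl fun o _ => ?_
  have key : ∀ f : I → S.Ω, (O.w o * ∏ i, S.w (f i)) * ind ((comp O S).e (o, f)) C =
      O.w o * ∏ i, (if i ∈ O.e o then S.w (f i) * ind (S.e (f i)) (fib C i) else S.w (f i)) := by
    intro f
    by_cases h : Disjoint ((comp O S).e (o, f)) C
    · rw [ind_pos h, mul_one]
      congr 1
      refine prod_congr rfl fun i _ => ?_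
      split_ifs with h1
      · rw [ind_pos, mul_one]
        by_contra h2
        obtain ⟨v, hv, hv'⟩ := not_disjoint_iff.1 h2
        refine (disjoint_left.1 h) (a := (i, v)) (by simp [comp, h1, hv]) ?_
        simpa [fib] using hv'
      · rfl
    · rw [ind_neg h, mul_zero]
      obtain ⟨⟨i, v⟩, hv, hv'⟩ := not_disjoint_iff.1 h
      have hv2 : i ∈ O.e o ∧ v ∈ S.e (f i) := by simpa [comp] using hv
      rw [prod_eq_zero (mem_univ i), mul_zero]
      rw [if_pos hv2.1, ind_neg, mul_zero]
      exact not_disjoint_iff.2 ⟨v, hv2.2, by simpa [fib] using hv'⟩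
  simp only [key]
  rw [← mul_sum, sum_pi_prod S (fun i ω => if i ∈ O.e o then
        S.w ω * ind (S.e ω) (fib C i) else S.w ω)]
  congr 1
  have : ∀ i, (∑ ω, if i ∈ O.e o then S.w ω * ind (S.e ω) (fib C i) else S.w ω) =
      if i ∈ O.e o then (∑ ω, S.w ω * ind (S.e ω) (fib C i)) else 1 := by
    intro i
    split_ifs
    · rfl
    · exact hS
  simp only [this]
  rw [← prod_filter]
  simp

end

theorem jensen_exp {ι : Type} (s : Finset ι) (p z : ι → ℝ) (hp : ∀ i ∈ s, 0 ≤ p i)
    (h1 : ∑ i ∈ s, p i = 1) :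
    Real.exp (∑ i ∈ s, p i * z i) ≤ ∑ i ∈ s, p i * Real.exp (z i) := by
  set m := ∑ i ∈ s, p i * z i with hm
  have h : ∀ i ∈ s, p i * (Real.exp m * (1 + z i - m)) ≤ p i * Real.exp (z i) := by
    intro i hi
    refine mul_le_mul_of_nonneg_left ?_ (hp i hi)
    have h2 := Real.add_one_le_exp (z i - m)
    have h3 : Real.exp (z i) = Real.exp m * Real.exp (z i - m) := by
      rw [← Real.exp_add]; congr 1; ring
    rw [h3]
    exact mul_le_mul_of_nonneg_left (by linarith) (Real.exp_pos _).le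
  refine le_trans (le_of_eq ?_) (sum_le_sum h)
  have : ∀ i ∈ s, p i * (Real.exp m * (1 + z i - m)) =
      Real.exp m * (1 - m) * p i + Real.exp m * (p i * z i) := fun i _ => by ring
  rw [sum_congr rfl this, sum_add_distrib, ← mul_sum, ← mul_sum, h1, ← hm]
  ring

/-- A family of uniformity `s` on `r` vertices whose avoidance probability is at least
`exp (-lam * |C|)` for all `|C| < s`. -/
def Lin (r s : ℕ) (lam : ℝ) : Prop :=
  ∃ (V : Type) (_ : Fintype V) (_ : DecidableEq V) (S : Sys V), Fintype.card V = r ∧ S.Unif s ∧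
    S.mass = 1 ∧ ∀ C : Finset V, C.card < s → Real.exp (-(lam * C.card)) ≤ S.P C

theorem Lin.mono {r s : ℕ} {l l' : ℝ} (h : Lin r s l) (hl : l ≤ l') : Lin r s l' := by
  obtain ⟨V, i1, i2, S, h1, h2, h3, h4⟩ := h
  refine ⟨V, i1, i2, S, h1, h2, h3, fun C hC => le_trans ?_ (h4 C hC)⟩
  rw [Real.exp_le_exp]
  have : (0 : ℝ) ≤ C.card := Nat.cast_nonneg _
  nlinarith

end Pool.Agent.Lib.MP_270b52_co
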