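import Pool.Agent.Lib.MP_270b52_co.Basic

set_option autoImplicit false

namespace Pool.Agent.Lib.MP_270b52_co

open Finset

theorem avg_lemma {I V : Type} [Fintype I] [Fintype V] [DecidableEq I] [DecidableEq V]
    (O : Sys I) (S : Sys V) (hS : S.mass = 1) (s : ℕ) (lam : ℝ) (hlam : 0 ≤ lam)
    (hP : ∀ C : Finset V, C.card < s → Real.exp (-(lam * C.card)) ≤ S.P C)
    (C : Finset (I × V)) (A : Finset O.Ω) (hA : A.Nonempty) (w0 D z : ℝ) (hw0 : 0 ≤ w0)
    (hw : ∀ o ∈ A, w0 ≤ O.w o) (B : Finset I) (hB : ∀ i, i ∉ B → (fib C i).card < s)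
    (hAB : ∀ o ∈ A, Disjoint (O.e o) B)
    (hD : ∀ i, i ∉ B → ((A.filter (fun o => i ∈ O.e o)).card : ℝ) ≤ D)
    (hz : D * ∑ i ∈ Bᶜ, ((fib C i).card : ℝ) ≤ A.card * z) :
    w0 * A.card * Real.exp (-(lam * z)) ≤ (comp O S).P C := by
  classical
  rw [comp_P O S hS]
  have hN : (0 : ℝ) < A.card := by exact_mod_cast hA.card_pos
  have h1 : ∀ o ∈ A, w0 * Real.exp (-(lam * ∑ i ∈ O.e o, ((fib C i).card : ℝ))) ≤
      O.w o * ∏ i ∈ O.e o, S.P (fib C i) := by
    intro o ho
    refine mul_le_mul (hw o ho) ?_ (Real.exp_pos _).le (O.w_nonneg o)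
    rw [mul_sum, ← sum_neg_distrib, Real.exp_sum]
    refine prod_le_prod (fun i _ => (Real.exp_pos _).le) fun i hi => hP _ (hB i ?_)
    exact disjoint_left.1 (hAB o ho) hi
  have h2 : ∑ o ∈ A, O.w o * ∏ i ∈ O.e o, S.P (fib C i) ≤
      ∑ o, O.w o * ∏ i ∈ O.e o, S.P (fib C i) :=
    sum_le_sum_of_subset_of_nonneg (subset_univ _) fun o _ _ =>
      mul_nonneg (O.w_nonneg o) (prod_nonneg fun i _ => S.P_nonneg _)
  refine le_trans ?_ ((sum_le_sum h1).trans h2)
  have J := jensen_exp A (fun _ => 1 / (A.card : ℝ))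
    (fun o => -(lam * ∑ i ∈ O.e o, ((fib C i).card : ℝ))) (fun _ _ => by positivity)
    (by rw [sum_const, nsmul_eq_mul]; field_simp)
  have h3 : ∑ o ∈ A, ∑ i ∈ O.e o, ((fib C i).card : ℝ) ≤ A.card * z := by
    refine le_trans ?_ hz
    have e1 : ∀ o ∈ A, ∑ i ∈ O.e o, ((fib C i).card : ℝ) =
        ∑ i ∈ Bᶜ, if i ∈ O.e o then ((fib C i).card : ℝ) else 0 := by
      intro o ho
      rw [← sum_filter]
      refine sum_congr ?_ fun _ _ => rfl
      ext i
      simp only [mem_filter, mem_compl]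
      exact ⟨fun h => ⟨disjoint_left.1 (hAB o ho) h, h⟩, fun h => h.2⟩
    rw [sum_congr rfl e1, sum_comm, mul_sum]
    refine sum_le_sum fun i hi => ?_
    rw [← sum_filter, sum_const, nsmul_eq_mul]
    exact mul_le_mul_of_nonneg_right (hD i (mem_compl.1 hi)) (Nat.cast_nonneg _)
  rw [← mul_sum, ← mul_sum] at J
  rw [← mul_sum, mul_assoc]
  refine mul_le_mul_of_nonneg_left ?_ hw0
  have h4 : Real.exp (-(lam * z)) ≤ Real.exp (1 / (A.card : ℝ) *
      ∑ o ∈ A, -(lam * ∑ i ∈ O.e o, ((fib C i).card : ℝ))) := by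
    rw [Real.exp_le_exp, sum_neg_distrib, ← mul_sum, one_div, inv_mul_eq_div, le_div_iff₀ hN]
    have := mul_le_mul_of_nonneg_left h3 hlam
    linarith
  have h5 := h4.trans J
  rw [one_div, inv_mul_eq_div, le_div_iff₀ hN] at h5
  linarith

theorem card_sub {I : Type} [Fintype I] [DecidableEq I] (t : ℕ) (p : Finset I → Prop)
    [DecidablePred p] :
    (univ.filter (fun T : {T : Finset I // T.card = t} => p T.1)).card =
      ((powersetCard t univ).filter p).card := by
  refine card_bij (fun T _ => T.1) ?_ ?_ ?_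
  · intro T hT
    simp only [mem_filter, mem_univ, true_and] at hT
    simp [hT, T.2]
  · intro a _ b _ h
    exact Subtype.ext h
  · intro T hT
    simp only [mem_filter, mem_powersetCard, subset_univ, true_and] at hT
    exact ⟨⟨T, hT.1⟩, by simpa using hT.2, rfl⟩

theorem card_sub_disj {I : Type} [Fintype I] [DecidableEq I] (t : ℕ) (B : Finset I) :
    (univ.filter (fun T : {T : Finset I // T.card = t} => Disjoint T.1 B)).card =
      (Fintype.card I - B.card).choose t := by
  rw [card_sub t (fun T => Disjoint T B), ← card_compl, ← card_powersetCard]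
  congr 1
  ext T
  simp [subset_compl_iff_disjoint_right, and_comm]

theorem card_sub_all {I : Type} [Fintype I] [DecidableEq I] (t : ℕ) :
    Fintype.card {T : Finset I // T.card = t} = (Fintype.card I).choose t := by
  simp

theorem card_sub_deg {I : Type} [Fintype I] [DecidableEq I] (t : ℕ) (ht : 1 ≤ t) (B : Finset I)
    (i : I) (hi : i ∉ B) :
    ((univ.filter (fun T : {T : Finset I // T.card = t} => Disjoint T.1 B)).filter
      (fun T => i ∈ T.1)).card = (Fintype.card I - B.card - 1).choose (t - 1) := by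
  rw [filter_filter, card_sub t (fun T => Disjoint T B ∧ i ∈ T), ← card_compl]
  have := card_filter_powersetCard_subset {i} Bᶜ t (by simpa using hi) (by simpa using ht)
  rw [card_singleton] at this
  rw [← this]
  congr 1
  ext T
  simp only [mem_filter, mem_powersetCard, subset_univ, true_and, singleton_subset_iff,
    subset_compl_iff_disjoint_right]
  tauto

theorem pow_le_choose_mul (b u : ℕ) (h : b ≤ u) : u ^ b ≤ u.choose b * b ^ b := by
  induction b generalizing u with
  | zero => simp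
  | succ b ih =>
    obtain ⟨v, rfl⟩ : ∃ v, u = v + 1 := ⟨u - 1, by omega⟩
    have h1 := ih v (by omega)
    have h2 := Nat.add_one_mul_choose_eq v b
    have h3 : (v + 1) ^ b * b ^ b ≤ v ^ b * (b + 1) ^ b := by
      rw [← mul_pow, ← mul_pow]
      apply Nat.pow_le_pow_left
      nlinarith
    rcases Nat.eq_zero_or_pos b with rfl | hb
    · simp
    have h4 : (v + 1) ^ b ≤ v.choose b * (b + 1) ^ b := by
      have h5 : (v + 1) ^ b * b ^ b ≤ v.choose b * (b + 1) ^ b * b ^ b := by
        calc (v + 1) ^ b * b ^ b ≤ v ^ b * (b + 1) ^ b := h3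
          _ ≤ v.choose b * b ^ b * (b + 1) ^ b := Nat.mul_le_mul_right _ h1
          _ = _ := by ring
      exact Nat.le_of_mul_le_mul_right h5 (by positivity)
    calc (v + 1) ^ (b + 1) = (v + 1) * (v + 1) ^ b := by ring
      _ ≤ (v + 1) * (v.choose b * (b + 1) ^ b) := Nat.mul_le_mul_left _ h4
      _ = ((v + 1) * v.choose b) * (b + 1) ^ b := by ring
      _ = _ := by rw [h2]; ring

theorem choose_ratio (u b : ℕ) (h : b ≤ u) :
    (((2 * u + 1).choose b : ℕ) : ℝ) ≤ Real.exp (3 * b) * u.choose b := by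
  rcases Nat.eq_zero_or_pos b with rfl | hb
  · simp
  have hu : (1 : ℝ) ≤ u := by exact_mod_cast (by omega : 1 ≤ u)
  have h1 : (((2 * u + 1).choose b : ℕ) : ℝ) ≤ ((2 * u + 1 : ℕ) : ℝ) ^ b / b.factorial :=
    Nat.choose_le_pow_div b (2 * u + 1)
  have h2 : ((2 * u + 1 : ℕ) : ℝ) ^ b ≤ 3 ^ b * (u : ℝ) ^ b := by
    rw [← mul_pow]
    apply pow_le_pow_left₀ (by positivity)
    push_cast; linarith
  have h3 : (u : ℝ) ^ b ≤ u.choose b * (b : ℝ) ^ b := by exact_mod_cast pow_le_choose_mul b u h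
  have h4 := Real.pow_div_factorial_le_exp (b : ℝ) (Nat.cast_nonneg b) b
  have h5 : (3 : ℝ) ^ b ≤ Real.exp (2 * b) := by
    rw [mul_comm, Real.exp_nat_mul]
    apply pow_le_pow_left₀ (by norm_num)
    have := Real.add_one_le_exp (2 : ℝ); linarith
  have hf : (0 : ℝ) < b.factorial := by positivity
  have h6 : Real.exp (3 * b) = Real.exp (2 * b) * Real.exp b := by
    rw [← Real.exp_add]; congr 1; ring
  calc (((2 * u + 1).choose b : ℕ) : ℝ) ≤ ((2 * u + 1 : ℕ) : ℝ) ^ b / b.factorial := h1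
    _ ≤ 3 ^ b * (u.choose b * (b : ℝ) ^ b) / b.factorial := by
      apply div_le_div_of_nonneg_right _ hf.le
      exact h2.trans (mul_le_mul_of_nonneg_left h3 (by positivity))
    _ = 3 ^ b * ((b : ℝ) ^ b / b.factorial) * u.choose b := by ring
    _ ≤ _ := by
      rw [h6]
      refine mul_le_mul_of_nonneg_right ?_ (Nat.cast_nonneg _)
      exact mul_le_mul h5 h4 (by positivity) (by positivity)

theorem choose_ratio' (u b : ℕ) (h : b ≤ u) :
    (((2 * u + 1).choose (u + 1) : ℕ) : ℝ) ≤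
      Real.exp (3 * b) * (2 * u + 1 - b).choose (u + 1) := by
  have h1 := Nat.choose_mul (n := 2 * u + 1) (k := u + 1 + b) (s := u + 1) (by omega)
  have h2 := Nat.choose_mul (n := 2 * u + 1) (k := u + 1 + b) (s := b) (by omega)
  have e1 : 2 * u + 1 - (u + 1) = u := by omega
  have e2 : u + 1 + b - (u + 1) = b := by omega
  have e3 : u + 1 + b - b = u + 1 := by omega
  rw [e1, e2] at h1
  rw [e3, ← Nat.choose_symm_add, h1] at h2
  have h3 : (((2 * u + 1).choose (u + 1) : ℕ) : ℝ) * u.choose b =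
      ((2 * u + 1).choose b : ℕ) * ((2 * u + 1 - b).choose (u + 1) : ℕ) := by exact_mod_cast h2
  have h4 : (0 : ℝ) < u.choose b := by exact_mod_cast Nat.choose_pos h
  have h5 := mul_le_mul_of_nonneg_right (choose_ratio u b h)
    (Nat.cast_nonneg ((2 * u + 1 - b).choose (u + 1)))
  rw [← h3] at h5
  refine le_of_mul_le_mul_right ?_ h4
  linarith

/-- The complete family of majorities. -/
noncomputable def cpl (u : ℕ) : Sys (Fin (2 * u + 1)) where
  Ω := {T : Finset (Fin (2 * u + 1)) // T.card = u + 1}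
  fin := inferInstance
  e := fun T => T.1
  w := fun _ => 1 / ((2 * u + 1).choose (u + 1) : ℕ)
  w_nonneg := fun _ => by positivity
  inter := by
    intro T T' h
    have h1 := card_le_univ (T.1 ∪ T'.1)
    rw [card_union_of_disjoint h, T.2, T'.2, Fintype.card_fin] at h1
    omega

theorem cpl_mass (u : ℕ) : (cpl u).mass = 1 := by
  change ∑ _T : {T : Finset (Fin (2 * u + 1)) // T.card = u + 1},
    (1 / ((2 * u + 1).choose (u + 1) : ℕ) : ℝ) = 1
  rw [sum_const, card_univ, card_sub_all, Fintype.card_fin, nsmul_eq_mul]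
  have : (0 : ℝ) < ((2 * u + 1).choose (u + 1) : ℕ) := by
    exact_mod_cast Nat.choose_pos (by omega)
  field_simp

theorem cpl_alg (lam s u b c c' : ℝ) (hlam : 0 ≤ lam) (h14 : 14 ≤ lam * s) (hb : 0 ≤ b)
    (hbu : b = 0 ∨ 1 ≤ b) (hu : b ≤ u) (hc : c ≤ s * (u + 1)) (hc' : c' + b * s ≤ c) :
    3 * b + lam * ((u + 1) / (2 * u + 1 - b) * c') ≤ lam * (u + 1) / (2 * u + 1) * c := by
  have hn : 0 < 2 * u + 1 := by linarith
  have hm : 0 < 2 * u + 1 - b := by linarith
  rcases hbu with rfl | hb1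
  · have : lam * ((u + 1) / (2 * u + 1 - 0) * c') = lam * (u + 1) / (2 * u + 1) * c' := by
      rw [sub_zero]; ring
    rw [this]
    have : lam * (u + 1) / (2 * u + 1) * c' ≤ lam * (u + 1) / (2 * u + 1) * c :=
      mul_le_mul_of_nonneg_left (by linarith) (by positivity)
    linarith
  have hu1 : 1 ≤ u := by linarith
  have hs : 0 < s := by
    by_contra h
    push Not at h
    nlinarith
  have k1 : (u + 1) / (2 * u + 1 - b) * c' ≤ (u + 1) / (2 * u + 1 - b) * (c - b * s) :=
    mul_le_mul_of_nonneg_left (by linarith) (by positivity)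
  have k2 : (u + 1) / (2 * u + 1) * c - (u + 1) / (2 * u + 1 - b) * (c - b * s) =
      (u + 1) * b * ((2 * u + 1) * s - c) / ((2 * u + 1) * (2 * u + 1 - b)) := by
    obtain ⟨n, hn'⟩ : ∃ n, n = 2 * u + 1 := ⟨_, rfl⟩
    rw [← hn'] at hn hm ⊢
    obtain ⟨m, rfl⟩ : ∃ m, n = m + b := ⟨n - b, by ring⟩
    rw [add_sub_cancel_right] at hm ⊢
    field_simp; ring
  have k3 : 2 / 9 * (b * s) ≤
      (u + 1) * b * ((2 * u + 1) * s - c) / ((2 * u + 1) * (2 * u + 1 - b)) := by
    rw [le_div_iff₀ (by positivity)]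
    have m1 : (u + 1) * b * (u * s) ≤ (u + 1) * b * ((2 * u + 1) * s - c) :=
      mul_le_mul_of_nonneg_left (by linarith) (by positivity)
    have m2 : 2 / 9 * ((2 * u + 1) * (2 * u + 1 - b)) ≤ (u + 1) * u := by nlinarith
    have m3 := mul_le_mul_of_nonneg_left m2 (show 0 ≤ b * s by positivity)
    nlinarith
  have k4 : (u + 1) / (2 * u + 1 - b) * c' ≤ (u + 1) / (2 * u + 1) * c - 2 / 9 * (b * s) := by
    linarith
  have k5 := mul_le_mul_of_nonneg_left k4 hlam
  have k6 : 14 * b ≤ lam * s * b := mul_le_mul_of_nonneg_right h14 hb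
  have k7 : lam * ((u + 1) / (2 * u + 1) * c - 2 / 9 * (b * s)) =
      lam * (u + 1) / (2 * u + 1) * c - 2 / 9 * (lam * s * b) := by ring
  linarith

theorem blocked_sum {I V : Type} [Fintype I] [Fintype V] [DecidableEq I] [DecidableEq V]
    (C : Finset (I × V)) (s : ℕ) (B : Finset I) (hB : ∀ i ∈ B, s ≤ (fib C i).card) :
    ∑ i ∈ Bᶜ, (fib C i).card + B.card * s ≤ C.card := by
  rw [← sum_card_fib C, ← sum_compl_add_sum B]
  have := card_nsmul_le_sum B (fun i => (fib C i).card) s hB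
  rw [smul_eq_mul] at this
  omega

theorem Lin.complete {r s : ℕ} {lam : ℝ} (h : Lin r s lam) (hlam : 0 ≤ lam) (h14 : 14 ≤ lam * s)
    (u : ℕ) : Lin ((2 * u + 1) * r) ((u + 1) * s) (lam * (u + 1) / (2 * u + 1)) := by
  classical
  obtain ⟨V, i1, i2, S, h1, h2, h3, h4⟩ := h
  refine ⟨Fin (2 * u + 1) × V, inferInstance, inferInstance, comp (cpl u) S, ?_, ?_, ?_, ?_⟩
  · rw [Fintype.card_prod, Fintype.card_fin, h1]
  · exact comp_unif (cpl u) S (fun T => T.2) h2
  · rw [comp_mass _ _ h3, cpl_mass]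
  intro C hC
  obtain ⟨B, hB⟩ : ∃ B : Finset (Fin (2 * u + 1)),
    B = univ.filter (fun i => s ≤ (fib C i).card) := ⟨_, rfl⟩
  have hsum := blocked_sum C s B (by intro i hi; rw [hB] at hi; simpa using hi)
  have hb : B.card ≤ u := by
    by_contra hb
    have : (u + 1) * s ≤ B.card * s := Nat.mul_le_mul_right _ (by omega)
    omega
  have hcA := card_sub_disj (u + 1) B
  rw [Fintype.card_fin] at hcA
  have hApos : 0 < (2 * u + 1 - B.card).choose (u + 1) := Nat.choose_pos (by omega)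
  have hnb : ((2 * u + 1 - B.card : ℕ) : ℝ) = 2 * u + 1 - B.card := by
    rw [Nat.cast_sub (by omega)]; push_cast; ring
  have hm : (0 : ℝ) < 2 * u + 1 - B.card := by
    rw [← hnb]; exact_mod_cast (by omega : 0 < 2 * u + 1 - B.card)
  have key := avg_lemma (cpl u) S h3 s lam hlam h4 C
    (univ.filter (fun T : {T : Finset (Fin (2 * u + 1)) // T.card = u + 1} => Disjoint T.1 B))
    (card_pos.1 (lt_of_lt_of_eq hApos hcA.symm)) (1 / ((2 * u + 1).choose (u + 1) : ℕ))
    ((2 * u + 1 - B.card - 1).choose u : ℕ)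
    ((u + 1) / (2 * u + 1 - B.card) * ∑ i ∈ Bᶜ, ((fib C i).card : ℝ)) (by positivity)
    (fun _ _ => le_rfl) B (by intro i hi; rw [hB] at hi; simpa using hi)
    (fun o ho => (mem_filter.1 ho).2)
    (by
      intro i hi
      have := card_sub_deg (u + 1) (by omega) B i hi
      rw [Fintype.card_fin, Nat.add_sub_cancel] at this
      exact le_of_eq (by exact_mod_cast this))
    (by
      rw [← mul_assoc]
      refine mul_le_mul_of_nonneg_right (le_of_eq ?_) (by positivity)
      have e1 := Nat.add_one_mul_choose_eq (2 * u + 1 - B.card - 1) u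
      have e2 : 2 * u + 1 - B.card - 1 + 1 = 2 * u + 1 - B.card := by omega
      rw [e2] at e1
      have e3 : ((2 * u + 1 - B.card : ℕ) : ℝ) * ((2 * u + 1 - B.card - 1).choose u : ℕ) =
          ((2 * u + 1 - B.card).choose (u + 1) : ℕ) * ((u : ℝ) + 1) := by exact_mod_cast e1
      rw [hnb] at e3
      change _ = ((univ.filter (fun T : {T : Finset (Fin (2 * u + 1)) // T.card = u + 1} =>
        Disjoint T.1 B)).card : ℝ) * _
      rw [hcA, ← mul_div_assoc, ← e3]
      field_simp)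
  refine le_trans ?_ key
  change _ ≤ _ * ((univ.filter (fun T : {T : Finset (Fin (2 * u + 1)) // T.card = u + 1} =>
        Disjoint T.1 B)).card : ℝ) * _
  rw [hcA]
  have hr := choose_ratio' u B.card hb
  have hpos : (0 : ℝ) < ((2 * u + 1).choose (u + 1) : ℕ) := by
    exact_mod_cast Nat.choose_pos (by omega)
  have h5 : Real.exp (-(3 * (B.card : ℝ))) ≤
      1 / ((2 * u + 1).choose (u + 1) : ℕ) * ((2 * u + 1 - B.card).choose (u + 1) : ℕ) := by
    rw [one_div, inv_mul_eq_div, le_div_iff₀ hpos, Real.exp_neg, inv_mul_eq_div,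
      div_le_iff₀ (Real.exp_pos _)]
    linarith
  refine le_trans ?_ (mul_le_mul_of_nonneg_right h5 (Real.exp_pos _).le)
  rw [← Real.exp_add, Real.exp_le_exp, ← neg_add, neg_le_neg_iff]
  refine cpl_alg lam s u B.card C.card _ hlam h14 (Nat.cast_nonneg _) ?_ (by exact_mod_cast hb)
    ?_ ?_
  · rcases Nat.eq_zero_or_pos B.card with h | h
    · left; exact_mod_cast h
    · right; exact_mod_cast h
  · have : C.card ≤ s * (u + 1) := by rw [mul_comm s]; exact hC.le
    exact_mod_cast this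
  · exact_mod_cast hsum

end Pool.Agent.Lib.MP_270b52_co
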