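import Pool.Agent.Lib.MP_270b52_co.Wstep

set_option autoImplicit false

namespace Pool.Agent.Lib.MP_270b52_co

open Finset

theorem greedy {V : Type} [DecidableEq V] (S : Sys V) [Nonempty S.Ω] (U : Finset (Finset V))
    (θ M : ℝ) (hθ : θ ≤ 1) (hM : 0 < M) (hm : S.mass ≤ M) (hU : ∀ C ∈ U, θ * M ≤ S.P C) (n : ℕ) :
    ∃ (F : Finset S.Ω) (U' : Finset (Finset V)), F.card ≤ n ∧ U' ⊆ U ∧
      (∀ C ∈ U, C ∉ U' → ∃ ω ∈ F, Disjoint (S.e ω) C) ∧ (U'.card : ℝ) ≤ U.card * (1 - θ) ^ n := by
  classical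
  induction n with
  | zero => exact ⟨∅, U, le_rfl, Subset.refl _, fun C h h' => absurd h h', by simp⟩
  | succ n ih =>
    obtain ⟨F, U', h1, hsub, hcov, h2⟩ := ih
    obtain ⟨ω, -, hω⟩ := exists_max_image univ
      (fun ω : S.Ω => (U'.filter (fun C => Disjoint (S.e ω) C)).card) univ_nonempty
    have a1 : ∑ C ∈ U', S.P C = ∑ x, S.w x * (U'.filter (fun C => Disjoint (S.e x) C)).card := by
      unfold Sys.P
      rw [sum_comm]
      refine sum_congr rfl fun x _ => ?_
      rw [← mul_sum, card_filter]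
      push_cast
      congr 1
      refine sum_congr rfl fun C _ => ?_
      split_ifs with h
      · exact ind_pos h
      · exact ind_neg h
    have a2 : ∑ x, S.w x * ((U'.filter (fun C => Disjoint (S.e x) C)).card : ℝ) ≤
        S.mass * (U'.filter (fun C => Disjoint (S.e ω) C)).card := by
      unfold Sys.mass
      rw [sum_mul]
      refine sum_le_sum fun x _ => mul_le_mul_of_nonneg_left ?_ (S.w_nonneg x)
      exact_mod_cast hω x (mem_univ _)
    have a3 : (U'.card : ℝ) * (θ * M) ≤ ∑ C ∈ U', S.P C := by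
      rw [← nsmul_eq_mul]
      exact card_nsmul_le_sum _ _ _ fun C hC => hU C (hsub hC)
    have a4 := mul_le_mul_of_nonneg_right hm
      (Nat.cast_nonneg (α := ℝ) (U'.filter (fun C => Disjoint (S.e ω) C)).card)
    have a5 : (U'.card : ℝ) * θ ≤ (U'.filter (fun C => Disjoint (S.e ω) C)).card := by
      refine le_of_mul_le_mul_right ?_ hM
      linarith
    refine ⟨insert ω F, U'.filter (fun C => ¬ Disjoint (S.e ω) C),
      (card_insert_le _ _).trans (by omega), (filter_subset _ _).trans hsub, ?_, ?_⟩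
    · intro C hC hC'
      by_cases hU' : C ∈ U'
      · refine ⟨ω, mem_insert_self _ _, ?_⟩
        by_contra hd
        exact hC' (mem_filter.2 ⟨hU', hd⟩)
      · obtain ⟨x, hx, hd⟩ := hcov C hC hU'
        exact ⟨x, mem_insert_of_mem hx, hd⟩
    have a7 := card_filter_add_card_filter_not (s := U') (fun C => Disjoint (S.e ω) C)
    have a8 : ((U'.filter (fun C => Disjoint (S.e ω) C)).card : ℝ) +
        (U'.filter (fun C => ¬ Disjoint (S.e ω) C)).card = U'.card := by exact_mod_cast a7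
    have a9 := mul_le_mul_of_nonneg_right h2 (sub_nonneg.2 hθ)
    rw [pow_succ, ← mul_assoc]
    linarith

/-- An intersecting `s`-uniform family on `r` vertices without a cover of size below `s`. -/
def Fam (r s : ℕ) (H : Finset (Finset (Fin r))) : Prop :=
  (∀ e ∈ H, e.card = s) ∧ (∀ e ∈ H, ∀ f ∈ H, (e ∩ f).Nonempty) ∧
    ∀ C : Finset (Fin r), C.card < s → ∃ e ∈ H, Disjoint e C

theorem fam_of_emb {V : Type} [Fintype V] [DecidableEq V] {r s : ℕ} (hr : Fintype.card V ≤ r)
    (G : Finset (Finset V)) (h1 : ∀ e ∈ G, e.card = s) (h2 : ∀ e ∈ G, ∀ f ∈ G, ¬ Disjoint e f)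
    (h3 : ∀ C : Finset V, C.card < s → ∃ e ∈ G, Disjoint e C) :
    ∃ H, Fam r s H ∧ H.card ≤ G.card := by
  classical
  obtain ⟨f⟩ : Nonempty (V ↪ Fin r) :=
    Function.Embedding.nonempty_of_card_le (by rwa [Fintype.card_fin])
  refine ⟨G.image (fun e => e.map f), ⟨?_, ?_, ?_⟩, card_image_le⟩
  · intro e he
    obtain ⟨a, ha, rfl⟩ := mem_image.1 he
    rw [card_map, h1 a ha]
  · intro e he e' he'
    obtain ⟨a, ha, rfl⟩ := mem_image.1 he
    obtain ⟨b, hb, rfl⟩ := mem_image.1 he'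
    obtain ⟨v, hv, hv'⟩ := not_disjoint_iff.1 (h2 a ha b hb)
    exact ⟨f v, mem_inter.2 ⟨mem_map_of_mem f hv, mem_map_of_mem f hv'⟩⟩
  · intro C hC
    have hc : (univ.filter (fun v => f v ∈ C)).card ≤ C.card :=
      card_le_card_of_injOn f (fun v hv => by simpa using hv) (fun _ _ _ _ h => f.injective h)
    obtain ⟨e, he, hd⟩ := h3 _ (hc.trans_lt hC)
    refine ⟨e.map f, mem_image_of_mem _ he, disjoint_left.2 fun x hx hx' => ?_⟩
    obtain ⟨v, hv, rfl⟩ := mem_map.1 hx
    exact disjoint_left.1 hd hv (by simpa using hx')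

theorem Good.fam {r r' s : ℕ} {M p : ℝ} {J : ℕ} (h : Good r s M p J) (hs : 1 ≤ s) (hp : 0 < p)
    (hr : r ≤ r') :
    ∃ H, Fam r' s H ∧ (H.card : ℝ) ≤ M * (s : ℝ) ^ J / p * (r + 1) + 1 := by
  classical
  obtain ⟨V, i1, i2, S, h1, h2, h3, h4⟩ := h
  have hs0 : (0 : ℝ) < s := by exact_mod_cast hs
  have h5 : ∀ C : Finset V, C.card < s → p / (s : ℝ) ^ J ≤ S.P C := by
    intro C hC
    refine le_trans ?_ (h4 C hC)
    rw [div_eq_mul_one_div, ← one_div_pow]
    refine mul_le_mul_of_nonneg_left (pow_le_pow_left₀ (by positivity) ?_ J) hp.le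
    refine div_le_div_of_nonneg_right ?_ hs0.le
    have : ((C.card + 1 : ℕ) : ℝ) ≤ s := by exact_mod_cast hC
    push_cast at this
    linarith
  have hq : 0 < p / (s : ℝ) ^ J := by positivity
  have h6 : p / (s : ℝ) ^ J ≤ M := (h5 ∅ (by rw [card_empty]; omega)).trans ((S.P_le_mass _).trans h3)
  have hM : 0 < M := hq.trans_le h6
  have hne : Nonempty S.Ω := by
    by_contra hne
    rw [not_nonempty_iff] at hne
    have := h5 ∅ (by rw [card_empty]; omega)
    unfold Sys.P at this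
    rw [univ_eq_empty, sum_empty] at this
    linarith
  obtain ⟨θ, hθ⟩ : ∃ θ, θ = p / (s : ℝ) ^ J / M := ⟨_, rfl⟩
  have hθ0 : 0 < θ := by rw [hθ]; positivity
  have hθ1 : θ ≤ 1 := by rw [hθ, div_le_one hM]; exact h6
  obtain ⟨F, U', f1, -, f3, f2⟩ := greedy S (univ.filter (fun C : Finset V => C.card < s)) θ M hθ1 hM h3
    (by
      intro C hC
      rw [hθ, div_mul_cancel₀ _ hM.ne']
      exact h5 C (mem_filter.1 hC).2) ⌈(r + 1) / θ⌉₊
  have b1 : ((univ.filter (fun C : Finset V => C.card < s)).card : ℝ) ≤ Real.exp r := by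
    have c1 : (univ.filter (fun C : Finset V => C.card < s)).card ≤ 2 ^ r := by
      refine (card_le_univ _).trans ?_
      rw [Fintype.card_finset]
      exact Nat.pow_le_pow_right (by norm_num) h1
    have c2 : (2 : ℝ) ^ r ≤ Real.exp r := by
      rw [← mul_one (r : ℝ), Real.exp_nat_mul]
      apply pow_le_pow_left₀ (by norm_num)
      have := Real.add_one_le_exp (1 : ℝ); linarith
    have c3 : ((univ.filter (fun C : Finset V => C.card < s)).card : ℝ) ≤ 2 ^ r := by
      exact_mod_cast c1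
    linarith
  have b2 : (1 - θ) ^ ⌈(r + 1) / θ⌉₊ ≤ Real.exp (-(r + 1)) := by
    have c1 : (1 - θ) ^ ⌈(r + 1) / θ⌉₊ ≤ Real.exp (-θ) ^ ⌈(r + 1) / θ⌉₊ := by
      apply pow_le_pow_left₀ (by linarith)
      have := Real.add_one_le_exp (-θ); linarith
    refine c1.trans ?_
    rw [← Real.exp_nat_mul, Real.exp_le_exp]
    have c2 := Nat.le_ceil (((r : ℝ) + 1) / θ)
    rw [div_le_iff₀ hθ0] at c2
    linarith
  have b3 := mul_le_mul b1 b2 (pow_nonneg (by linarith) _) (Real.exp_pos _).le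
  have b4 : Real.exp r * Real.exp (-(r + 1)) < 1 := by
    rw [← Real.exp_add, Real.exp_lt_one_iff]; linarith
  have b5 : U' = ∅ := by
    have c1 : (U'.card : ℝ) < 1 := by linarith
    have c2 : U'.card < 1 := by exact_mod_cast c1
    rw [← card_eq_zero]; omega
  obtain ⟨H, hH, hc⟩ := fam_of_emb (h1.trans hr) (F.image S.e)
    (by intro e he; obtain ⟨a, -, rfl⟩ := mem_image.1 he; exact h2 a)
    (by
      intro e he e' he'
      obtain ⟨a, -, rfl⟩ := mem_image.1 he
      obtain ⟨b, -, rfl⟩ := mem_image.1 he'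
      exact S.inter a b)
    (by
      intro C hC
      obtain ⟨ω, h1, h2⟩ := f3 C (mem_filter.2 ⟨mem_univ C, hC⟩) (by rw [b5]; simp)
      exact ⟨_, mem_image_of_mem _ h1, h2⟩)
  refine ⟨H, hH, ?_⟩
  have d1 : (H.card : ℝ) ≤ ⌈(r + 1) / θ⌉₊ := by
    exact_mod_cast hc.trans (card_image_le.trans f1)
  have d2 := Nat.ceil_lt_add_one (show 0 ≤ ((r : ℝ) + 1) / θ by positivity)
  have d3 : ((r : ℝ) + 1) / θ = M * (s : ℝ) ^ J / p * (r + 1) := by
    rw [hθ]; field_simp
  linarith

theorem fam_complete {r s : ℕ} (hs : 1 ≤ s) (hr : 2 * s - 1 ≤ r) :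
    ∃ H, Fam r s H ∧ H.card ≤ 4 ^ s := by
  obtain ⟨H, h1, h2⟩ := fam_of_emb (V := Fin (2 * s - 1)) (r := r) (s := s) (by simpa using hr)
    (powersetCard s univ) (fun e he => (mem_powersetCard.1 he).2)
    (fun e he f hf => big_meet e f (by
      rw [(mem_powersetCard.1 he).2, (mem_powersetCard.1 hf).2]; omega))
    (by
      intro C hC
      obtain ⟨e, he, he'⟩ := exists_subset_card_eq (s := Cᶜ) (n := s)
        (by rw [card_compl, Fintype.card_fin]; omega)
      exact ⟨e, mem_powersetCard.2 ⟨subset_univ _, he'⟩, subset_compl_iff_disjoint_right.1 he⟩)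
  refine ⟨H, h1, h2.trans ?_⟩
  rw [card_powersetCard, card_univ, Fintype.card_fin]
  calc (2 * s - 1).choose s ≤ 2 ^ (2 * s - 1) := Nat.choose_le_two_pow _ _
    _ ≤ 2 ^ (2 * s) := Nat.pow_le_pow_right (by norm_num) (by omega)
    _ = 4 ^ s := by rw [pow_mul]; norm_num

theorem desc_ratio (r s k : ℕ) (h : s ≤ r) :
    r ^ k * (r - s).descFactorial k ≤ r.descFactorial k * (r - s) ^ k := by
  induction k with
  | zero => simp
  | succ k ih =>
    rw [Nat.descFactorial_succ, Nat.descFactorial_succ]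
    have h1 : r * (r - s - k) ≤ (r - k) * (r - s) := by
      rcases le_or_gt (r - s) k with h2 | h2
      · rw [Nat.sub_eq_zero_of_le h2]; simp
      · obtain ⟨d, rfl⟩ : ∃ d, r = s + k + d := ⟨r - s - k, by omega⟩
        have e1 : s + k + d - s - k = d := by omega
        have e2 : s + k + d - k = s + d := by omega
        have e3 : s + k + d - s = k + d := by omega
        rw [e1, e2, e3]; nlinarith
    calc r ^ (k + 1) * ((r - s - k) * (r - s).descFactorial k)
        = (r * (r - s - k)) * (r ^ k * (r - s).descFactorial k) := by ring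
      _ ≤ ((r - k) * (r - s)) * (r.descFactorial k * (r - s) ^ k) := Nat.mul_le_mul h1 ih
      _ = _ := by ring

theorem pair_cover {r : ℕ} (n : ℕ) : ∀ G : Finset (Finset (Fin r)),
    (∀ e ∈ G, ∀ f ∈ G, (e ∩ f).Nonempty) → G.card ≤ 2 * n →
    ∃ D : Finset (Fin r), D.card ≤ n ∧ ∀ e ∈ G, ¬ Disjoint e D := by
  induction n with
  | zero =>
    intro G _ h
    obtain rfl : G = ∅ := by rw [← card_eq_zero]; omega
    exact ⟨∅, le_rfl, by simp⟩
  | succ n ih =>
    intro G hG h
    rcases G.eq_empty_or_nonempty with rfl | ⟨e, he⟩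
    · exact ⟨∅, by simp, by simp⟩
    have key : ∃ f ∈ G, ((G.erase e).erase f).card ≤ 2 * n := by
      rcases (G.erase e).eq_empty_or_nonempty with h0 | ⟨f, hf⟩
      · exact ⟨e, he, by rw [h0]; simp⟩
      · refine ⟨f, mem_of_mem_erase hf, ?_⟩
        rw [card_erase_of_mem hf, card_erase_of_mem he]; omega
    obtain ⟨f, hf, hc⟩ := key
    obtain ⟨D, d1, d2⟩ := ih ((G.erase e).erase f)
      (fun a ha b hb => hG a (mem_of_mem_erase (mem_of_mem_erase ha)) b
        (mem_of_mem_erase (mem_of_mem_erase hb))) hc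
    obtain ⟨v, hv⟩ := hG e he f hf
    refine ⟨insert v D, (card_insert_le _ _).trans (by omega), fun a ha hd => ?_⟩
    by_cases h1 : a = e
    · exact disjoint_left.1 hd (h1 ▸ (mem_inter.1 hv).1) (mem_insert_self _ _)
    by_cases h2 : a = f
    · exact disjoint_left.1 hd (h2 ▸ (mem_inter.1 hv).2) (mem_insert_self _ _)
    · exact d2 a (mem_erase.2 ⟨h2, mem_erase.2 ⟨h1, ha⟩⟩)
        (disjoint_of_subset_right (subset_insert _ _) hd)

theorem fam_lower {r s : ℕ} (hs : 2 ≤ s) (hr : 2 * s - 1 ≤ r) (H : Finset (Finset (Fin r)))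
    (h : Fam r s H) (j : ℕ) (hj : 1 ≤ j) (hjs : j ≤ s) :
    (2 * j - 1) * Real.exp (s * (s - j) / r) ≤ H.card := by
  obtain ⟨h1, h2, h3⟩ := h
  have a1 : ∀ C ∈ powersetCard (s - j) (univ : Finset (Fin r)),
      2 * j - 1 ≤ (H.filter (fun e => Disjoint e C)).card := by
    intro C hC
    have hc := (mem_powersetCard.1 hC).2
    by_contra hlt
    obtain ⟨D, d1, d2⟩ := pair_cover (j - 1) (H.filter (fun e => Disjoint e C))
      (fun a ha b hb => h2 a (mem_filter.1 ha).1 b (mem_filter.1 hb).1) (by omega)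
    obtain ⟨e, he, hd⟩ := h3 (C ∪ D) ((card_union_le _ _).trans_lt (by omega))
    rw [disjoint_union_right] at hd
    exact d2 e (mem_filter.2 ⟨he, hd.1⟩) hd.2
  have a2 : r.choose (s - j) * (2 * j - 1) ≤ H.card * (r - s).choose (s - j) := by
    have b1 := card_nsmul_le_sum _ _ _ a1
    rw [card_powersetCard, card_univ, Fintype.card_fin, smul_eq_mul] at b1
    refine b1.trans (le_of_eq ?_)
    simp only [card_filter]
    rw [sum_comm, ← smul_eq_mul, ← sum_const]
    refine sum_congr rfl fun e he => ?_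
    rw [← card_filter, ← h1 e he]
    have : r - e.card = eᶜ.card := by rw [card_compl, Fintype.card_fin]
    rw [this, ← card_powersetCard]
    congr 1
    ext T
    simp only [mem_filter, mem_powersetCard, subset_univ, true_and,
      subset_compl_iff_disjoint_left]
    tauto
  have a3 := desc_ratio r s (s - j) (by omega)
  rw [Nat.descFactorial_eq_factorial_mul_choose, Nat.descFactorial_eq_factorial_mul_choose] at a3
  have a4 : (2 * j - 1) * r ^ (s - j) ≤ H.card * (r - s) ^ (s - j) := by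
    have p1 : 0 < (s - j).factorial * (r - s).choose (s - j) :=
      Nat.mul_pos (Nat.factorial_pos _) (Nat.choose_pos (by omega))
    refine Nat.le_of_mul_le_mul_right ?_ p1
    calc (2 * j - 1) * r ^ (s - j) * ((s - j).factorial * (r - s).choose (s - j))
        = (2 * j - 1) * (r ^ (s - j) * ((s - j).factorial * (r - s).choose (s - j))) := by ring
      _ ≤ (2 * j - 1) * ((s - j).factorial * r.choose (s - j) * (r - s) ^ (s - j)) :=
          Nat.mul_le_mul_left _ a3
      _ = (s - j).factorial * (r.choose (s - j) * (2 * j - 1)) * (r - s) ^ (s - j) := by ring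
      _ ≤ (s - j).factorial * (H.card * (r - s).choose (s - j)) * (r - s) ^ (s - j) :=
          Nat.mul_le_mul_right _ (Nat.mul_le_mul_left _ a2)
      _ = _ := by ring
  have hr0 : (0 : ℝ) < r := by exact_mod_cast (by omega : 0 < r)
  have hrs : (0 : ℝ) < ((r - s : ℕ) : ℝ) := by exact_mod_cast (by omega : 0 < r - s)
  have a5 : ((2 * j - 1 : ℕ) : ℝ) * (r : ℝ) ^ (s - j) ≤ H.card * ((r - s : ℕ) : ℝ) ^ (s - j) := by
    exact_mod_cast a4
  have a6 : Real.exp (s / r) * ((r - s : ℕ) : ℝ) ≤ r := by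
    rw [Nat.cast_sub (by omega)]
    have b1 := Real.add_one_le_exp (-((s : ℝ) / r))
    have b2 : Real.exp (s / r) * Real.exp (-((s : ℝ) / r)) = 1 := by
      rw [← Real.exp_add]; simp
    have b3 : (r : ℝ) - s = r * (-((s : ℝ) / r) + 1) := by field_simp; ring
    have b4 := mul_le_mul_of_nonneg_left b1 (Real.exp_pos (s / r)).le
    rw [b3]
    nlinarith
  have a7 := pow_le_pow_left₀ (by positivity) a6 (s - j)
  rw [mul_pow, ← Real.exp_nat_mul, Nat.cast_sub hjs] at a7
  have a8 : ((s : ℝ) - j) * (s / r) = s * (s - j) / r := by ring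
  rw [a8] at a7
  have a9 : ((2 * j - 1 : ℕ) : ℝ) = 2 * j - 1 := by
    rw [Nat.cast_sub (by omega)]; push_cast; ring
  have a10 := mul_le_mul_of_nonneg_left a7 (Nat.cast_nonneg (α := ℝ) (2 * j - 1))
  rw [← mul_assoc] at a10
  rw [← a9]
  exact le_of_mul_le_mul_right (a10.trans a5) (by positivity)

end Pool.Agent.Lib.MP_270b52_co
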