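import Mathlib

set_option autoImplicit false

namespace Pool.Agent.Lib.MP_270b52_co.MD

/-- The cover number: least size of a vertex set meeting every edge. -/
noncomputable def tau {r : ℕ} (H : Finset (Finset (Fin r))) : ℕ :=
  sInf {k | ∃ C : Finset (Fin r), C.card = k ∧ ∀ e ∈ H, (C ∩ e).Nonempty}

/-- The least number of edges of an `s`-uniform intersecting hypergraph on `r` vertices with
cover number `s`. -/
noncomputable def m (r s : ℕ) : ℕ :=
  sInf {n | ∃ H : Finset (Finset (Fin r)), H.card = n ∧ (∀ e ∈ H, e.card = s) ∧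
    (∀ e ∈ H, ∀ f ∈ H, (e ∩ f).Nonempty) ∧ tau H = s}

/-- The double-counting lower bound. -/
noncomputable def B (r s : ℕ) : ℝ := (r.choose (s - 1) : ℝ) / ((r - s).choose (s - 1) : ℝ)

end Pool.Agent.Lib.MP_270b52_co.MD
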