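import Pool.Agent.Lib.MP_270b52_co.KnH
import Pool.Agent.Lib.MP_270b52_co.MDefs

set_option autoImplicit false

namespace Pool.Agent.Lib.MP_270b52_co.MD

open Pool.Agent.Lib.MP_270b52_co

theorem fam_iff {r s : ℕ} (hs : 1 ≤ s) (H : Finset (Finset (Fin r))) :
    Fam r s H ↔ (∀ e ∈ H, e.card = s) ∧ (∀ e ∈ H, ∀ f ∈ H, (e ∩ f).Nonempty) ∧ tau H = s := by
  refine and_congr_right fun h1 => and_congr_right fun h2 => ⟨fun h3 => ?_, fun h3 C hC => ?_⟩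
  · obtain ⟨e, he, -⟩ := h3 ∅ hs
    have hm : s ∈ {k | ∃ C : Finset (Fin r), C.card = k ∧ ∀ e ∈ H, (C ∩ e).Nonempty} :=
      ⟨e, h1 e he, h2 e he⟩
    refine le_antisymm (Nat.sInf_le hm) ?_
    obtain ⟨C, c1, c2⟩ := Nat.sInf_mem ⟨s, hm⟩
    by_contra hlt
    obtain ⟨f, hf, hd⟩ := h3 C (c1 ▸ not_le.1 hlt)
    exact Finset.not_disjoint_iff_nonempty_inter.2 (c2 f hf) hd.symm
  · by_contra hn
    have : tau H ≤ C.card := Nat.sInf_le ⟨C, rfl, fun e he =>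
      Finset.not_disjoint_iff_nonempty_inter.1 fun hd => hn ⟨e, he, hd.symm⟩⟩
    omega

theorem joined :
    ∃ K : ℕ, ∀ r s : ℕ, 2 ≤ s → 2 * s - 1 ≤ r →
      B r s ≤ m r s ∧ (m r s : ℝ) ≤ (s : ℝ) ^ K * B r s ∧
      (K ≤ s → 2 * s + K ≤ r → (K : ℝ) * r * Real.log s ≤ (s : ℝ) ^ 2 →
        (m r s : ℝ) ≤ (Real.log (r.choose s) + 6) * B r s) := by
  obtain ⟨K, hK⟩ := Kn.final
  refine ⟨K, fun r s hs hr => ?_⟩
  have hm : ∀ H, Fam r s H → (m r s : ℝ) ≤ H.card := fun H hH => by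
    have : m r s ≤ H.card := Nat.sInf_le ⟨H, rfl, (fam_iff (by omega) H).1 hH⟩
    exact_mod_cast this
  obtain ⟨⟨H, hH, h1⟩, h2⟩ := hK r s hs hr
  refine ⟨?_, (hm H hH).trans h1, fun a b c => ?_⟩
  · obtain ⟨G, g1, g2⟩ := Nat.sInf_mem (s := {n | ∃ H : Finset (Finset (Fin r)), H.card = n ∧
      (∀ e ∈ H, e.card = s) ∧ (∀ e ∈ H, ∀ f ∈ H, (e ∩ f).Nonempty) ∧ tau H = s})
      ⟨H.card, H, rfl, (fam_iff (by omega) H).1 hH⟩
    have := Kn.lb_le hs hr ((fam_iff (by omega) G).2 g2)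
    rwa [g1] at this
  · obtain ⟨G, g1, g2⟩ := h2 a b c
    exact (hm G g1).trans g2

end Pool.Agent.Lib.MP_270b52_co.MD
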