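import Mathlib

namespace Pool.Agent.Lib.MP_270b52_co.Kn

open Finset Real

variable {V : Type} [Fintype V] [DecidableEq V]

/-- total weight of the sets missing `Y` -/
noncomputable def W (w : Finset V → ℝ) (Y : Finset V) : ℝ := ∑ S, if Disjoint S Y then w S else 0

/-- law of the next member -/
noncomputable def pr (w : Finset V → ℝ) (A : ℝ) (F : Finset V) : ℝ :=
  w F / A + if F = univ then 1 - W w ∅ / A else 0

/-- weights after the member `F` has been added -/
noncomputable def upd (w : Finset V → ℝ) (A : ℝ) (F S : Finset V) : ℝ :=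
  if Disjoint S F then 0 else w S / (1 - W w S / A)

/-- admissible weights -/
structure St (s : ℕ) (A : ℝ) (w : Finset V → ℝ) : Prop where
  nn : ∀ S, 0 ≤ w S
  supp : ∀ S, w S ≠ 0 → S.card = s
  pos : 0 < A
  le : W w ∅ ≤ A
  one : 1 ≤ s

variable {s : ℕ} {A : ℝ} {w : Finset V → ℝ}

lemma W_empty : W w ∅ = ∑ S, w S := by simp [W]

lemma W_nonneg (h : ∀ S, 0 ≤ w S) (Y : Finset V) : 0 ≤ W w Y :=
  sum_nonneg fun S _ => by split_ifs; exacts [h S, le_rfl]

lemma St.pr_nonneg (h : St s A w) (F : Finset V) : 0 ≤ pr w A F := by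
  have h1 := div_nonneg (h.nn F) h.pos.le
  have h2 : W w ∅ / A ≤ 1 := (div_le_one h.pos).2 h.le
  unfold pr; split_ifs <;> linarith

lemma pr_ex (φ : Finset V → ℝ) :
    ∑ F, pr w A F * φ F = (∑ F, w F * φ F) / A + (1 - W w ∅ / A) * φ univ := by
  simp only [pr, add_mul, sum_add_distrib, ite_mul, zero_mul, sum_ite_eq', mem_univ, if_true,
    sum_div]
  congr 1
  exact sum_congr rfl fun F _ => by ring

lemma pr_sum : ∑ F, pr w A F = 1 := by
  have := pr_ex (w := w) (A := A) fun _ => 1
  simp only [mul_one] at this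
  rw [this, W_empty]; ring

lemma pr_dis {Y : Finset V} (hY : Y.Nonempty) :
    ∑ F, pr w A F * (if Disjoint F Y then 1 else 0) = W w Y / A := by
  rw [pr_ex, if_neg, mul_zero, add_zero, W]
  · simp only [mul_ite, mul_one, mul_zero]
  · obtain ⟨y, hy⟩ := hY
    exact not_disjoint_iff.2 ⟨y, mem_univ y, hy⟩

lemma pr_ne {F : Finset V} (h : pr w A F ≠ 0) : w F ≠ 0 ∨ F = univ := by
  by_contra hc
  push Not at hc
  simp [pr, hc.1, hc.2] at h

lemma St.exists_le (h : St s A w) (φ : Finset V → ℝ) :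
    ∃ F, (w F ≠ 0 ∨ F = univ) ∧ φ F ≤ ∑ F, pr w A F * φ F := by
  by_contra hc
  push Not at hc
  set M := ∑ F, pr w A F * φ F with hM
  have h1 : ∑ F, pr w A F * M < ∑ F, pr w A F * φ F := by
    obtain ⟨F, -, hF⟩ := exists_ne_zero_of_sum_ne_zero
      (show ∑ F, pr w A F ≠ 0 by rw [pr_sum]; exact one_ne_zero)
    refine sum_lt_sum (fun G _ => ?_) ⟨F, mem_univ _,
      mul_lt_mul_of_pos_left (hc F (pr_ne hF)) (lt_of_le_of_ne (h.pr_nonneg F) hF.symm)⟩
    by_cases hG : pr w A G = 0
    · simp [hG]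
    · exact mul_le_mul_of_nonneg_left (hc G (pr_ne hG)).le (h.pr_nonneg G)
  rw [← sum_mul, pr_sum, one_mul] at h1
  exact lt_irrefl _ h1

lemma bonf {ι : Type} [Fintype ι] [DecidableEq ι] (d : ι → Prop) [DecidablePred d] :
    ∏ a, (if d a then (0 : ℝ) else 1) ≤ 1 - ∑ a, (if d a then (1 : ℝ) else 0) +
      (∑ a, ∑ b, if a = b then 0 else if d a ∧ d b then (1 : ℝ) else 0) / 2 := by
  set c := (univ.filter d).card with hc
  have h1 : ∑ a, (if d a then (1 : ℝ) else 0) = c := by simp [hc]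
  have h2 : ∀ a, (∑ b, if a = b then 0 else if d a ∧ d b then (1 : ℝ) else 0) =
      (if d a then (1 : ℝ) else 0) * (c - 1) := fun a => by
    by_cases ha : d a
    · have : ∀ b, (if a = b then 0 else if d a ∧ d b then (1 : ℝ) else 0) =
          (if d b then (1 : ℝ) else 0) - if a = b then 1 else 0 := fun b => by
        by_cases hab : a = b
        · subst hab; simp [ha]
        · simp [hab, ha]
      simp only [this, sum_sub_distrib, h1]
      simp [ha]
    · simp [ha]
  simp only [h2]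
  rw [← sum_mul, h1]
  by_cases h0 : ∃ a, d a
  · obtain ⟨a, ha⟩ := h0
    rw [Finset.prod_eq_zero (f := fun a => if d a then (0 : ℝ) else 1) (mem_univ a) (if_pos ha)]
    have : (0 : ℤ) ≤ ((c : ℤ) - 1) * (c - 2) := by
      rcases le_or_gt (c : ℤ) 1 with h | h
      · exact mul_nonneg_of_nonpos_of_nonpos (by omega) (by omega)
      · exact mul_nonneg (by omega) (by omega)
    have : (0 : ℝ) ≤ ((c : ℝ) - 1) * (c - 2) := by exact_mod_cast this
    nlinarith
  · push Not at h0
    have : c = 0 := by simp [hc, h0]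
    simp [h0, this]

lemma one_sub_sum {ι : Type} (I : Finset ι) (x : ι → ℝ) (h0 : ∀ a, 0 ≤ x a) (h1 : ∀ a, x a ≤ 1) :
    1 - ∑ a ∈ I, x a ≤ ∏ a ∈ I, (1 - x a) := by
  classical
  induction I using Finset.induction_on with
  | empty => simp
  | insert a I ha ih =>
    rw [sum_insert ha, prod_insert ha]
    have := mul_le_mul_of_nonneg_left ih (sub_nonneg.2 (h1 a))
    have h2 := mul_nonneg (h0 a) (sum_nonneg fun b (_ : b ∈ I) => h0 b)
    nlinarith

/-- joint growth of the weights of several sets -/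
theorem St.tuple (h : St s A w) {ι : Type} [Fintype ι] [DecidableEq ι] (S : ι → Finset V)
    (hS : ∀ a, (S a).Nonempty) {q σ : ℝ} (hq : ∀ a, W w (S a) / A ≤ q) (hσ : 0 ≤ σ)
    (hσq : 1 ≤ σ * (1 - Fintype.card ι * q)) :
    ∑ F, pr w A F * ∏ a, upd w A F (S a) ≤ (∏ a, w (S a)) *
      exp (σ * ((∑ a, ∑ b, if a = b then 0 else W w (S a ∪ S b) / A) / 2)) := by
  set X := (∑ a, ∑ b, if a = b then 0 else W w (S a ∪ S b) / A) / 2 with hX
  set K := ∑ a, W w (S a) / A with hK
  have hκ : ∀ Y, 0 ≤ W w Y / A := fun Y => div_nonneg (W_nonneg h.nn Y) h.pos.le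
  have hX0 : 0 ≤ X := div_nonneg (sum_nonneg fun a _ => sum_nonneg fun b _ => by
    split_ifs; exacts [le_rfl, hκ _]) zero_le_two
  have hKq : K ≤ Fintype.card ι * q := by
    simpa using sum_le_card_nsmul univ (fun a => W w (S a) / A) q fun a _ => hq a
  have hσK : 1 ≤ σ * (1 - K) := hσq.trans (mul_le_mul_of_nonneg_left (by linarith) hσ)
  have hK1 : 0 < 1 - K := by
    by_contra hc
    have := mul_nonpos_of_nonneg_of_nonpos hσ (not_lt.1 hc)
    linarith
  have hκ1 : ∀ a, W w (S a) / A ≤ 1 := fun a => by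
    have := single_le_sum (f := fun a => W w (S a) / A) (fun a _ => hκ _) (mem_univ a)
    linarith
  have hP := one_sub_sum univ (fun a => W w (S a) / A) (fun a => hκ _) hκ1
  have hw : 0 ≤ ∏ a, w (S a) := prod_nonneg fun a _ => h.nn _
  have e1 : ∀ F, ∏ a, upd w A F (S a) = (∏ a, w (S a)) / (∏ a, (1 - W w (S a) / A)) *
      ∏ a, (if Disjoint F (S a) then (0 : ℝ) else 1) := fun F => by
    rw [← prod_div_distrib, ← prod_mul_distrib]
    refine prod_congr rfl fun a _ => ?_
    simp only [upd, disjoint_comm (a := S a)]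
    split_ifs <;> simp
  have e2 : ∑ F, pr w A F * ∏ a, (if Disjoint F (S a) then (0 : ℝ) else 1) ≤ 1 - K + X := by
    refine (sum_le_sum fun F _ => mul_le_mul_of_nonneg_left (bonf fun a => Disjoint F (S a))
      (h.pr_nonneg F)).trans (le_of_eq ?_)
    simp only [mul_add, mul_sub, mul_one, sum_add_distrib, sum_sub_distrib, pr_sum, mul_sum,
      ← mul_div_assoc, ← sum_div]
    rw [sum_comm]
    congr 2
    · exact sum_congr rfl fun a _ => pr_dis (hS a)
    · rw [sum_comm]
      refine sum_congr rfl fun a _ => ?_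
      rw [sum_comm]
      refine sum_congr rfl fun b _ => ?_
      split_ifs
      · simp
      · rw [← pr_dis ((hS a).mono subset_union_left)]
        simp only [disjoint_union_right]
  simp only [e1, mul_left_comm (pr w A _)]
  rw [← mul_sum, div_mul_eq_mul_div, mul_div_assoc]
  refine mul_le_mul_of_nonneg_left ?_ hw
  rw [div_le_iff₀ (by linarith)]
  have h3 := add_one_le_exp (σ * X)
  have h4 : (σ * X + 1) * (1 - K) ≤ exp (σ * X) * ∏ a, (1 - W w (S a) / A) :=
    mul_le_mul h3 hP hK1.le (exp_pos _).le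
  nlinarith

lemma inv_le {κ q σ : ℝ} (h0 : 0 ≤ κ) (hq : κ ≤ q) (hσ : 0 ≤ σ) (hσq : 1 ≤ σ * (1 - q)) :
    0 < 1 - κ ∧ 1 / (1 - κ) ≤ σ ∧ 1 / (1 - κ) ≤ 1 + σ * q := by
  have h1 : 1 ≤ σ * (1 - κ) := hσq.trans (mul_le_mul_of_nonneg_left (by linarith) hσ)
  have h2 : 0 < 1 - κ := by
    by_contra hc
    have := mul_nonpos_of_nonneg_of_nonpos hσ (not_lt.1 hc)
    linarith
  refine ⟨h2, by rwa [div_le_iff₀ h2], ?_⟩
  rw [div_le_iff₀ h2]
  have := mul_le_mul_of_nonneg_left h1 (h0.trans hq)
  nlinarith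

/-- the covering functional -/
noncomputable def Z (H : Finset (Finset V)) (w : Finset V → ℝ) (T : Finset V) (θ : ℝ) : ℝ :=
  if ∀ F ∈ H, ¬ Disjoint F T then exp (-(θ * W w T)) else 0

lemma Z_nonneg (H : Finset (Finset V)) (w : Finset V → ℝ) (T : Finset V) (θ : ℝ) :
    0 ≤ Z H w T θ := by
  unfold Z; split_ifs; exacts [(exp_pos _).le, le_rfl]

theorem St.stepZ (h : St s A w) (H : Finset (Finset V)) {T : Finset V} (hT : T.Nonempty)
    {q σ θ x R : ℝ} (hq : ∀ S, w S ≠ 0 → W w S / A ≤ q) (hσ : 0 ≤ σ) (hσq : 1 ≤ σ * (1 - q))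
    (hθ : 0 ≤ θ) (hx0 : 0 ≤ x) (hx : x ≤ 1) (cl : Finset V → Prop) [DecidablePred cl]
    (hcl : ¬ cl univ) (hfar : ∀ F, w F ≠ 0 → ¬ Disjoint F T → ¬ cl F → θ * (σ * W w (T ∪ F)) ≤ x)
    (hR : (∑ F, if cl F then w F * exp (θ * (σ * W w (T ∪ F))) else 0) / A ≤ R) :
    ∑ F, pr w A F * Z (insert F H) (upd w A F) T θ ≤
      exp (x * (θ * (σ * q * W w T)) + R) * Z H w T (θ + 1 / A) := by
  by_cases hH : ∀ F ∈ H, ¬ Disjoint F T
  swap
  · have : ∀ F, Z (insert F H) (upd w A F) T θ = 0 := fun F => by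
      rw [Z, if_neg]; exact fun h1 => hH fun G hG => h1 G (mem_insert_of_mem hG)
    simp only [this, mul_zero, sum_const_zero]
    exact mul_nonneg (exp_pos _).le (Z_nonneg _ _ _ _)
  let v : Finset V → ℝ := fun S => w S / (1 - W w S / A)
  have hκ : ∀ Y, 0 ≤ W w Y / A := fun Y => div_nonneg (W_nonneg h.nn Y) h.pos.le
  have hv : ∀ S, 0 ≤ v S ∧ v S ≤ σ * w S ∧ v S * (W w S / A) = v S - w S ∧
      v S ≤ w S + σ * q * w S := fun S => by
    by_cases h0 : w S = 0
    · simp [v, h0]
    · obtain ⟨a1, a2, a3⟩ := inv_le (hκ S) (hq S h0) hσ hσq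
      have e : v S = 1 / (1 - W w S / A) * w S := by simp only [v]; ring
      refine ⟨div_nonneg (h.nn S) a1.le, ?_, ?_, ?_⟩
      · rw [e]; exact mul_le_mul_of_nonneg_right a2 (h.nn S)
      · simp only [v]; field_simp; ring
      · rw [e]; have := mul_le_mul_of_nonneg_right a3 (h.nn S); linarith
  have hξ0 : ∀ Y, 0 ≤ W v Y := W_nonneg fun S => (hv S).1
  have hξ : ∀ Y, W v Y ≤ σ * W w Y := fun Y => by
    simp only [W, mul_sum]
    exact sum_le_sum fun S _ => by split_ifs; exacts [(hv S).2.1, by simp]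
  have e1 : ∀ F, W (upd w A F) T = W v T - W v (T ∪ F) := fun F => by
    have : ∀ S, upd w A F S = if Disjoint S F then 0 else v S := fun S => rfl
    simp only [W, ← sum_sub_distrib, this, disjoint_union_right]
    exact sum_congr rfl fun S _ => by
      by_cases h1 : Disjoint S T <;> by_cases h2 : Disjoint S F <;> simp [h1, h2]
  have e2 : ∑ F, pr w A F * W v (T ∪ F) = W v T - W w T := by
    simp only [W, mul_sum, ← sum_sub_distrib, disjoint_union_right]
    rw [sum_comm]
    refine sum_congr rfl fun S _ => ?_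
    by_cases h1 : Disjoint S T
    · by_cases h0 : w S = 0
      · simp [v, h0]
      · have hS : S.Nonempty := card_pos.1 (by rw [h.supp S h0]; exact h.one)
        simp only [h1, true_and, if_true]
        rw [← (hv S).2.2.1, ← pr_dis hS, mul_sum]
        exact sum_congr rfl fun F _ => by
          simp only [disjoint_comm (a := S)]; split_ifs <;> ring
    · simp [h1]
  have e3 : W v T - W w T ≤ σ * q * W w T := by
    simp only [W, mul_sum, ← sum_sub_distrib]
    exact sum_le_sum fun S _ => by split_ifs; exacts [by linarith [(hv S).2.2.2], by simp]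
  have e4 : W v (T ∪ univ) = 0 := by
    refine sum_eq_zero fun S _ => ?_
    split_ifs with h1
    · have hS : S = ∅ := by
        rw [eq_empty_iff_forall_notMem]
        exact fun y hy => disjoint_left.1 h1 hy (mem_union_right _ (mem_univ y))
      have h0 : w S = 0 := by
        by_contra h0
        have h2 := h.supp S h0
        have := h.one
        rw [hS, card_empty] at h2
        omega
      simp [v, h0]
    · rfl
  have key : ∀ F, pr w A F * Z (insert F H) (upd w A F) T θ ≤ exp (-(θ * W v T)) *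
      (pr w A F * (1 - (if Disjoint F T then 1 else 0) + (1 + x) * θ * W v (T ∪ F) +
        if cl F then exp (θ * (σ * W w (T ∪ F))) else 0)) := fun F => by
    rw [mul_left_comm]
    by_cases hp : pr w A F = 0
    · simp [hp]
    refine mul_le_mul_of_nonneg_left ?_ (h.pr_nonneg F)
    have a0 : 0 ≤ θ * W v (T ∪ F) := mul_nonneg hθ (hξ0 _)
    have a1 : 0 ≤ (1 + x) * θ * W v (T ∪ F) := by rw [mul_assoc]; positivity
    have a2 : 0 ≤ if cl F then exp (θ * (σ * W w (T ∪ F))) else 0 := by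
      split_ifs; exacts [(exp_pos _).le, le_rfl]
    by_cases hF : Disjoint F T
    · rw [Z, if_neg fun h1 => h1 F (mem_insert_self _ _) hF, if_pos hF]
      exact mul_nonneg (exp_pos _).le (by linarith)
    rw [Z, if_pos (by simpa [hF] using hH), if_neg hF, e1, mul_sub, neg_sub, sub_eq_neg_add, exp_add]
    refine mul_le_mul_of_nonneg_left ?_ (exp_pos _).le
    have a3 : θ * W v (T ∪ F) ≤ θ * (σ * W w (T ∪ F)) := mul_le_mul_of_nonneg_left (hξ _) hθ
    by_cases hc : cl F
    · rw [if_pos hc]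
      have := exp_le_exp.2 a3
      linarith
    · rw [if_neg hc]
      have a4 : θ * W v (T ∪ F) ≤ x := by
        rcases pr_ne hp with h1 | rfl
        · exact a3.trans (hfar F h1 hF hc)
        · rw [e4, mul_zero]; exact hx0
      have a5 := abs_exp_sub_one_sub_id_le (x := θ * W v (T ∪ F))
        (by rw [abs_of_nonneg a0]; linarith)
      have a6 := (abs_le.1 a5).2
      nlinarith
  refine (sum_le_sum fun F _ => key F).trans ?_
  rw [← mul_sum]
  simp only [mul_add, mul_sub, mul_one, sum_add_distrib, sum_sub_distrib, pr_sum, pr_dis hT,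
    mul_left_comm (pr w A _), ← mul_sum, e2]
  rw [pr_ex, if_neg hcl, mul_zero, add_zero, Z, if_pos hH, ← exp_add]
  simp only [mul_ite, mul_zero]
  set c := W v T - W w T with hc
  have hc0 : 0 ≤ c := by
    rw [← e2]; exact sum_nonneg fun F _ => mul_nonneg (h.pr_nonneg F) (hξ0 _)
  have b1 := add_one_le_exp (-(W w T / A) + (1 + x) * θ * c + R)
  have b2 : x * (θ * c) ≤ x * (θ * (σ * q * W w T)) :=
    mul_le_mul_of_nonneg_left (mul_le_mul_of_nonneg_left e3 hθ) hx0
  calc _ ≤ exp (-(θ * W v T)) * exp (-(W w T / A) + (1 + x) * θ * c + R) := by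
        have := mul_le_mul_of_nonneg_left (show 1 - W w T / A + (1 + x) * θ * c +
          (∑ F, if cl F then w F * exp (θ * (σ * W w (T ∪ F))) else 0) / A ≤
          exp (-(W w T / A) + (1 + x) * θ * c + R) by linarith only [b1, hR])
          (exp_pos (-(θ * W v T))).le
        refine le_of_eq_of_le ?_ this
        ring
    _ ≤ _ := by
        rw [← exp_add, exp_le_exp, show W v T = c + W w T by rw [hc]; ring]
        have : (θ + 1 / A) * W w T = θ * W w T + W w T / A := by ring
        nlinarith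

end Pool.Agent.Lib.MP_270b52_co.Kn
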