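import Pool.Agent.Lib.MP_270b52_co.KnA

namespace Pool.Agent.Lib.MP_270b52_co.Kn

set_option linter.unusedSectionVars false

open Finset Real

variable {V : Type} [Fintype V] [DecidableEq V]

/-- pairwise far tuples -/
def FT (d : ℕ) {k : ℕ} (f : Fin k → Finset V) : Prop := ∀ a b, a ≠ b → d < (f a \ f b).card

instance (d k : ℕ) : DecidablePred (FT d : (Fin k → Finset V) → Prop) := fun _ => by
  unfold FT; infer_instance

/-- moment over far tuples -/
noncomputable def PT (d k : ℕ) (v : Finset V → ℝ) : ℝ :=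
  ∑ f : Fin k → Finset V, if FT d f then ∏ a, v (f a) else 0

/-- weight of a ball -/
noncomputable def bl (v : Finset V → ℝ) (c : Finset V) (ρ : ℕ) : ℝ :=
  ∑ G, if (G \ c).card ≤ ρ then v G else 0

variable {s d k : ℕ} {v v' : Finset V → ℝ}

lemma PT_nonneg (h : ∀ S, 0 ≤ v S) : 0 ≤ PT d k v :=
  sum_nonneg fun f _ => by split_ifs; exacts [prod_nonneg fun a _ => h _, le_rfl]

lemma PT_le (h : ∀ S, 0 ≤ v S) : PT d k v ≤ (∑ S, v S) ^ k := by
  rw [Fintype.sum_pow]
  exact sum_le_sum fun f _ => by split_ifs; exacts [le_rfl, prod_nonneg fun a _ => h _]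

lemma PT_mono (h : ∀ S, 0 ≤ v S) (h' : ∀ S, v S ≤ v' S) : PT d k v ≤ PT d k v' :=
  sum_le_sum fun f _ => by
    split_ifs; exacts [prod_le_prod (fun a _ => h _) fun a _ => h' _, le_rfl]

lemma PT_smul (x : ℝ) : PT d k (fun S => x * v S) = x ^ k * PT d k v := by
  simp only [PT, mul_sum, prod_mul_distrib, prod_const, card_univ, Fintype.card_fin, mul_ite,
    mul_zero]

lemma bl_nonneg (h : ∀ S, 0 ≤ v S) (c : Finset V) (ρ : ℕ) : 0 ≤ bl v c ρ :=
  sum_nonneg fun G _ => by split_ifs; exacts [h G, le_rfl]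

lemma bl_mono {x : ℝ} (h' : ∀ S, v S ≤ x * v' S) (c : Finset V) (ρ : ℕ) :
    bl v c ρ ≤ x * bl v' c ρ := by
  simp only [bl, mul_sum]
  exact sum_le_sum fun G _ => by split_ifs; exacts [h' G, by simp]

lemma greedy (h : ∀ S, 0 ≤ v S) (hs : ∀ S, v S ≠ 0 → S.card = s) {b : ℝ}
    (hb : ∀ S : Finset V, S.card = s → bl v S d ≤ b) (hb0 : 0 ≤ b) (hk : k * b ≤ ∑ S, v S) :
    ∀ j ≤ k, (∑ S, v S - k * b) ^ j ≤ PT d j v := by
  intro j
  induction j with
  | zero => intro _; simp [PT, FT]
  | succ j ih =>
    intro hj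
    have ih := ih (by omega)
    have hjk : (j : ℝ) * b ≤ k * b :=
      mul_le_mul_of_nonneg_right (by exact_mod_cast (by omega : j ≤ k)) hb0
    rw [pow_succ]
    refine (mul_le_mul_of_nonneg_right ih (by linarith)).trans ?_
    rw [PT, PT, sum_mul, ← (Fin.consEquiv fun _ => Finset V).sum_comp, Fintype.sum_prod_type,
      sum_comm]
    refine sum_le_sum fun f _ => ?_
    have hn : ∀ S, 0 ≤ if FT d (Fin.consEquiv (fun _ => Finset V) (S, f)) then
        ∏ a, v (Fin.consEquiv (fun _ => Finset V) (S, f) a) else 0 := fun S => by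
      split_ifs; exacts [prod_nonneg fun a _ => h _, le_rfl]
    split_ifs with hf
    swap
    · rw [zero_mul]; exact sum_nonneg fun S _ => hn S
    by_cases h0 : ∏ a, v (f a) = 0
    · rw [h0, zero_mul]; exact sum_nonneg fun S _ => hn S
    have hfa : ∀ a, (f a).card = s := fun a => hs _ (prod_ne_zero_iff.1 h0 a (mem_univ a))
    have hp : 0 ≤ ∏ a, v (f a) := prod_nonneg fun a _ => h _
    have h1 : ∑ a, bl v (f a) d ≤ j * b := by
      simpa using sum_le_card_nsmul univ (fun a => bl v (f a) d) b fun a _ => hb _ (hfa a)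
    have h2 : ∑ S, v S - k * b ≤ ∑ S, (v S - ∑ a, if (S \ f a).card ≤ d then v S else 0) := by
      rw [sum_sub_distrib, sum_comm]
      exact sub_le_sub_left (h1.trans hjk) _
    refine (mul_le_mul_of_nonneg_left h2 hp).trans ?_
    rw [mul_sum]
    refine sum_le_sum fun S _ => ?_
    by_cases hS : v S = 0
    · simpa [hS] using hn S
    by_cases hc : ∃ a, (S \ f a).card ≤ d
    · obtain ⟨a, ha⟩ := hc
      have := single_le_sum (f := fun a => if (S \ f a).card ≤ d then v S else 0)
        (fun a _ => by split_ifs; exacts [h S, le_rfl]) (mem_univ a)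
      rw [if_pos ha] at this
      exact (mul_nonpos_of_nonneg_of_nonpos hp (by linarith)).trans (hn S)
    · push Not at hc
      have hF : FT d (Fin.consEquiv (fun _ => Finset V) (S, f)) := by
        intro a b hab
        induction a using Fin.cases <;> induction b using Fin.cases
        · exact absurd rfl hab
        · exact hc _
        · rename_i a
          have := hc a
          rw [card_sdiff_comm ((hs S hS).trans (hfa a).symm)] at this
          exact this
        · rename_i a b
          exact hf a b fun e => hab (by rw [e])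
      rw [if_pos hF, Fin.prod_univ_succ]
      simp [fun a => not_le.2 (hc a), mul_comm, Fin.consEquiv]

lemma sum_le_of_PT (h : ∀ S, 0 ≤ v S) (hs : ∀ S, v S ≠ 0 → S.card = s) {b x E : ℝ}
    (hb : ∀ S : Finset V, S.card = s → bl v S d ≤ b) (hb0 : 0 ≤ b) (hE : k * b ≤ E) (hx : 0 ≤ x)
    (hk : 1 ≤ k) (hP : PT d k v ≤ x ^ k) : ∑ S, v S ≤ x + E := by
  by_contra hc
  push Not at hc
  have h1 := greedy h hs hb hb0 (k := k) (by linarith) k le_rfl
  have h2 : x ^ k < (∑ S, v S - k * b) ^ k := pow_lt_pow_left₀ (by linarith) hx (by omega)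
  linarith

lemma count (c : Finset V) (hc : c.card ≤ s) (hs : 1 ≤ s) (j : ℕ) :
    (univ.filter fun G : Finset V => G.card = s ∧ (G \ c).card = j).card ≤
      (s * Fintype.card V) ^ j := by
  have h1 : (univ.filter fun G : Finset V => G.card = s ∧ (G \ c).card = j).card ≤
      (powersetCard (c.card + j - s) c ×ˢ powersetCard j (univ : Finset V)).card := by
    refine card_le_card_of_injOn (fun G => (c \ G, G \ c)) (fun G hG => ?_) fun G _ G' _ e => ?_
    · simp only [coe_filter, mem_univ, true_and, Set.mem_ofPred_eq] at hG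
      have a1 := card_sdiff_add_card_inter G c
      have a2 := card_sdiff_add_card_inter c G
      rw [inter_comm] at a2
      simp only [coe_product, Set.mem_prod, mem_coe, mem_powersetCard, sdiff_subset, subset_univ,
        true_and]
      omega
    · simp only [Prod.mk.injEq] at e
      ext y
      have a1 := Finset.ext_iff.1 e.1 y
      have a2 := Finset.ext_iff.1 e.2 y
      simp only [mem_sdiff] at a1 a2
      tauto
  rw [card_product, card_powersetCard, card_powersetCard, card_univ] at h1
  rw [mul_pow]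
  refine h1.trans (Nat.mul_le_mul ?_ (Nat.choose_le_pow _ _))
  exact (Nat.choose_le_pow _ _).trans ((Nat.pow_le_pow_left hc _).trans
    (Nat.pow_le_pow_right hs (by omega)))

lemma bl_le (hv : ∀ S, v S ≠ 0 → S.card = s) (c : Finset V) (hc : c.card ≤ s) (hs : 1 ≤ s)
    (ρ : ℕ) (φ : ℕ → ℝ) (hφ : ∀ j, 0 ≤ φ j) (h : ∀ G, G.card = s → v G ≤ φ (G \ c).card) {B : ℝ}
    (hB : ∀ j ≤ ρ, ((s : ℝ) * Fintype.card V) ^ j * φ j ≤ B) : bl v c ρ ≤ (ρ + 1) * B := by
  have h1 : bl v c ρ ≤ ∑ G : Finset V, ∑ j ∈ range (ρ + 1),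
      if G.card = s ∧ (G \ c).card = j then φ j else 0 := by
    refine sum_le_sum fun G _ => ?_
    have hn : ∀ j ∈ range (ρ + 1), 0 ≤ if G.card = s ∧ (G \ c).card = j then φ j else 0 :=
      fun j _ => by split_ifs; exacts [hφ j, le_rfl]
    split_ifs with hG
    · by_cases h0 : v G = 0
      · rw [h0]; exact sum_nonneg hn
      · have := single_le_sum hn (mem_range.2 (Nat.lt_succ_of_le hG))
        rw [if_pos ⟨hv G h0, rfl⟩] at this
        exact (h G (hv G h0)).trans this
    · exact sum_nonneg hn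
  rw [sum_comm] at h1
  refine h1.trans ?_
  have := sum_le_card_nsmul (range (ρ + 1)) (fun j => ∑ G : Finset V,
      if G.card = s ∧ (G \ c).card = j then φ j else 0) B fun j hj => by
    refine le_trans ?_ (hB j (Nat.lt_succ_iff.1 (mem_range.1 hj)))
    rw [← sum_filter, sum_const, nsmul_eq_mul]
    exact mul_le_mul_of_nonneg_right (by exact_mod_cast count c hc hs j) (hφ j)
  simpa using this

lemma tri (X Y Z : Finset V) : (X \ Z).card ≤ (X \ Y).card + (Y \ Z).card :=
  (card_le_card (sdiff_triangle X Y Z)).trans (card_union_le _ _)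

lemma sdiff_le {c S : Finset V} (h : c.card ≤ S.card) : (c \ S).card ≤ (S \ c).card := by
  have a1 := card_sdiff_add_card_inter S c
  have a2 := card_sdiff_add_card_inter c S
  rw [inter_comm] at a2
  omega

lemma card_un (X Y : Finset V) : (X ∪ Y).card = X.card + (Y \ X).card := by
  rw [union_comm, ← card_sdiff_add_card Y X, add_comm]

/-- number of `s`-sets missing `Y` -/
lemma W_init (Y : Finset V) : W (fun S : Finset V => if S.card = s then (1 : ℝ) else 0) Y =
    ((Fintype.card V - Y.card).choose s : ℝ) := by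
  rw [← card_compl, ← card_powersetCard, W]
  simp only [← ite_and, sum_boole]
  congr 2
  ext S
  simp [mem_powersetCard, subset_compl_iff_disjoint_right]

end Pool.Agent.Lib.MP_270b52_co.Kn
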