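import Pool.Agent.Lib.MP_270b52_co.KnB

namespace Pool.Agent.Lib.MP_270b52_co.Kn

set_option linter.unusedSectionVars false

open Finset Real

variable {V : Type} [Fintype V] [DecidableEq V]

/-- growth rates -/
noncomputable def gg (c : ℕ → ℝ) (σ : ℝ) (j : ℕ) : ℝ := σ * (c j / c 0)

/-- admissible parameters -/
structure Ok (s k : ℕ) (c : ℕ → ℝ) (σ : ℝ) : Prop where
  anti : Antitone c
  pos : ∀ j, 0 < c j
  one : 1 ≤ s
  hk : 1 ≤ k
  hσ : 0 ≤ σ
  hq : 1 ≤ σ * (1 - 2 * k * (c s / c 0))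

/-- controlled weights -/
structure Gd (s : ℕ) (c : ℕ → ℝ) (w : Finset V → ℝ) : Prop where
  nn : ∀ S, 0 ≤ w S
  supp : ∀ S, w S ≠ 0 → S.card = s
  up : ∀ Y, W w Y ≤ c Y.card

/-- restriction to the sets missing `Y` -/
noncomputable def res (w : Finset V → ℝ) (Y S : Finset V) : ℝ := if Disjoint S Y then w S else 0

/-- weights of close pairs -/
noncomputable def chi (g : ℕ → ℝ) (d : ℕ) (w : Finset V → ℝ) (θ : ℝ) (T S G : Finset V) : ℝ :=
  if Disjoint S T ∧ (G \ S).card ≤ 2 * d then w S * w G * exp (θ * g (S ∪ G).card) else 0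

variable {s k d : ℕ} {c : ℕ → ℝ} {σ : ℝ} {w : Finset V → ℝ}

lemma Ok.g_nonneg (h : Ok s k c σ) (j : ℕ) : 0 ≤ gg c σ j :=
  mul_nonneg h.hσ (div_pos (h.pos _) (h.pos _)).le

lemma Ok.g_anti (h : Ok s k c σ) : Antitone (gg c σ) := fun _ _ hij =>
  mul_le_mul_of_nonneg_left (div_le_div_of_nonneg_right (h.anti hij) (h.pos _).le) h.hσ

lemma Ok.hq' (h : Ok s k c σ) {m : ℕ} (hm : m ≤ 2 * k) : 1 ≤ σ * (1 - m * (c s / c 0)) := by
  have h1 : (m : ℝ) ≤ 2 * k := by exact_mod_cast hm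
  have := mul_le_mul_of_nonneg_right h1 (div_pos (h.pos s) (h.pos 0)).le
  exact h.hq.trans (mul_le_mul_of_nonneg_left (by linarith) h.hσ)

lemma Gd.st (h : Ok s k c σ) (hw : Gd s c w) : St s (c 0) w :=
  ⟨hw.nn, hw.supp, h.pos 0, hw.up ∅, h.one⟩

lemma Gd.kap (h : Ok s k c σ) (hw : Gd s c w) {Y : Finset V} {j : ℕ} (hj : j ≤ Y.card) :
    W w Y / c 0 ≤ c j / c 0 :=
  div_le_div_of_nonneg_right ((hw.up Y).trans (h.anti hj)) (h.pos 0).le

lemma upd_zero {A : ℝ} {F S : Finset V} (h : w S = 0) : upd w A F S = 0 := by simp [upd, h]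

lemma Gd.upd_bd (h : Ok s k c σ) (hw : Gd s c w) (F S : Finset V) :
    0 ≤ upd w (c 0) F S ∧ upd w (c 0) F S ≤ exp (gg c σ s) * w S := by
  by_cases h0 : w S = 0
  · simp [upd_zero h0, h0]
  have hq := h.hq' (m := 1) (by have := h.hk; omega)
  rw [Nat.cast_one, one_mul] at hq
  obtain ⟨a1, -, a3⟩ := inv_le (div_nonneg (W_nonneg hw.nn S) (h.pos 0).le)
    (hw.kap h (hw.supp S h0).ge) h.hσ hq
  unfold upd
  split_ifs
  · exact ⟨le_rfl, mul_nonneg (exp_pos _).le (hw.nn S)⟩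
  · refine ⟨div_nonneg (hw.nn S) a1.le, ?_⟩
    rw [div_eq_mul_one_div, mul_comm]
    refine mul_le_mul_of_nonneg_right (a3.trans ?_) (hw.nn S)
    have := add_one_le_exp (gg c σ s)
    unfold gg at this ⊢
    linarith

lemma res_nonneg (h : ∀ S, 0 ≤ w S) (Y S : Finset V) : 0 ≤ res w Y S := by
  unfold res; split_ifs; exacts [h S, le_rfl]

lemma chi_nonneg (h : ∀ S, 0 ≤ w S) (g : ℕ → ℝ) (θ : ℝ) (T S G : Finset V) :
    0 ≤ chi g d w θ T S G := by
  unfold chi; split_ifs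
  exacts [mul_nonneg (mul_nonneg (h S) (h G)) (exp_pos _).le, le_rfl]

theorem stepP (h : Ok s k c σ) (hw : Gd s c w) (Y : Finset V) :
    ∑ F, pr w (c 0) F * PT d k (res (upd w (c 0) F) Y) ≤
      exp (4 * k ^ 2 * gg c σ (s + d)) * PT d k (res w Y) := by
  simp only [PT, mul_sum]
  rw [sum_comm]
  refine sum_le_sum fun f _ => ?_
  split_ifs with hf
  swap
  · simp
  by_cases h0 : ∃ a, ¬ (Disjoint (f a) Y ∧ w (f a) ≠ 0)
  · obtain ⟨a, ha⟩ := h0
    have : ∀ F, ∏ a, res (upd w (c 0) F) Y (f a) = 0 := fun F =>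
      Finset.prod_eq_zero (mem_univ a) (by
        unfold res
        split_ifs with h1
        · exact upd_zero (by tauto)
        · rfl)
    simp only [this, mul_zero, sum_const_zero]
    exact mul_nonneg (exp_pos _).le (prod_nonneg fun a _ => res_nonneg hw.nn _ _)
  push Not at h0
  have hc : ∀ a, (f a).card = s := fun a => hw.supp _ (h0 a).2
  simp only [res, fun a => (h0 a).1, if_true]
  refine ((hw.st h).tuple f (fun a => card_pos.1 (by rw [hc]; exact h.one))
    (fun a => hw.kap h (hc a).ge) h.hσ (h.hq' (by simp; omega))).trans ?_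
  rw [mul_comm]
  refine mul_le_mul_of_nonneg_right (exp_le_exp.2 ?_) (prod_nonneg fun a _ => hw.nn _)
  have hp := div_pos (h.pos (s + d)) (h.pos 0)
  have h1 : ∑ a, ∑ b, (if a = b then 0 else W w (f a ∪ f b) / c 0) ≤
      ∑ _a : Fin k, ∑ _b : Fin k, c (s + d) / c 0 :=
    sum_le_sum fun a _ => sum_le_sum fun b _ => by
      split_ifs with hab
      · exact hp.le
      · refine hw.kap h ?_
        have := hf b a (Ne.symm hab)
        rw [card_un, hc]; omega
  simp only [sum_const, card_univ, Fintype.card_fin, nsmul_eq_mul] at h1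
  have h2 := mul_le_mul_of_nonneg_left h1 h.hσ
  have h3 : 0 ≤ σ * (k * (k * (c (s + d) / c 0))) := mul_nonneg h.hσ (by positivity)
  unfold gg
  nlinarith

theorem stepQ (h : Ok s k c σ) (hw : Gd s c w) (T : Finset V) (θ : ℝ) :
    ∑ F, pr w (c 0) F * PT (5 * d) k (fun S => ∑ G, chi (gg c σ) d (upd w (c 0) F) θ T S G) ≤
      exp (4 * k ^ 2 * gg c σ (s + d)) *
        PT (5 * d) k (fun S => ∑ G, chi (gg c σ) d w (θ + 1) T S G) := by
  simp only [PT, mul_sum]
  rw [sum_comm]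
  refine sum_le_sum fun f _ => ?_
  split_ifs with hf
  swap
  · simp
  simp only [Fintype.prod_sum, mul_sum]
  rw [sum_comm]
  refine sum_le_sum fun G _ => ?_
  by_cases h0 : ∃ a, ¬ ((Disjoint (f a) T ∧ (G a \ f a).card ≤ 2 * d) ∧ w (f a) ≠ 0 ∧ w (G a) ≠ 0)
  · obtain ⟨a, ha⟩ := h0
    have : ∀ F, ∏ a, chi (gg c σ) d (upd w (c 0) F) θ T (f a) (G a) = 0 := fun F =>
      Finset.prod_eq_zero (mem_univ a) (by
        unfold chi
        split_ifs with h1
        · by_cases h2 : w (f a) = 0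
          · simp [upd_zero h2]
          · simp [upd_zero (show w (G a) = 0 by tauto)]
        · rfl)
    simp only [this, mul_zero, sum_const_zero]
    exact mul_nonneg (exp_pos _).le (prod_nonneg fun a _ => chi_nonneg hw.nn _ _ _ _ _)
  push Not at h0
  have hc : ∀ a, (f a).card = s := fun a => hw.supp _ (h0 a).2.1
  have hG : ∀ a, (G a).card = s := fun a => hw.supp _ (h0 a).2.2
  have hS : ∀ x, (Sum.elim f G x).card = s := fun x => by cases x; exacts [hc _, hG _]
  have key := (hw.st h).tuple (Sum.elim f G) (fun a => card_pos.1 (by rw [hS]; exact h.one))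
    (fun a => hw.kap h (hS a).ge) h.hσ (h.hq' (by simp; omega))
  simp only [chi, fun a => (h0 a).1, and_self, if_true, prod_mul_distrib, add_mul, one_mul,
    exp_add, ← mul_assoc]
  rw [← sum_mul, mul_right_comm _ _ (∏ x, exp (gg c σ (f x ∪ G x).card))]
  refine mul_le_mul_of_nonneg_right ?_ (prod_nonneg fun a _ => (exp_pos _).le)
  simp only [Fintype.prod_sum_type, Sum.elim_inl, Sum.elim_inr, ← mul_assoc] at key
  refine key.trans ?_
  rw [← exp_sum, show ∀ x y z u : ℝ, exp x * y * z * exp u = y * z * exp (x + u) from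
    fun x y z u => by rw [exp_add]; ring]
  refine mul_le_mul_of_nonneg_left (exp_le_exp.2 ?_)
    (mul_nonneg (prod_nonneg fun a _ => hw.nn _) (prod_nonneg fun a _ => hw.nn _))
  have hp : ∀ j, 0 < c j / c 0 := fun j => div_pos (h.pos j) (h.pos 0)
  let ix : Fin k ⊕ Fin k → Fin k := Sum.elim id id
  have hn : ∀ x, (Sum.elim f G x \ f (ix x)).card ≤ 2 * d := fun x => by
    cases x
    · simp [ix]
    · exact (h0 _).1.2
  have h1 : ∑ x, ∑ y, (if x = y then 0 else W w (Sum.elim f G x ∪ Sum.elim f G y) / c 0) ≤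
      ∑ x : Fin k ⊕ Fin k, ∑ y : Fin k ⊕ Fin k, (c (s + d) / c 0 +
        if y = x.swap then c (f (ix x) ∪ G (ix x)).card / c 0 else 0) :=
    sum_le_sum fun x _ => sum_le_sum fun y _ => by
      have a0 := hp (s + d)
      have a1 := hp (f (ix x) ∪ G (ix x)).card
      by_cases hxy : x = y
      · rw [if_pos hxy]; split_ifs <;> linarith
      rw [if_neg hxy]
      by_cases hs : y = x.swap
      · rw [if_pos hs]
        have : W w (Sum.elim f G x ∪ Sum.elim f G y) / c 0 ≤ c (f (ix x) ∪ G (ix x)).card / c 0 :=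
          hw.kap h (by subst hs; cases x <;> simp [ix, union_comm])
        linarith
      · rw [if_neg hs, add_zero]
        refine hw.kap h ?_
        have b0 : ix y ≠ ix x := by
          cases x <;> cases y <;> simp_all [ix, eq_comm]
        have b1 := hf _ _ b0
        have b2 := tri (f (ix y)) (Sum.elim f G y) (f (ix x))
        have b3 := tri (Sum.elim f G y) (Sum.elim f G x) (f (ix x))
        have b4 := hn x
        have b5 := hn y
        rw [card_sdiff_comm ((hS y).trans (hc _).symm)] at b5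
        rw [card_un, hS]; omega
  simp only [sum_add_distrib, sum_const, card_univ, Fintype.card_sum, Fintype.card_fin,
    nsmul_eq_mul, sum_ite_eq', mem_univ, if_true] at h1
  rw [Fintype.sum_sum_type (fun x => c (f (ix x) ∪ G (ix x)).card / c 0)] at h1
  simp only [ix, Sum.elim_inl, Sum.elim_inr, id, Nat.cast_add] at h1
  have h2 := mul_le_mul_of_nonneg_left h1 h.hσ
  have h3 : 0 ≤ σ * (k * (k * (c (s + d) / c 0))) := mul_nonneg h.hσ (by have := hp (s + d); positivity)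
  simp only [gg, ← mul_sum]
  nlinarith

/-- potential controlling the weights of neighbourhoods -/
noncomputable def Pt (d k : ℕ) (c : ℕ → ℝ) (E : ℝ) (w : Finset V → ℝ) : ℝ :=
  ∑ Y, PT d k (res w Y) / (c Y.card - E) ^ k

/-- potential controlling heavy clusters -/
noncomputable def Qt (s d k : ℕ) (g : ℕ → ℝ) (M : ℝ) (w : Finset V → ℝ) (θ : ℝ) : ℝ :=
  ∑ T ∈ powersetCard (s - 1) univ, PT (5 * d) k (fun S => ∑ G, chi g d w θ T S G) / M ^ k

/-- potential counting the covers -/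
noncomputable def Zt (s : ℕ) (H : Finset (Finset V)) (w : Finset V → ℝ) (θ : ℝ) : ℝ :=
  ∑ T ∈ powersetCard (s - 1) univ, Z H w T θ

variable {E M δ t θ : ℝ} {H : Finset (Finset V)}

lemma Pt_term (hn : ∀ S, 0 ≤ w S) (hE : ∀ j, E < c j) (Y : Finset V) :
    0 ≤ PT d k (res w Y) / (c Y.card - E) ^ k :=
  div_nonneg (PT_nonneg (res_nonneg hn Y)) (pow_nonneg (sub_pos.2 (hE _)).le _)

lemma Pt_nonneg (hn : ∀ S, 0 ≤ w S) (hE : ∀ j, E < c j) : 0 ≤ Pt d k c E w :=
  sum_nonneg fun Y _ => Pt_term hn hE Y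

lemma Qt_term (hn : ∀ S, 0 ≤ w S) (hM : 0 < M) (g : ℕ → ℝ) (T : Finset V) :
    0 ≤ PT (5 * d) k (fun S => ∑ G, chi g d w θ T S G) / M ^ k :=
  div_nonneg (PT_nonneg fun _ => sum_nonneg fun _ _ => chi_nonneg hn _ _ _ _ _) (pow_pos hM _).le

lemma Qt_nonneg (hn : ∀ S, 0 ≤ w S) (hM : 0 < M) (g : ℕ → ℝ) : 0 ≤ Qt s d k g M w θ :=
  sum_nonneg fun T _ => Qt_term hn hM g T

lemma Zt_nonneg : 0 ≤ Zt s H w θ := sum_nonneg fun _ _ => Z_nonneg _ _ _ _

theorem stepPt (h : Ok s k c σ) (hw : Gd s c w) (hE : ∀ j, E < c j)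
    (hδ : 4 * k ^ 2 * gg c σ (s + d) ≤ δ) :
    ∑ F, pr w (c 0) F * Pt d k c E (upd w (c 0) F) ≤ exp δ * Pt d k c E w := by
  simp only [Pt, mul_sum, ← mul_div_assoc]
  rw [sum_comm]
  refine sum_le_sum fun Y _ => ?_
  rw [← sum_div]
  exact div_le_div_of_nonneg_right ((stepP h hw Y).trans (mul_le_mul_of_nonneg_right
    (exp_le_exp.2 hδ) (PT_nonneg (res_nonneg hw.nn Y)))) (pow_nonneg (sub_pos.2 (hE _)).le _)

theorem stepQt (h : Ok s k c σ) (hw : Gd s c w) (hM : 0 < M)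
    (hδ : 4 * k ^ 2 * gg c σ (s + d) ≤ δ) (θ : ℝ) :
    ∑ F, pr w (c 0) F * Qt s d k (gg c σ) M (upd w (c 0) F) θ ≤
      exp δ * Qt s d k (gg c σ) M w (θ + 1) := by
  simp only [Qt, mul_sum, ← mul_div_assoc]
  rw [sum_comm]
  refine sum_le_sum fun T _ => ?_
  rw [← sum_div]
  exact div_le_div_of_nonneg_right ((stepQ h hw T θ).trans (mul_le_mul_of_nonneg_right
    (exp_le_exp.2 hδ) (PT_nonneg fun _ => sum_nonneg fun _ _ => chi_nonneg hw.nn _ _ _ _ _)))
    (pow_pos hM _).le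

theorem stepZt (h : Ok s k c σ) (hw : Gd s c w) (h2 : 2 ≤ s) (hn : s < Fintype.card V)
    (H : Finset (Finset V)) (hθ : 0 ≤ θ) (hθt : θ ≤ t / c 0) (hx : t * gg c σ (s + d) ≤ 1)
    (hR : ∀ T : Finset V, T.card = s - 1 →
      bl (fun F => w F * exp (θ * (σ * W w (T ∪ F)))) T d ≤ E)
    (hδ : t * gg c σ (s + d) * (t * (c (s - 1) / c 0) * gg c σ s) + E / c 0 ≤ δ) :
    ∑ F, pr w (c 0) F * Zt s (insert F H) (upd w (c 0) F) θ ≤
      exp δ * Zt s H w (θ + 1 / c 0) := by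
  simp only [Zt, mul_sum]
  rw [sum_comm]
  refine sum_le_sum fun T hT => ?_
  have hT := (mem_powersetCard.1 hT).2
  have hq := h.hq' (m := 1) (by have := h.hk; omega)
  rw [Nat.cast_one, one_mul] at hq
  have hA := h.pos 0
  have ht : 0 ≤ t := by
    have := mul_nonneg (hθ.trans hθt) hA.le
    rwa [div_mul_cancel₀ _ hA.ne'] at this
  have hb : ∀ (Y : Finset V) (j : ℕ), j ≤ Y.card → θ * W w Y ≤ t * (c j / c 0) := fun Y j hj =>
    calc θ * W w Y ≤ t / c 0 * W w Y := mul_le_mul_of_nonneg_right hθt (W_nonneg hw.nn _)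
      _ = t * (W w Y / c 0) := by ring
      _ ≤ _ := mul_le_mul_of_nonneg_left (hw.kap h hj) ht
  have hx0 := mul_nonneg ht (h.g_nonneg (s + d))
  refine ((hw.st h).stepZ H (card_pos.1 (by omega)) (fun S hS => hw.kap h (hw.supp S hS).ge) h.hσ
    hq hθ hx0 hx (fun F => F.card = s ∧ (F \ T).card ≤ d) (R := E / c 0)
    (fun e => by rw [card_univ] at e; omega) (fun F hF _ hc => ?_) ?_).trans ?_
  · have := mul_le_mul_of_nonneg_left (hb (T ∪ F) (s + d) (by
      have := hw.supp F hF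
      rw [card_un]; omega)) h.hσ
    unfold gg
    linarith
  · refine div_le_div_of_nonneg_right (le_trans (sum_le_sum fun F _ => ?_) (hR T hT)) hA.le
    have := mul_nonneg (hw.nn F) (exp_pos (θ * (σ * W w (T ∪ F)))).le
    split_ifs <;> first | rfl | exact this | tauto
  · refine mul_le_mul_of_nonneg_right (exp_le_exp.2 (le_trans ?_ hδ)) (Z_nonneg _ _ _ _)
    have := mul_le_mul_of_nonneg_left (mul_le_mul_of_nonneg_right (hb T (s - 1) hT.ge)
      (h.g_nonneg s)) hx0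
    unfold gg at this ⊢
    linarith

theorem gd_of (hn : ∀ S, 0 ≤ w S) (hs : ∀ S, w S ≠ 0 → S.card = s) (hE : ∀ j, E < c j)
    (hk : 1 ≤ k) (hP : Pt d k c E w ≤ 1) {b : ℝ} (hb : ∀ S : Finset V, S.card = s → bl w S d ≤ b)
    (hb0 : 0 ≤ b) (hbE : k * b ≤ E) : Gd s c w := by
  refine ⟨hn, hs, fun Y => ?_⟩
  have h1 := (single_le_sum (fun Y _ => Pt_term (d := d) (k := k) hn hE Y) (mem_univ Y)).trans hP
  rw [div_le_one (pow_pos (sub_pos.2 (hE _)) _)] at h1
  have := sum_le_of_PT (res_nonneg hn Y) (s := s) (fun S hS => hs S fun e => hS (by simp [res, e]))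
    (fun S hS => le_trans (by
      have := bl_mono (v := res w Y) (v' := w) (x := 1) (fun S => by
        unfold res; split_ifs; exacts [by simp, by simpa using hn S]) S d
      simpa using this) (hb S hS)) hb0 hbE (sub_pos.2 (hE _)).le hk h1
  rw [sub_add_cancel] at this
  exact this

/-- the combinatorial invariants -/
structure Bs (s : ℕ) (H : Finset (Finset V)) (w : Finset V → ℝ) : Prop where
  nn : ∀ S, 0 ≤ w S
  supp : ∀ S, w S ≠ 0 → S.card = s
  meet : ∀ S, w S ≠ 0 → ∀ F ∈ H, ¬ Disjoint S F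
  fam : ∀ F ∈ H, F.card = s ∨ F = univ
  int : ∀ F ∈ H, ∀ G ∈ H, ¬ Disjoint F G

theorem Bs.step (h : Ok s k c σ) (hw : Gd s c w) (hb : Bs s H w) (hn : s < Fintype.card V)
    {F : Finset V} (hF : w F ≠ 0 ∨ F = univ) : Bs s (insert F H) (upd w (c 0) F) := by
  have hu : ∀ S, upd w (c 0) F S ≠ 0 → w S ≠ 0 := fun S hS e => hS (upd_zero e)
  have hF' : F.card = s ∨ F = univ := hF.imp_left (hb.supp F)
  have hne : ∀ G : Finset V, G.card = s ∨ G = univ → G.Nonempty := fun G hG => card_pos.1 (by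
    have := h.one
    rcases hG with e | rfl
    · omega
    · rw [card_univ]; omega)
  have hFG : ∀ G ∈ H, ¬ Disjoint F G := fun G hG => by
    rcases hF with e | rfl
    · exact hb.meet F e G hG
    · obtain ⟨y, hy⟩ := hne G (hb.fam G hG)
      exact not_disjoint_iff.2 ⟨y, mem_univ y, hy⟩
  refine ⟨fun S => (hw.upd_bd h F S).1, fun S hS => hb.supp S (hu S hS), fun S hS G hG => ?_,
    fun G hG => ?_, fun G hG G' hG' => ?_⟩
  · rcases mem_insert.1 hG with rfl | hG
    · exact fun e => hS (by simp [upd, e])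
    · exact hb.meet S (hu S hS) G hG
  · rcases mem_insert.1 hG with rfl | hG
    exacts [hF', hb.fam G hG]
  · rcases mem_insert.1 hG with e | a <;> rcases mem_insert.1 hG' with e' | a'
    · obtain ⟨y, hy⟩ := hne _ hF'
      exact not_disjoint_iff.2 ⟨y, e ▸ hy, e' ▸ hy⟩
    · exact e ▸ hFG _ a'
    · exact fun x => hFG _ a (e' ▸ x.symm)
    · exact hb.int _ a _ a'

end Pool.Agent.Lib.MP_270b52_co.Kn
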