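import Pool.Agent.Lib.MP_270b52_co.KnC

namespace Pool.Agent.Lib.MP_270b52_co.Kn

set_option linter.unusedSectionVars false

open Finset Real

variable {V : Type} [Fintype V] [DecidableEq V]

/-- the numerical conditions on the parameters of the process -/
structure Hyp (n s k d t t₀ : ℕ) (c : ℕ → ℝ) (σ E Θ Λ δ ε : ℝ) : Prop extends Ok s k c σ where
  two : 2 ≤ s
  lt : s < n
  ht : 2 * t₀ ≤ t
  hE : 0 < E
  hΘ : 0 < Θ
  hc : ∀ j, (1 + ε) * ((n - j).choose s : ℝ) + 2 * E ≤ c j
  e0 : 0 ≤ ε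
  e1 : ε ≤ 1
  c2 : (2 : ℝ) ^ (n + 4) ≤ (1 + ε) ^ k
  d0 : 0 ≤ δ
  d1 : t * δ ≤ 1
  c3 : 4 * k ^ 2 * gg c σ (s + d) ≤ δ
  c4 : k * (((5 * d : ℕ) + 1) * (((s : ℝ) * n) ^ (5 * d) * exp (t₀ * gg c σ s))) ≤ E
  c5 : ∀ j ≤ 2 * d, ((s : ℝ) * n) ^ j * exp (t₀ * gg c σ (s + j)) ≤ Λ * exp (t₀ * gg c σ s)
  c6 : 2 * (((n - (s - 1)).choose s : ℝ) * (((2 * d : ℕ) + 1) * (Λ * exp (t₀ * gg c σ s)))) ≤ Θ * E
  c6' : k * (Θ * exp ((t - t₀) * gg c σ s)) ≤ E
  c7 : 2 * E * t ≤ c 0
  c8 : (d + 1) * ((s : ℝ) * n * Λ * exp (t * gg c σ s)) ≤ E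
  c9 : t * gg c σ (s + d) * (t * (c (s - 1) / c 0) * gg c σ s) + E / c 0 ≤ δ
  c10 : (n.choose (s - 1) : ℝ) * exp 2 * exp (-(t / c 0 * (n - (s - 1)).choose s)) ≤ 1 / 4

variable {s k d t t₀ : ℕ} {c : ℕ → ℝ} {σ E Θ Λ δ ε : ℝ} {w : Finset V → ℝ}
  {H : Finset (Finset V)}

lemma Hyp.Ec {n : ℕ} (h : Hyp n s k d t t₀ c σ E Θ Λ δ ε) (j : ℕ) : E < c j := by
  have h1 := h.hc j
  have h2 : 0 ≤ (1 + ε) * ((n - j).choose s : ℝ) := mul_nonneg (by linarith [h.e0]) (by positivity)
  linarith [h.hE]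

lemma Hyp.hx {n : ℕ} (h : Hyp n s k d t t₀ c σ E Θ Λ δ ε) : t * gg c σ (s + d) ≤ 1 := by
  have h1 : (1 : ℝ) ≤ k := by exact_mod_cast h.hk
  have h2 := h.toOk.g_nonneg (s + d)
  have h3 : gg c σ (s + d) ≤ δ := le_trans (by nlinarith [mul_nonneg h2 (sq_nonneg (k - 1 : ℝ))]) h.c3
  exact (mul_le_mul_of_nonneg_left h3 (Nat.cast_nonneg t)).trans h.d1

lemma Hyp.sn {n : ℕ} (h : Hyp n s k d t t₀ c σ E Θ Λ δ ε) : (1 : ℝ) ≤ s * n := by
  have := h.two; have := h.lt
  exact_mod_cast Nat.mul_pos (by omega) (by omega)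

theorem init (h : Hyp (Fintype.card V) s k d t t₀ c σ E Θ Λ δ ε) :
    let w₀ : Finset V → ℝ := fun S => if S.card = s then 1 else 0
    Pt d k c E w₀ + Qt s d k (gg c σ) (Θ * E) w₀ t₀ + exp 1 * Zt s ∅ w₀ (t / c 0) < exp (-1) := by
  intro w₀
  have hn : ∀ S, 0 ≤ w₀ S := fun S => by simp only [w₀]; split_ifs <;> norm_num
  have hε : 0 < 1 + ε := by linarith [h.e0]
  have hN : ∀ I : Finset (Finset V), (I.card : ℝ) * (1 / (1 + ε)) ^ k ≤ 1 / 16 := fun I => by
    have h1 : (I.card : ℝ) ≤ 2 ^ Fintype.card V := by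
      exact_mod_cast (card_le_univ I).trans (Fintype.card_finset (α := V)).le
    have h2 := h.c2
    rw [one_div_pow, mul_one_div, div_le_iff₀ (pow_pos hε _)]
    rw [pow_add] at h2
    linarith
  have hP : Pt d k c E w₀ ≤ 1 / 16 := by
    refine le_trans ?_ (hN univ)
    rw [← nsmul_eq_mul]
    refine sum_le_card_nsmul _ _ _ fun Y _ => ?_
    have h1 := h.hc Y.card
    have h2 := sub_pos.2 (h.Ec Y.card)
    rw [div_le_iff₀ (pow_pos h2 _), ← mul_pow]
    refine (PT_le (res_nonneg hn Y)).trans (pow_le_pow_left₀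
      (sum_nonneg fun S _ => res_nonneg hn Y S) ?_ _)
    rw [one_div_mul_eq_div, le_div_iff₀ hε]
    have := W_init (s := s) Y
    change W w₀ Y * _ ≤ _
    rw [this]
    linarith [h.hE]
  have hQ : Qt s d k (gg c σ) (Θ * E) w₀ t₀ ≤ 1 / 16 := by
    refine le_trans ?_ (hN (powersetCard (s - 1) univ))
    rw [← nsmul_eq_mul]
    refine sum_le_card_nsmul _ _ _ fun T hT => ?_
    have hT := (mem_powersetCard.1 hT).2
    have h2 := mul_pos h.hΘ h.hE
    have h3 : ∀ S, 0 ≤ ∑ G, chi (gg c σ) d w₀ t₀ T S G := fun S =>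
      sum_nonneg fun G _ => chi_nonneg hn _ _ _ _ _
    rw [div_le_iff₀ (pow_pos h2 _), ← mul_pow]
    refine (PT_le h3).trans (pow_le_pow_left₀ (sum_nonneg fun S _ => h3 S) ?_ _)
    have h4 : ∀ S, ∑ G, chi (gg c σ) d w₀ t₀ T S G ≤ (if Disjoint S T then w₀ S else 0) *
        (((2 * d : ℕ) + 1) * (Λ * exp (t₀ * gg c σ s))) := fun S => by
      by_cases a1 : Disjoint S T
      swap
      · simp [chi, a1]
      by_cases a2 : S.card = s
      swap
      · simp [chi, w₀, a2]
      have := bl_le (v := fun G => w₀ G * exp (t₀ * gg c σ (S ∪ G).card)) (s := s)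
        (fun G hG => by by_contra e; simp [w₀, e] at hG) S a2.le h.one (2 * d)
        (fun j => exp (t₀ * gg c σ (s + j))) (fun j => (exp_pos _).le)
        (fun G hG => by simp [w₀, hG, card_un, a2]) h.c5
      simpa [chi, a1, a2, w₀, bl] using this
    refine (sum_le_sum fun S _ => h4 S).trans ?_
    rw [← sum_mul]
    have := W_init (s := s) T
    change W w₀ T * _ ≤ _
    rw [this, hT, one_div_mul_eq_div, le_div_iff₀ hε]
    have h5 := h.c6
    have h6 := mul_le_mul_of_nonneg_left h5 hε.le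
    have h7 := mul_le_mul_of_nonneg_right h.e1 h2.le
    linarith
  have hZ : Zt s ∅ w₀ (t / c 0) =
      (Fintype.card V).choose (s - 1) * exp (-(t / c 0 * (Fintype.card V - (s - 1)).choose s)) := by
    rw [Zt, sum_congr rfl (g := fun _ => exp (-(t / c 0 * (Fintype.card V - (s - 1)).choose s)))
      fun T hT => by
        rw [Z, if_pos (by simp), W_init, (mem_powersetCard.1 hT).2]]
    simp
  have h1 := h.c10
  have h2 : exp 2 * exp (-1) = exp 1 := by rw [← exp_add]; norm_num
  have h3 : exp 1 * exp (-1) = 1 := by rw [← exp_add]; norm_num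
  have h4 := exp_one_lt_three
  have h5 := exp_pos (-1)
  have h6 := mul_le_mul_of_nonneg_left h1 h5.le
  rw [hZ, ← h2]
  nlinarith

theorem phase1 (h : Hyp (Fintype.card V) s k d t t₀ c σ E Θ Λ δ ε) : ∀ τ ≤ t₀,
    ∃ (H : Finset (Finset V)) (w : Finset V → ℝ), Bs s H w ∧ H.card ≤ τ ∧
      (∀ S, w S ≤ exp (τ * gg c σ s)) ∧
      Pt d k c E w + Qt s d k (gg c σ) (Θ * E) w (t₀ - τ) + exp 1 * Zt s H w ((t - τ) / c 0) <
        exp ((τ - t) * δ) := by
  intro τ
  induction τ with
  | zero =>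
    intro _
    refine ⟨∅, fun S => if S.card = s then 1 else 0, ⟨fun S => by split_ifs <;> norm_num,
      fun S hS => by by_contra e; simp [e] at hS, by simp, by simp, by simp⟩, le_rfl,
      fun S => by dsimp only; split_ifs <;> simp, ?_⟩
    simp only [Nat.cast_zero, sub_zero, zero_sub]
    exact (init h).trans_le (exp_le_exp.2 (by linarith [h.d1]))
  | succ τ ih =>
    intro hτ
    obtain ⟨H, w, hb, hH, hw, hΦ⟩ := ih (by omega)
    have hA := h.pos 0
    have hM := mul_pos h.hΘ h.hE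
    have ht : (2 : ℝ) * t₀ ≤ t := by exact_mod_cast h.ht
    have hτ' : (τ : ℝ) + 1 ≤ t₀ := by exact_mod_cast hτ
    have hτ0 : (0 : ℝ) ≤ τ := Nat.cast_nonneg _
    have hg := h.toOk.g_nonneg
    have hP : Pt d k c E w ≤ 1 := by
      have a1 := Qt_nonneg (s := s) (d := d) (k := k) (θ := t₀ - τ) hb.nn hM (gg c σ)
      have a2 := mul_nonneg (exp_pos 1).le (Zt_nonneg (s := s) (H := H) (w := w) (θ := (t - τ) / c 0))
      have a3 : exp ((τ - t) * δ) ≤ 1 :=
        exp_le_one_iff.2 (mul_nonpos_of_nonpos_of_nonneg (by linarith) h.d0)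
      linarith
    have hgd : Gd s c w := by
      refine gd_of hb.nn hb.supp h.Ec h.hk hP (fun S hS => ?_) (by positivity) h.c4
      refine (bl_le hb.supp S hS.le h.one d (fun _ => exp (t₀ * gg c σ s)) (fun _ => (exp_pos _).le)
        (fun G _ => (hw G).trans (exp_le_exp.2 (mul_le_mul_of_nonneg_right (by linarith) (hg s))))
        (fun j hj => mul_le_mul_of_nonneg_right (pow_le_pow_right₀ h.sn (by omega : j ≤ 5 * d))
          (exp_pos _).le)).trans (mul_le_mul_of_nonneg_right ?_ (by positivity))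
      exact_mod_cast (by omega : d + 1 ≤ 5 * d + 1)
    have hθ : 0 ≤ ((t : ℝ) - (τ + 1)) / c 0 := div_nonneg (by linarith) hA.le
    have s1 := stepPt (d := d) h.toOk hgd h.Ec h.c3
    have s2 := stepQt h.toOk hgd hM h.c3 (t₀ - (τ + 1))
    have s3 := stepZt h.toOk hgd h.two h.lt H hθ
      (div_le_div_of_nonneg_right (by linarith) hA.le) h.hx (fun T hT => by
        refine le_trans (bl_le (s := s) (fun F hF => hb.supp F (left_ne_zero_of_mul hF)) T (by omega)
          h.one d (fun j => exp ((t - t₀) * gg c σ s) * exp (t₀ * gg c σ (s + (j - 1))))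
          (fun _ => by positivity) (fun F hF => ?_) fun j hj => ?_) h.c8
        · refine (mul_le_mul_of_nonneg_right (hw F) (exp_pos _).le).trans ?_
          rw [← exp_add, ← exp_add, exp_le_exp]
          have b0 := card_sdiff_add_card_inter F T
          have b1 := card_le_card (inter_subset_right (s₁ := F) (s₂ := T))
          have b2 := h.two
          have b3 := mul_le_mul_of_nonneg_left (hgd.kap h.toOk (Y := T ∪ F)
            (j := s + ((F \ T).card - 1)) (by rw [card_un]; omega)) h.hσ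
          have b4 := mul_le_mul_of_nonneg_left b3 (show (0 : ℝ) ≤ t - (τ + 1) by linarith)
          have b5 := mul_le_mul_of_nonneg_left (h.toOk.g_anti (Nat.le_add_right s ((F \ T).card - 1)))
            (show (0 : ℝ) ≤ t - (τ + 1) - t₀ by linarith)
          have b6 := hg s
          have b7 : ((t : ℝ) - (τ + 1)) / c 0 * (σ * W w (T ∪ F)) =
            (t - (τ + 1)) * (σ * (W w (T ∪ F) / c 0)) := by ring
          rw [b7]
          unfold gg at b5 b6 ⊢
          linarith
        · have b1 : ((s : ℝ) * Fintype.card V) ^ j ≤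
              s * Fintype.card V * (s * Fintype.card V) ^ (j - 1) := by
            rw [← pow_succ']
            exact pow_le_pow_right₀ h.sn (by omega)
          have b2 := mul_le_mul_of_nonneg_left (h.c5 (j - 1) (by omega))
            (show 0 ≤ s * Fintype.card V * exp ((t - t₀) * gg c σ s) by positivity)
          have b3 : exp (t * gg c σ s) = exp ((t - t₀) * gg c σ s) * exp (t₀ * gg c σ s) := by
            rw [← exp_add]; congr 1; ring
          refine (mul_le_mul_of_nonneg_right b1 (by positivity)).trans ?_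
          rw [b3]
          linarith) h.c9
    obtain ⟨F, hF, hΦ'⟩ := (hgd.st h.toOk).exists_le fun F => Pt d k c E (upd w (c 0) F) +
      Qt s d k (gg c σ) (Θ * E) (upd w (c 0) F) (t₀ - (τ + 1)) +
      exp 1 * Zt s (insert F H) (upd w (c 0) F) ((t - (τ + 1)) / c 0)
    refine ⟨insert F H, upd w (c 0) F, hb.step h.toOk hgd h.lt hF,
      (card_insert_le _ _).trans (by omega), fun S => ((hgd.upd_bd h.toOk F S).2).trans ?_, ?_⟩
    · refine (mul_le_mul_of_nonneg_left (hw S) (exp_pos _).le).trans (le_of_eq ?_)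
      rw [← exp_add]; congr 1; push_cast; ring
    · push_cast
      refine hΦ'.trans_lt ?_
      simp only [mul_add, sum_add_distrib, mul_left_comm (pr w (c 0) _) (exp 1), ← mul_sum]
      rw [show (t₀ : ℝ) - (τ + 1) + 1 = t₀ - τ by ring] at s2
      rw [show ((t : ℝ) - (τ + 1)) / c 0 + 1 / c 0 = (t - τ) / c 0 by ring] at s3
      have b1 := mul_le_mul_of_nonneg_left s3 (exp_pos 1).le
      have b2 := mul_lt_mul_of_pos_left hΦ (exp_pos δ)
      rw [← exp_add, show δ + (τ - t) * δ = (τ + 1 - t) * δ by ring] at b2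
      linarith

theorem transit (h : Hyp (Fintype.card V) s k d t t₀ c σ E Θ Λ δ ε) :
    ∃ (H : Finset (Finset V)) (w : Finset V → ℝ), Bs s H w ∧ H.card ≤ t₀ ∧
      (∀ X : Finset V, X.card ≤ s → bl w X d ≤ Θ) ∧
      Pt d k c E w + Zt s H w ((t - t₀) / c 0) < exp ((t₀ - t) * δ) := by
  obtain ⟨H, w, hb, hH, hw, hΦ⟩ := phase1 h t₀ le_rfl
  rw [sub_self] at hΦ
  have hA := h.pos 0
  have hM := mul_pos h.hΘ h.hE
  have ht : (2 : ℝ) * t₀ ≤ t := by exact_mod_cast h.ht
  have ht0 : (0 : ℝ) ≤ t₀ := Nat.cast_nonneg _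
  have a1 := Qt_nonneg (s := s) (d := d) (k := k) (θ := 0) hb.nn hM (gg c σ)
  have a2 := mul_nonneg (exp_pos 1).le (Zt_nonneg (s := s) (H := H) (w := w) (θ := (t - t₀) / c 0))
  have a3 : exp ((t₀ - t) * δ) ≤ 1 :=
    exp_le_one_iff.2 (mul_nonpos_of_nonpos_of_nonneg (by linarith) h.d0)
  have a4 := Pt_nonneg (d := d) (k := k) hb.nn h.Ec
  let w' : Finset V → ℝ := fun S => if Θ < bl w S (2 * d) then 0 else w S
  have n1 : ∀ S, 0 ≤ w' S := fun S => by simp only [w']; split_ifs; exacts [le_rfl, hb.nn S]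
  have n2 : ∀ S, w' S ≤ w S := fun S => by simp only [w']; split_ifs; exacts [hb.nn S, le_rfl]
  have n3 : ∀ S, w' S ≠ 0 → w S ≠ 0 ∧ bl w S (2 * d) ≤ Θ := fun S hS => by
    simp only [w'] at hS
    split_ifs at hS with e
    exacts [absurd rfl hS, ⟨hS, not_lt.1 e⟩]
  have hP : Pt d k c E w' ≤ Pt d k c E w := sum_le_sum fun Y _ => div_le_div_of_nonneg_right
    (PT_mono (res_nonneg n1 Y) fun S => by unfold res; split_ifs; exacts [n2 S, le_rfl])
    (pow_nonneg (sub_pos.2 (h.Ec _)).le _)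
  have hW : ∀ T ∈ powersetCard (s - 1) (univ : Finset V), W w T ≤ W w' T + 2 * E := fun T hT => by
    let u : Finset V → ℝ := fun S => if Disjoint S T then w S - w' S else 0
    have u0 : ∀ S, 0 ≤ u S := fun S => by
      simp only [u]; split_ifs; exacts [sub_nonneg.2 (n2 S), le_rfl]
    have u1 : ∀ S, u S ≤ 1 * w S := fun S => by
      simp only [u]; split_ifs <;> linarith [n1 S, hb.nn S]
    have b1 := (single_le_sum (fun T _ => Qt_term (d := d) (k := k) (θ := 0) hb.nn hM (gg c σ) T)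
      hT).trans (show Qt s d k (gg c σ) (Θ * E) w 0 ≤ 1 by linarith)
    rw [div_le_one (pow_pos hM _)] at b1
    have b2 := (PT_mono (d := 5 * d) (k := k) (v := fun S => Θ * u S)
      (fun S => mul_nonneg h.hΘ.le (u0 S)) (fun S => by
        by_cases e : Disjoint S T
        · have : ∑ G, chi (gg c σ) d w 0 T S G = w S * bl w S (2 * d) := by
            simp [chi, e, bl, mul_sum]
          rw [this]
          simp only [u, w', e, if_true]
          split_ifs with e'
          · rw [sub_zero, mul_comm]; exact mul_le_mul_of_nonneg_left e'.le (hb.nn S)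
          · rw [sub_self, mul_zero]; exact mul_nonneg (hb.nn S) (bl_nonneg hb.nn _ _)
        · simp [u, chi, e])).trans b1
    rw [PT_smul, mul_pow] at b2
    have b3 := sum_le_of_PT u0 (s := s) (fun S hS => hb.supp S fun e => hS (le_antisymm
      (by simpa [e] using u1 S) (u0 S))) (fun S hS => (bl_mono u1 S _).trans (by
        rw [one_mul]
        exact bl_le hb.supp S hS.le h.one (5 * d) (fun _ => exp (t₀ * gg c σ s))
          (fun _ => (exp_pos _).le) (fun G _ => hw G) fun j hj => mul_le_mul_of_nonneg_right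
            (pow_le_pow_right₀ h.sn hj) (exp_pos _).le)) (by positivity) h.c4 h.hE.le h.hk
      (le_of_mul_le_mul_left b2 (pow_pos h.hΘ _))
    have b4 : ∑ S, u S = W w T - W w' T := by
      simp only [W, ← sum_sub_distrib, u]
      exact sum_congr rfl fun S _ => by split_ifs <;> simp
    linarith
  have hZ : Zt s H w' ((t - t₀) / c 0) ≤ exp 1 * Zt s H w ((t - t₀) / c 0) := by
    simp only [Zt, mul_sum]
    refine sum_le_sum fun T hT => ?_
    unfold Z
    split_ifs
    · rw [← exp_add, exp_le_exp]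
      have b0 : (0 : ℝ) ≤ (t - t₀) / c 0 := div_nonneg (by linarith) hA.le
      have b1 := mul_le_mul_of_nonneg_left (hW T hT) b0
      have b2 : ((t : ℝ) - t₀) / c 0 * (2 * E) ≤ 1 := by
        rw [div_mul_eq_mul_div, div_le_one hA]
        nlinarith [h.c7, h.hE]
      linarith
    · simp
  refine ⟨H, w', ⟨n1, fun S hS => hb.supp S (n3 S hS).1, fun S hS => hb.meet S (n3 S hS).1, hb.fam,
    hb.int⟩, hH, fun X hX => ?_, by linarith⟩
  by_cases e : ∃ S, (S \ X).card ≤ d ∧ w' S ≠ 0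
  · obtain ⟨S, e1, e2⟩ := e
    refine le_trans (sum_le_sum fun G _ => ?_) (n3 S e2).2
    have b1 := tri G X S
    have b2 := sdiff_le (hX.trans (hb.supp S (n3 S e2).1).ge)
    split_ifs
    exacts [n2 G, by omega, hb.nn G, le_rfl]
  · push Not at e
    refine le_trans (le_of_eq (sum_eq_zero fun G _ => ?_)) h.hΘ.le
    split_ifs with e1
    exacts [e G e1, rfl]

theorem phase2 (h : Hyp (Fintype.card V) s k d t t₀ c σ E Θ Λ δ ε) : ∀ j, t₀ + j ≤ t →
    ∃ (H : Finset (Finset V)) (w : Finset V → ℝ), Bs s H w ∧ H.card ≤ t₀ + j ∧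
      (∀ X : Finset V, X.card ≤ s → bl w X d ≤ exp (j * gg c σ s) * Θ) ∧
      Pt d k c E w + Zt s H w ((t - t₀ - j) / c 0) < exp ((t₀ + j - t) * δ) := by
  intro j
  induction j with
  | zero => intro _; simpa using transit h
  | succ j ih =>
    intro hj
    obtain ⟨H, w, hb, hH, hw, hΦ⟩ := ih (by omega)
    have hA := h.pos 0
    have hj' : (t₀ : ℝ) + (j + 1) ≤ t := by exact_mod_cast hj
    have hj0 : (0 : ℝ) ≤ j := Nat.cast_nonneg _
    have ht0 : (0 : ℝ) ≤ t₀ := Nat.cast_nonneg _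
    have hk : (1 : ℝ) ≤ k := by exact_mod_cast h.hk
    have hg := h.toOk.g_nonneg
    have hΘ := h.hΘ
    have hP : Pt d k c E w ≤ 1 := by
      have a2 := Zt_nonneg (s := s) (H := H) (w := w) (θ := (t - t₀ - j) / c 0)
      have a3 : exp ((t₀ + j - t) * δ) ≤ 1 :=
        exp_le_one_iff.2 (mul_nonpos_of_nonpos_of_nonneg (by linarith) h.d0)
      linarith
    have hgd : Gd s c w := by
      refine gd_of hb.nn hb.supp h.Ec h.hk hP (fun S hS => (hw S hS.le).trans ?_) (by positivity)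
        h.c6'
      rw [mul_comm]
      exact mul_le_mul_of_nonneg_left (exp_le_exp.2 (mul_le_mul_of_nonneg_right (by linarith)
        (hg s))) hΘ.le
    have hθ : 0 ≤ ((t : ℝ) - t₀ - (j + 1)) / c 0 := div_nonneg (by linarith) hA.le
    have s1 := stepPt (d := d) h.toOk hgd h.Ec h.c3
    have s3 := stepZt h.toOk hgd h.two h.lt H hθ
      (div_le_div_of_nonneg_right (by linarith) hA.le) h.hx (E := E) (fun T hT => by
        refine (bl_mono (v' := w) (x := exp ((t - t₀ - j) * gg c σ s)) (fun F => ?_) T d).trans ?_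
        · by_cases e : w F = 0
          · simp [e]
          rw [mul_comm]
          refine mul_le_mul_of_nonneg_right (exp_le_exp.2 ?_) (hb.nn F)
          have b3 := mul_le_mul_of_nonneg_left (hgd.kap h.toOk (Y := T ∪ F) (j := s)
            ((hb.supp F e).ge.trans (card_le_card subset_union_right))) h.hσ
          have b4 := mul_le_mul_of_nonneg_left b3 (show (0 : ℝ) ≤ t - t₀ - (j + 1) by linarith)
          have b6 := hg s
          have b7 : ((t : ℝ) - t₀ - (j + 1)) / c 0 * (σ * W w (T ∪ F)) =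
            (t - t₀ - (j + 1)) * (σ * (W w (T ∪ F) / c 0)) := by ring
          rw [b7]
          unfold gg at b6 ⊢
          linarith
        · refine (mul_le_mul_of_nonneg_left (hw T (by omega)) (exp_pos _).le).trans
            (le_trans ?_ h.c6')
          rw [← mul_assoc, ← exp_add, show (t - t₀ - j) * gg c σ s + j * gg c σ s =
            (t - t₀) * gg c σ s by ring, mul_comm]
          exact le_mul_of_one_le_left (by positivity) hk) h.c9
    obtain ⟨F, hF, hΦ'⟩ := (hgd.st h.toOk).exists_le fun F => Pt d k c E (upd w (c 0) F) +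
      Zt s (insert F H) (upd w (c 0) F) ((t - t₀ - (j + 1)) / c 0)
    refine ⟨insert F H, upd w (c 0) F, hb.step h.toOk hgd h.lt hF,
      (card_insert_le _ _).trans (by omega),
      fun X hX => (bl_mono (fun S => (hgd.upd_bd h.toOk F S).2) X d).trans ?_, ?_⟩
    · refine (mul_le_mul_of_nonneg_left (hw X hX) (exp_pos _).le).trans (le_of_eq ?_)
      rw [← mul_assoc, ← exp_add]; congr 2; push_cast; ring
    · push_cast
      refine hΦ'.trans_lt ?_
      simp only [mul_add, sum_add_distrib]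
      rw [show ((t : ℝ) - t₀ - (j + 1)) / c 0 + 1 / c 0 = (t - t₀ - j) / c 0 by ring] at s3
      have b2 := mul_lt_mul_of_pos_left hΦ (exp_pos δ)
      rw [← exp_add, show δ + (t₀ + j - t) * δ = (t₀ + (j + 1) - t) * δ by ring] at b2
      linarith

theorem abstract (h : Hyp (Fintype.card V) s k d t t₀ c σ E Θ Λ δ ε) :
    ∃ H : Finset (Finset V), (∀ e ∈ H, e.card = s) ∧ (∀ e ∈ H, ∀ f ∈ H, ¬ Disjoint e f) ∧
      (∀ C : Finset V, C.card < s → ∃ e ∈ H, Disjoint e C) ∧ H.card ≤ t := by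
  have ht := h.ht
  obtain ⟨H, w, hb, hH, -, hΦ⟩ := phase2 h (t - t₀) (by omega)
  rw [Nat.cast_sub (by omega), sub_self, zero_div, add_sub_cancel, sub_self, zero_mul,
    exp_zero] at hΦ
  refine ⟨H.erase univ, fun e he => (hb.fam e (mem_of_mem_erase he)).resolve_right
    (ne_of_mem_erase he), fun e he f hf => hb.int e (mem_of_mem_erase he) f (mem_of_mem_erase hf),
    fun C hC => ?_, (card_erase_le.trans hH).trans (by omega)⟩
  have h2 := h.two
  have hl := h.lt
  obtain ⟨T, hCT, -, hT⟩ := exists_subsuperset_card_eq (subset_univ C) (n := s - 1) (by omega)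
    (by rw [card_univ]; omega)
  have a1 := single_le_sum (f := fun T => Z H w T 0) (fun _ _ => Z_nonneg _ _ _ _)
    (mem_powersetCard.2 ⟨subset_univ T, hT⟩)
  have a2 := Pt_nonneg (d := d) (k := k) hb.nn h.Ec
  by_contra hc
  push Not at hc
  rw [Z, if_pos, zero_mul, neg_zero, exp_zero] at a1
  · unfold Zt at hΦ; linarith
  · intro F hF hd
    by_cases e : F = univ
    · obtain ⟨y, hy⟩ := card_pos.1 (show 0 < T.card by omega)
      exact disjoint_left.1 hd (e ▸ mem_univ y) hy
    · exact hc F (mem_erase.2 ⟨e, hF⟩) (disjoint_of_subset_right hCT hd)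

end Pool.Agent.Lib.MP_270b52_co.Kn
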