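import Pool.Agent.Lib.MP_270b52_co.Tower

set_option autoImplicit false

namespace Pool.Agent.Lib.MP_270b52_co

open Finset

/-- The exponent used in the tower induction. -/
noncomputable def ex (ρ e g Z c : ℝ) : ℝ := ρ * c * (1 + e + g * Real.log (1 + Z * c))

theorem ex_le (ρ e g Z c x : ℝ) (hρ : 0 ≤ ρ) (hg : 0 ≤ g) (hZ : 0 ≤ Z) (hc : 0 < c)
    (hx : 0 ≤ x) :
    ex ρ e g Z x ≤ ρ * c * (x / c) * (1 + (e + g * Real.log (1 + 2 / 5 * Z * c))) +
      g * (ρ * c) * (x / c * max (5 / 2 * (x / c) - 1) 0) := by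
  unfold ex
  have h1 := log_step (5 / 2 * (x / c)) (2 / 5 * Z * c) (by positivity) (by positivity)
  have h2 : 5 / 2 * (x / c) * (2 / 5 * Z * c) = Z * x := by field_simp
  rw [h2] at h1
  have h3 : ρ * c * (x / c) = ρ * x := by field_simp
  have h4 : g * (ρ * c) * (x / c * max (5 / 2 * (x / c) - 1) 0) =
      ρ * x * (g * max (5 / 2 * (x / c) - 1) 0) := by field_simp
  rw [h3, h4, ← mul_add]
  refine mul_le_mul_of_nonneg_left ?_ (by positivity)
  have := mul_le_mul_of_nonneg_left h1 hg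
  linarith

theorem log_three_le : Real.log 3 ≤ 8 / 7 := by
  rw [Real.log_le_iff_le_exp (by norm_num)]
  have h := Real.add_one_le_exp (1 / 7 : ℝ)
  have h1 := Real.exp_one_gt_d9
  have h2 : Real.exp (8 / 7) = Real.exp 1 * Real.exp (1 / 7) := by
    rw [← Real.exp_add]; norm_num
  rw [h2]
  nlinarith [Real.exp_pos (1 / 7 : ℝ)]

theorem blocked (v R g p q y z : ℝ) (hv : 0 ≤ v) (hR : 0 ≤ R) (hg : 0 ≤ g) (hg' : g ≤ 1 / 20)
    (hp : 0 ≤ p) (hq : 0 ≤ q) (hpq : p + q ≤ 1 / 2) (h8 : 8 ≤ v * (1 + R))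
    (hy : y ≤ v * p * (1 + R) + g * v * (p * max (5 / 2 * p - 1) 0))
    (hz : z ≤ v * q * (1 + R) + g * v * (q * max (5 / 2 * q - 1) 0)) :
    Real.exp (-(2 / 3 * v * (1 + R))) ≤ 1 / 3 * Real.exp (-(y + z)) := by
  have m1 : p * max (5 / 2 * p - 1) 0 ≤ p * (1 / 4) :=
    mul_le_mul_of_nonneg_left (max_le (by linarith) (by norm_num)) hp
  have m2 : q * max (5 / 2 * q - 1) 0 ≤ q * (1 / 4) :=
    mul_le_mul_of_nonneg_left (max_le (by linarith) (by norm_num)) hq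
  have hgv : 0 ≤ g * v := mul_nonneg hg hv
  have m3 : g * v * (p * max (5 / 2 * p - 1) 0) + g * v * (q * max (5 / 2 * q - 1) 0) ≤
      g * v * (1 / 8) := by
    rw [← mul_add]
    exact mul_le_mul_of_nonneg_left (by linarith) hgv
  obtain ⟨T, hT⟩ : ∃ T, T = v * (1 + R) := ⟨_, rfl⟩
  have m4 : g * v ≤ 1 / 20 * T := by
    have : v ≤ T := by rw [hT]; nlinarith
    nlinarith
  have m5 : v * p * (1 + R) + v * q * (1 + R) ≤ T * (1 / 2) := by
    have : v * p * (1 + R) + v * q * (1 + R) = T * (p + q) := by rw [hT]; ring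
    rw [this]
    exact mul_le_mul_of_nonneg_left hpq (by linarith)
  have m6 : 2 / 3 * v * (1 + R) = 2 / 3 * T := by rw [hT]; ring
  have h3 : (1 / 3 : ℝ) = Real.exp (-Real.log 3) := by
    rw [Real.exp_neg, Real.exp_log (by norm_num)]; norm_num
  rw [h3, ← Real.exp_add, Real.exp_le_exp, m6]
  have := log_three_le
  rw [← hT] at h8
  linarith

theorem prod_ge (x y a b : ℝ) (hx : x ≤ 1) (hy : y ≤ 1) (ha : 1 - a ≤ x) (hb : 1 - b ≤ y) :
    1 - (a + b) ≤ x * y := by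
  nlinarith [mul_nonneg (sub_nonneg.2 hx) (sub_nonneg.2 hy)]

theorem exp_mul_le (y z P Q : ℝ) (hP : Real.exp (-y) ≤ P) (hQ : Real.exp (-z) ≤ Q) :
    Real.exp (-(y + z)) ≤ P * Q := by
  rw [neg_add, Real.exp_add]
  exact mul_le_mul hP hQ (Real.exp_pos _).le ((Real.exp_pos _).le.trans hP)

theorem tower_step (ρ e g Z N c0 c1 c2 P0 P1 P2 : ℝ) (hρ : 0 < ρ) (he : 0 < e) (he' : e ≤ 1 / 3)
    (hg : g = e / 40) (hZ : 0 ≤ Z) (hN : 0 < N) (a0 : 0 ≤ c0) (a1 : 0 ≤ c1) (a2 : 0 ≤ c2)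
    (hc : c0 + c1 + c2 < 2 * N)
    (u0 : P0 ≤ 1) (u1 : P1 ≤ 1) (u2 : P2 ≤ 1) (n0 : 0 ≤ P0) (n1 : 0 ≤ P1) (n2 : 0 ≤ P2)
    (f0 : 1 - ρ * c0 ≤ P0) (f1 : 1 - ρ * c1 ≤ P1) (f2 : 1 - ρ * c2 ≤ P2)
    (b0 : c0 < N → Real.exp (-ex ρ e g Z c0) ≤ P0)
    (b1 : c1 < N → Real.exp (-ex ρ e g Z c1) ≤ P1)
    (b2 : c2 < N → Real.exp (-ex ρ e g Z c2) ≤ P2)
    (h8 : 8 ≤ ρ * N * (1 + g * Real.log (1 + 2 / 5 * Z * N))) :
    Real.exp (-ex (2 / 3 * ρ) e g (2 / 5 * Z) (c0 + c1 + c2)) ≤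
      1 / 3 * (P1 * P2) + 1 / 3 * (P0 * P2) + 1 / 3 * (P0 * P1) := by
  obtain ⟨c, hcd⟩ : ∃ c, c = c0 + c1 + c2 := ⟨_, rfl⟩
  have hc0 : 0 ≤ c := by linarith
  have hg0 : 0 < g := by rw [hg]; positivity
  obtain ⟨R, hR⟩ : ∃ R, R = e + g * Real.log (1 + 2 / 5 * Z * c) := ⟨_, rfl⟩
  have hL : 0 ≤ Real.log (1 + 2 / 5 * Z * c) :=
    Real.log_nonneg (by have : 0 ≤ 2 / 5 * Z * c := by positivity
                        linarith)
  have hRe : e ≤ R := by rw [hR]; nlinarith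
  have hex : ex (2 / 3 * ρ) e g (2 / 5 * Z) (c0 + c1 + c2) = 2 / 3 * (ρ * c) * (1 + R) := by
    rw [← hcd, hR]; unfold ex; ring
  rw [hex]
  have hv0 : 0 ≤ ρ * c := by positivity
  by_cases hsm : ρ * c < 60 * g
  · have k1 := prod_ge P1 P2 _ _ u1 u2 f1 f2
    have k2 := prod_ge P0 P2 _ _ u0 u2 f0 f2
    have k3 := prod_ge P0 P1 _ _ u0 u1 f0 f1
    have k4 := one_sub_ge (2 / 3 * (ρ * c)) e (by positivity) (by linarith) he'
    have k5 : Real.exp (-(2 / 3 * (ρ * c) * (1 + R))) ≤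
        Real.exp (-(2 / 3 * (ρ * c) * (1 + e))) := by
      rw [Real.exp_le_exp]; nlinarith
    have k6 : ρ * c = ρ * c0 + ρ * c1 + ρ * c2 := by rw [hcd]; ring
    linarith
  push Not at hsm
  have hcpos : 0 < c := by
    rcases hc0.lt_or_eq with h | h
    · exact h
    · rw [← h] at hsm; linarith
  have y0 := ex_le ρ e g Z c c0 hρ.le hg0.le hZ hcpos a0
  have y1 := ex_le ρ e g Z c c1 hρ.le hg0.le hZ hcpos a1
  have y2 := ex_le ρ e g Z c c2 hρ.le hg0.le hZ hcpos a2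
  rw [← hR] at y0 y1 y2
  have q0 : 0 ≤ c0 / c := by positivity
  have q1 : 0 ≤ c1 / c := by positivity
  have q2 : 0 ≤ c2 / c := by positivity
  have hg' : g ≤ 1 / 20 := by rw [hg]; linarith
  have big : N ≤ c → 8 ≤ ρ * c * (1 + R) := by
    intro hNc
    refine h8.trans ?_
    have l1 : Real.log (1 + 2 / 5 * Z * N) ≤ Real.log (1 + 2 / 5 * Z * c) := by
      apply Real.log_le_log (by positivity)
      nlinarith
    have l0 : 0 ≤ Real.log (1 + 2 / 5 * Z * N) :=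
      Real.log_nonneg (by have : 0 ≤ 2 / 5 * Z * N := by positivity
                          linarith)
    refine mul_le_mul (mul_le_mul_of_nonneg_left hNc hρ.le) ?_ (by positivity) hv0
    rw [hR]; nlinarith
  have half : ∀ x y : ℝ, x + y ≤ c / 2 → x / c + y / c ≤ 1 / 2 := by
    intro x y h
    rw [← add_div, div_le_iff₀ hcpos]; linarith
  have w12 := mul_nonneg n1 n2
  have w02 := mul_nonneg n0 n2
  have w01 := mul_nonneg n0 n1
  by_cases t0 : c0 < N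
  · by_cases t1 : c1 < N
    · by_cases t2 : c2 < N
      · have G := gain (ρ * c) (c0 / c) (c1 / c) (c2 / c) _ _ _ R g q0 q1 q2
          (by rw [← add_div, ← add_div, ← hcd, div_self hcpos.ne']) hg0 hg' hsm (by linarith)
          y0 y1 y2
        have k1 := exp_mul_le _ _ _ _ (b1 t1) (b2 t2)
        have k2 := exp_mul_le _ _ _ _ (b0 t0) (b2 t2)
        have k3 := exp_mul_le _ _ _ _ (b0 t0) (b1 t1)
        linarith
      · have G := blocked (ρ * c) R g _ _ _ _ hv0 (by linarith) hg0.le hg' q0 q1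
          (half _ _ (by linarith)) (big (by linarith)) y0 y1
        have k3 := exp_mul_le _ _ _ _ (b0 t0) (b1 t1)
        linarith
    · have G := blocked (ρ * c) R g _ _ _ _ hv0 (by linarith) hg0.le hg' q0 q2
        (half _ _ (by linarith)) (big (by linarith)) y0 y2
      have k3 := exp_mul_le _ _ _ _ (b0 t0) (b2 (by linarith))
      linarith
  · have G := blocked (ρ * c) R g _ _ _ _ hv0 (by linarith) hg0.le hg' q1 q2
      (half _ _ (by linarith)) (big (by linarith)) y1 y2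
    have k3 := exp_mul_le _ _ _ _ (b1 (by linarith)) (b2 (by linarith))
    linarith

/-- The one-point family. -/
noncomputable def pt : Sys Unit where
  Ω := Unit
  fin := inferInstance
  e := fun _ => univ
  w := fun _ => 1
  w_nonneg := fun _ => zero_le_one
  inter := by decide

theorem h8_holds (g : ℝ) (hg : 0 < g) (k : ℕ) :
    8 ≤ (2 / 3 : ℝ) ^ k * 2 ^ k * (1 + g * Real.log (1 + 2 / 5 *
      ((5 / 2) ^ 8 * Real.exp (7 / g) * (2 / 5) ^ k) * 2 ^ k)) := by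
  have e1 : (2 / 3 : ℝ) ^ k * 2 ^ k = (4 / 3) ^ k := by rw [← mul_pow]; norm_num
  rw [e1]
  have l0 : 0 ≤ Real.log (1 + 2 / 5 * ((5 / 2) ^ 8 * Real.exp (7 / g) * (2 / 5) ^ k) * 2 ^ k) :=
    Real.log_nonneg (by
      have : 0 ≤ 2 / 5 * ((5 / 2 : ℝ) ^ 8 * Real.exp (7 / g) * (2 / 5) ^ k) * 2 ^ k := by
        positivity
      linarith)
  rcases le_or_gt 8 k with hk | hk
  · have h1 : (4 / 3 : ℝ) ^ 8 ≤ (4 / 3) ^ k := pow_le_pow_right₀ (by norm_num) hk
    have h2 : (8 : ℝ) ≤ (4 / 3) ^ 8 := by norm_num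
    have h3 : 0 ≤ g * Real.log (1 + 2 / 5 *
      ((5 / 2) ^ 8 * Real.exp (7 / g) * (2 / 5) ^ k) * 2 ^ k) := mul_nonneg hg.le l0
    nlinarith
  · have h1 : (1 : ℝ) ≤ (4 / 3) ^ k := one_le_pow₀ (by norm_num)
    have h2 : (2 / 5 : ℝ) ^ 7 ≤ (2 / 5) ^ k :=
      pow_le_pow_of_le_one (by norm_num) (by norm_num) (by omega)
    have h3 : (1 : ℝ) ≤ 2 ^ k := one_le_pow₀ (by norm_num)
    have h4 : 7 / g ≤ Real.log (1 + 2 / 5 *
        ((5 / 2) ^ 8 * Real.exp (7 / g) * (2 / 5) ^ k) * 2 ^ k) := by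
      rw [Real.le_log_iff_exp_le (by positivity)]
      have hE := Real.exp_pos (7 / g)
      have h5 : Real.exp (7 / g) ≤ 2 / 5 * ((5 / 2) ^ 8 * Real.exp (7 / g) * (2 / 5) ^ k) := by
        have := mul_le_mul_of_nonneg_left h2 (show 0 ≤ (5 / 2 : ℝ) ^ 8 * Real.exp (7 / g) by
          positivity)
        nlinarith
      have h6 : 0 ≤ 2 / 5 * ((5 / 2 : ℝ) ^ 8 * Real.exp (7 / g) * (2 / 5) ^ k) := by positivity
      nlinarith
    have h5 : 7 ≤ g * Real.log (1 + 2 / 5 *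
        ((5 / 2) ^ 8 * Real.exp (7 / g) * (2 / 5) ^ k) * 2 ^ k) := by
      rw [div_le_iff₀ hg] at h4; linarith
    nlinarith

theorem tower (e : ℝ) (he : 0 < e) (he' : e ≤ 1 / 3) (k : ℕ) :
    ∃ (V : Type) (_ : Fintype V) (_ : DecidableEq V) (S : Sys V), Fintype.card V = 3 ^ k ∧
      S.Unif (2 ^ k) ∧ S.mass = 1 ∧ (∀ C : Finset V, 1 - (2 / 3) ^ k * (C.card : ℝ) ≤ S.P C) ∧
      ∀ C : Finset V, C.card < 2 ^ k → Real.exp (-ex ((2 / 3) ^ k) e (e / 40)
        ((5 / 2) ^ 8 * Real.exp (7 / (e / 40)) * (2 / 5) ^ k) C.card) ≤ S.P C := by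
  induction k with
  | zero =>
    have hP : pt.P ∅ = 1 := by
      change ∑ _u : Unit, (1 : ℝ) * ind univ ∅ = 1
      rw [ind_pos (disjoint_empty_right _)]; simp
    refine ⟨Unit, inferInstance, inferInstance, pt, by simp, fun _ => by simp [pt], ?_, ?_, ?_⟩
    · change ∑ _u : Unit, (1 : ℝ) = 1
      simp
    · intro C
      rcases C.eq_empty_or_nonempty with rfl | h
      · rw [hP]; simp
      · have : (1 : ℝ) ≤ C.card := by exact_mod_cast h.card_pos
        have := pt.P_nonneg C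
        simp only [pow_zero, one_mul]; linarith
    · intro C hC
      have : C = ∅ := by
        rw [← card_eq_zero]; simpa using hC
      subst this
      rw [hP]; simp [ex]
  | succ k ih =>
    obtain ⟨V, i1, i2, S, h1, h2, h3, h4, h5⟩ := ih
    have hle : ∀ C, S.P C ≤ 1 := fun C => h3 ▸ S.P_le_mass C
    have hsum : ∀ C : Finset (Fin 3 × V), (C.card : ℝ) =
        (fib C 0).card + (fib C 1).card + (fib C 2).card := by
      intro C
      rw [← sum_card_fib C, Fin.sum_univ_three]; push_cast; ring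
    refine ⟨Fin 3 × V, inferInstance, inferInstance, comp tri S, ?_, ?_, ?_, ?_, ?_⟩
    · rw [Fintype.card_prod, h1, Fintype.card_fin, pow_succ, mul_comm]
    · rw [pow_succ, mul_comm]; exact comp_unif tri S tri_unif h2
    · rw [comp_mass tri S h3, tri_mass]
    · intro C
      rw [tri_P S h3, hsum]
      have k1 := prod_ge _ _ _ _ (hle _) (hle _) (h4 (fib C 1)) (h4 (fib C 2))
      have k2 := prod_ge _ _ _ _ (hle _) (hle _) (h4 (fib C 0)) (h4 (fib C 2))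
      have k3 := prod_ge _ _ _ _ (hle _) (hle _) (h4 (fib C 0)) (h4 (fib C 1))
      rw [pow_succ]
      linarith
    · intro C hC
      have hC' : (C.card : ℝ) < 2 * 2 ^ k := by
        have : (C.card : ℝ) < ((2 ^ (k + 1) : ℕ) : ℝ) := by exact_mod_cast hC
        push_cast at this; rw [pow_succ] at this; linarith
      have conv : ∀ D : Finset V, (D.card : ℝ) < 2 ^ k → D.card < 2 ^ k := by
        intro D h; exact_mod_cast h
      have T := tower_step ((2 / 3) ^ k) e (e / 40)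
        ((5 / 2) ^ 8 * Real.exp (7 / (e / 40)) * (2 / 5) ^ k) (2 ^ k)
        (fib C 0).card (fib C 1).card (fib C 2).card (S.P (fib C 0)) (S.P (fib C 1))
        (S.P (fib C 2)) (by positivity) he he' rfl (by positivity) (by positivity)
        (Nat.cast_nonneg _) (Nat.cast_nonneg _) (Nat.cast_nonneg _) (by rw [← hsum]; exact hC')
        (hle _) (hle _) (hle _) (S.P_nonneg _) (S.P_nonneg _) (S.P_nonneg _)
        (h4 _) (h4 _) (h4 _) (fun h => h5 _ (conv _ h)) (fun h => h5 _ (conv _ h))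
        (fun h => h5 _ (conv _ h)) (h8_holds (e / 40) (by positivity) k)
      rw [tri_P S h3, hsum]
      refine le_trans (le_of_eq ?_) T
      congr 3
      · rw [pow_succ]; ring
      · rw [pow_succ]; ring

theorem tower_lin (e : ℝ) (he : 0 < e) (he' : e ≤ 1 / 3) :
    ∃ k0 : ℕ, ∀ k, k0 ≤ k → Lin (3 ^ k) (2 ^ k) ((1 + 2 * e) * (2 / 3) ^ k) := by
  obtain ⟨X, hX⟩ : ∃ X : ℝ, X = (5 / 2) ^ 8 * Real.exp (7 / (e / 40)) := ⟨_, rfl⟩
  have hX0 : 0 < X := by rw [hX]; positivity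
  obtain ⟨k0, hk0⟩ := exists_pow_lt_of_lt_one (show 0 < 1 / X by positivity)
    (show (4 / 5 : ℝ) < 1 by norm_num)
  refine ⟨k0, fun k hk => ?_⟩
  obtain ⟨V, i1, i2, S, h1, h2, h3, -, h5⟩ := tower e he he' k
  refine ⟨V, i1, i2, S, h1, h2, h3, fun C hC => le_trans ?_ (h5 C hC)⟩
  rw [← hX, Real.exp_le_exp, neg_le_neg_iff]
  unfold ex
  have hC' : (C.card : ℝ) ≤ 2 ^ k := by exact_mod_cast hC.le
  have a1 : (4 / 5 : ℝ) ^ k ≤ (4 / 5) ^ k0 := pow_le_pow_of_le_one (by norm_num) (by norm_num) hk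
  have a2 : X * (2 / 5) ^ k * C.card ≤ 1 := by
    have b1 : X * (2 / 5) ^ k * C.card ≤ X * (2 / 5) ^ k * 2 ^ k :=
      mul_le_mul_of_nonneg_left hC' (by positivity)
    have b2 : X * (2 / 5) ^ k * 2 ^ k = X * (4 / 5) ^ k := by
      rw [mul_assoc, ← mul_pow]; norm_num
    have b3 : X * (4 / 5) ^ k ≤ X * (1 / X) := mul_le_mul_of_nonneg_left (by linarith) hX0.le
    have b4 : X * (1 / X) = 1 := by field_simp
    linarith
  have a3 : Real.log (1 + X * (2 / 5) ^ k * C.card) ≤ 1 := by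
    have := Real.log_le_sub_one_of_pos (show 0 < 1 + X * (2 / 5) ^ k * C.card by positivity)
    linarith
  have a4 : 1 + e + e / 40 * Real.log (1 + X * (2 / 5) ^ k * C.card) ≤ 1 + 2 * e := by
    nlinarith
  calc (2 / 3 : ℝ) ^ k * C.card * (1 + e + e / 40 * Real.log (1 + X * (2 / 5) ^ k * C.card))
      ≤ (2 / 3 : ℝ) ^ k * C.card * (1 + 2 * e) := mul_le_mul_of_nonneg_left a4 (by positivity)
    _ = _ := by ring

end Pool.Agent.Lib.MP_270b52_co
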