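import Pool.Agent.Lib.MP_270b52_co.Greedy
import Pool.Agent.Lib.MP_270b52_co.Tower2

set_option autoImplicit false

namespace Pool.Agent.Lib.MP_270b52_co

open Finset

/-- A family with nearly optimal avoidance exponent. -/
def Nice (e : ℝ) (r s : ℕ) : Prop :=
  0 < r ∧ 0 < s ∧ Lin r s ((1 + 2 * e) * s / r) ∧ 14 ≤ (1 + 2 * e) * s / r * s

theorem Nice.step {e : ℝ} {r s : ℕ} (h : Nice e r s) (he : 0 ≤ e) (u : ℕ) :
    Nice e ((2 * u + 1) * r) ((u + 1) * s) := by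
  obtain ⟨h1, h2, h3, h4⟩ := h
  have hr : (0 : ℝ) < r := by exact_mod_cast h1
  have hs : (0 : ℝ) < s := by exact_mod_cast h2
  have e1 : (1 + 2 * e) * ((u + 1) * s : ℕ) / ((2 * u + 1) * r : ℕ) =
      (1 + 2 * e) * s / r * (u + 1) / (2 * u + 1) := by
    push_cast; field_simp
  refine ⟨by positivity, by positivity, ?_, ?_⟩
  · rw [e1]; exact h3.complete (by positivity) h4 u
  · rw [e1]
    refine h4.trans ?_
    have e2 : (1 + 2 * e) * s / r * (u + 1) / (2 * u + 1) * ((u + 1) * s : ℕ) =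
        (1 + 2 * e) * s / r * s * ((u + 1) * (u + 1) / (2 * u + 1)) := by
      push_cast; field_simp
    rw [e2]
    refine le_mul_of_one_le_right (by positivity) ?_
    rw [le_div_iff₀ (by positivity)]
    nlinarith [sq_nonneg (u : ℝ)]

theorem Nice.iter {e : ℝ} {r s : ℕ} (h : Nice e r s) (he : 0 ≤ e) (u i : ℕ) :
    Nice e ((2 * u + 1) ^ i * r) ((u + 1) ^ i * s) := by
  induction i with
  | zero => simpa using h
  | succ i ih =>
    have := ih.step he u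
    rwa [← mul_assoc, ← mul_assoc, ← pow_succ', ← pow_succ'] at this

theorem nice_base (e a : ℝ) (he : 0 < e) (he' : e ≤ 1 / 3) :
    ∃ k : ℕ, Nice e (3 ^ k) (2 ^ k) ∧ a ≤ (3 / 2 : ℝ) ^ k := by
  obtain ⟨k0, h0⟩ := tower_lin e he he'
  obtain ⟨k1, h1⟩ := pow_unbounded_of_one_lt (max a 14) (show (1 : ℝ) < 4 / 3 by norm_num)
  have h2 : (4 / 3 : ℝ) ^ k1 ≤ (4 / 3) ^ (k0 + k1) := pow_le_pow_right₀ (by norm_num) (by omega)
  have h3 : (4 / 3 : ℝ) ^ (k0 + k1) ≤ (3 / 2) ^ (k0 + k1) :=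
    pow_le_pow_left₀ (by norm_num) (by norm_num) _
  have m1 := le_max_left a 14
  have m2 := le_max_right a 14
  have e1 : (1 + 2 * e) * ((2 ^ (k0 + k1) : ℕ) : ℝ) / ((3 ^ (k0 + k1) : ℕ) : ℝ) =
      (1 + 2 * e) * (2 / 3) ^ (k0 + k1) := by
    push_cast; rw [div_pow, mul_div_assoc]
  refine ⟨k0 + k1, ⟨by positivity, by positivity, ?_, ?_⟩, by linarith⟩
  · rw [e1]; exact h0 _ (by omega)
  · rw [e1, mul_assoc]
    have e2 : (2 / 3 : ℝ) ^ (k0 + k1) * ((2 ^ (k0 + k1) : ℕ) : ℝ) = (4 / 3) ^ (k0 + k1) := by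
      push_cast; rw [← mul_pow]; norm_num
    rw [e2]
    nlinarith

theorem tune (β a y : ℝ) (N j0 : ℕ) (hβN : β ^ N ≤ 1 / 2) (ha : 0 < a)
    (hy : 2 ^ (N + j0) * a ≤ y) :
    ∃ i j : ℕ, i ≤ N ∧ j0 ≤ j ∧ 2 * 2 ^ j * (a * (2 * β) ^ i) ≤ y ∧
      β * y ≤ 2 * 2 ^ j * (a * (2 * β) ^ i) ∨ β ≤ 0 := by
  classical
  rcases le_or_gt β 0 with hβ | hβ
  · exact ⟨0, 0, Or.inr hβ⟩
  have h1 : (2 : ℝ) ^ (N + j0) ≤ y / a := by rw [le_div_iff₀ ha]; exact hy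
  obtain ⟨n, hn, hn'⟩ := exists_nat_pow_near ((one_le_pow₀ (by norm_num)).trans h1)
    (show (1 : ℝ) < 2 by norm_num)
  have h2 : N + j0 ≤ n := by
    have := (pow_lt_pow_iff_right₀ (show (1 : ℝ) < 2 by norm_num)).1 (h1.trans_lt hn')
    omega
  rw [le_div_iff₀ ha] at hn
  rw [div_lt_iff₀ ha] at hn'
  have hex : ∃ i : ℕ, 2 ^ (n + 1) * a * β ^ i ≤ y := by
    refine ⟨N, le_trans ?_ hn⟩
    have := mul_le_mul_of_nonneg_left hβN (show 0 ≤ 2 ^ (n + 1) * a by positivity)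
    rw [pow_succ] at this ⊢
    linarith
  have hN : Nat.find hex ≤ N := by
    refine Nat.find_min' hex (le_trans ?_ hn)
    have := mul_le_mul_of_nonneg_left hβN (show 0 ≤ 2 ^ (n + 1) * a by positivity)
    rw [pow_succ] at this ⊢
    linarith
  have hspec := Nat.find_spec hex
  have hpos : Nat.find hex ≠ 0 := by
    intro h
    rw [h] at hspec
    simp only [pow_zero, mul_one] at hspec
    linarith
  have hmin := Nat.find_min hex (m := Nat.find hex - 1) (by omega)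
  obtain ⟨i, hi⟩ : ∃ i, Nat.find hex = i + 1 := ⟨Nat.find hex - 1, by omega⟩
  rw [hi] at hN hspec hmin
  rw [Nat.add_sub_cancel] at hmin
  push Not at hmin
  obtain ⟨j, rfl⟩ : ∃ j, n = j + (i + 1) := ⟨n - (i + 1), by omega⟩
  have e1 : 2 * 2 ^ j * (a * (2 * β) ^ (i + 1)) = 2 ^ (j + (i + 1) + 1) * a * β ^ (i + 1) := by
    rw [mul_pow]; ring
  refine ⟨i + 1, j, Or.inl ⟨hN, by omega, by rw [e1]; exact hspec, ?_⟩⟩
  rw [e1]
  have := mul_le_mul_of_nonneg_left hmin.le hβ.le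
  rw [pow_succ β]
  linarith

theorem exp_le_pow (s n : ℕ) (hs : 2 ≤ s) : Real.exp n ≤ (s : ℝ) ^ (2 * n) := by
  rw [← mul_one (n : ℝ), Real.exp_nat_mul, pow_mul]
  apply pow_le_pow_left₀ (Real.exp_pos _).le
  have h1 := Real.exp_one_lt_d9
  have h2 : (2 : ℝ) ≤ s := by exact_mod_cast hs
  nlinarith

theorem core_exp (e δ α x q σ s t : ℝ) (he : 0 ≤ e) (he' : e ≤ 1 / 3) (hα : 1 ≤ α)
    (hq : 1 ≤ q) (hσ : 0 < σ) (ht : 0 ≤ t) (hx : 0 < x) (hs : (q + 1) * ((t + 1) * σ) ≤ s)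
    (h2 : x ≤ (1 + δ) ^ 3 * (2 * q * α)) :
    (1 + 2 * e) * ((t + 1) * σ) / ((2 * t + 1) * (α * σ)) * ((t + 1) * σ * (1 + 1 / q)) ≤
      (1 + 2 * e) * (1 + δ) ^ 3 * (s / x) + 2 * σ := by
  have hs0 : 0 ≤ s := le_trans (by positivity) hs
  have e1 : (1 + 2 * e) * ((t + 1) * σ) / ((2 * t + 1) * (α * σ)) * ((t + 1) * σ * (1 + 1 / q)) =
      (1 + 2 * e) * ((t + 1) * (t + 1) / (2 * t + 1)) * ((q + 1) * σ / (q * α)) := by
    field_simp
  have a1 : (t + 1) * (t + 1) / (2 * t + 1) ≤ (t + 1) / 2 + 1 / 2 := by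
    rw [div_le_iff₀ (by positivity)]; nlinarith
  have a2 : (t + 1) / 2 * ((q + 1) * σ / (q * α)) ≤ (1 + δ) ^ 3 * (s / x) := by
    have b1 : (t + 1) / 2 * ((q + 1) * σ / (q * α)) = (q + 1) * ((t + 1) * σ) / (2 * q * α) := by
      field_simp
    rw [b1, ← mul_div_assoc, div_le_div_iff₀ (by positivity) hx]
    calc (q + 1) * ((t + 1) * σ) * x ≤ s * ((1 + δ) ^ 3 * (2 * q * α)) :=
          mul_le_mul hs h2 hx.le hs0
      _ = _ := by ring
  have a3 : (q + 1) * σ / (q * α) ≤ 2 * σ := by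
    rw [div_le_iff₀ (by positivity)]
    have : q + 1 ≤ 2 * (q * α) := by nlinarith
    nlinarith
  have a4 : 0 ≤ (q + 1) * σ / (q * α) := by positivity
  have a5 := mul_le_mul_of_nonneg_right a1 a4
  rw [e1, mul_assoc, mul_assoc]
  have a6 : (t + 1) * (t + 1) / (2 * t + 1) * ((q + 1) * σ / (q * α)) ≤
      (1 + δ) ^ 3 * (s / x) + σ := by linarith
  have a7 := mul_le_mul_of_nonneg_left a6 (show 0 ≤ 1 + 2 * e by linarith)
  nlinarith

theorem core_vert (δ α x q σ s t : ℝ) (hδ : 0 ≤ δ) (hα : 1 ≤ δ * α) (hα1 : 1 ≤ α)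
    (hq : 1 ≤ δ * q) (hq1 : 1 ≤ q) (hσ : 0 < σ) (ht : 0 ≤ t)
    (hs : (q + 1) * ((t + 1) * σ) ≤ s) (h1 : (1 + δ) ^ 2 * (2 * q * α) ≤ x) :
    (q ^ 2 + q + 1) * ((2 * t + 1) * (α * σ)) + (q + 1) * (s + σ) ≤ x * s := by
  have hs0 : 0 ≤ s := le_trans (by positivity) hs
  have a0 : σ ≤ s := by
    refine le_trans ?_ hs
    have : 1 ≤ (q + 1) * (t + 1) := by nlinarith
    nlinarith
  have a1 : (q ^ 2 + q + 1) * ((2 * t + 1) * (α * σ)) ≤
      ((q + 1) * (q + 1)) * ((2 * (t + 1)) * (α * σ)) := by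
    refine mul_le_mul (by nlinarith) ?_ (by positivity) (by positivity)
    exact mul_le_mul_of_nonneg_right (by linarith) (by positivity)
  have a2 : ((q + 1) * (q + 1)) * ((2 * (t + 1)) * (α * σ)) =
      (2 * (q + 1) * α) * ((q + 1) * ((t + 1) * σ)) := by ring
  have a3 := mul_le_mul_of_nonneg_left hs (show 0 ≤ 2 * (q + 1) * α by positivity)
  have a4 : (q + 1) * (s + σ) ≤ (q + 1) * (2 * s) :=
    mul_le_mul_of_nonneg_left (by linarith) (by positivity)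
  have a5 : (q + 1) * (α + 1) ≤ ((1 + δ) * q) * ((1 + δ) * α) :=
    mul_le_mul (by linarith) (by linarith) (by positivity) (by positivity)
  have a6 : 2 * ((q + 1) * (α + 1)) ≤ x := by nlinarith
  have a7 := mul_le_mul_of_nonneg_right a6 hs0
  nlinarith

theorem core_count (s σ q R : ℕ) (E T : ℝ) (hs : 2 ≤ s) (hq : q + 1 ≤ s) (hσ : σ ≤ s)
    (hR : R ≤ s * s) (hT : 0 ≤ T) (hE : E ≤ T + 2 * σ) :
    ((q : ℝ) ^ 2 + q + 1 + ((q + 1 : ℕ) : ℝ) * ((s + σ : ℕ) : ℝ) ^ σ) * (s : ℝ) ^ σ /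
      Real.exp (-E) * (R + 1) + 1 ≤ (s : ℝ) ^ (7 * σ + 7) * Real.exp T := by
  have a1 : q ^ 2 + q + 1 + (q + 1) * (s + σ) ^ σ ≤ s ^ (2 * σ + 3) := by
    have b1 : (s + σ) ^ σ ≤ s ^ (2 * σ) := by
      rw [pow_mul]; exact Nat.pow_le_pow_left (by nlinarith) _
    have b2 : 1 ≤ s ^ (2 * σ) := Nat.one_le_pow _ _ (by omega)
    have b3 : q ^ 2 + q + 1 ≤ s * s := by nlinarith
    have b4 : (q + 1) * (s + σ) ^ σ ≤ s * s ^ (2 * σ) := Nat.mul_le_mul hq b1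
    have b5 : s ^ (2 * σ + 3) = s * s * s * s ^ (2 * σ) := by ring
    have b6 : s * s ≤ s * s * s ^ (2 * σ) := Nat.le_mul_of_pos_right _ b2
    have b7 : (s * s + s) * s ^ (2 * σ) ≤ s * s * s * s ^ (2 * σ) :=
      Nat.mul_le_mul_right _ (by nlinarith)
    rw [b5]
    nlinarith
  have a2 : R + 1 ≤ s ^ 3 := by
    have : s ^ 3 = s * s * s := by ring
    nlinarith
  have a1' : (q : ℝ) ^ 2 + q + 1 + ((q + 1 : ℕ) : ℝ) * ((s + σ : ℕ) : ℝ) ^ σ ≤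
      (s : ℝ) ^ (2 * σ + 3) := by exact_mod_cast a1
  have a2' : (R : ℝ) + 1 ≤ (s : ℝ) ^ 3 := by exact_mod_cast a2
  have a3 : Real.exp E ≤ (s : ℝ) ^ (4 * σ) * Real.exp T := by
    have b1 := exp_le_pow s (2 * σ) hs
    have b2 : Real.exp E ≤ Real.exp ((2 * σ : ℕ) : ℝ) * Real.exp T := by
      rw [← Real.exp_add, Real.exp_le_exp]; push_cast; linarith
    rw [← mul_assoc] at b1
    exact b2.trans (mul_le_mul_of_nonneg_right b1 (Real.exp_pos _).le)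
  have hs2 : (2 : ℝ) ≤ s := by exact_mod_cast hs
  rw [Real.exp_neg, div_inv_eq_mul]
  have a4 : ((q : ℝ) ^ 2 + q + 1 + ((q + 1 : ℕ) : ℝ) * ((s + σ : ℕ) : ℝ) ^ σ) * (s : ℝ) ^ σ *
      Real.exp E * (R + 1) ≤
      (s : ℝ) ^ (2 * σ + 3) * (s : ℝ) ^ σ * ((s : ℝ) ^ (4 * σ) * Real.exp T) * (s : ℝ) ^ 3 := by
    refine mul_le_mul (mul_le_mul (mul_le_mul_of_nonneg_right a1' (by positivity)) a3
      (by positivity) (by positivity)) a2' (by positivity) (by positivity)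
  have a5 : (s : ℝ) ^ (2 * σ + 3) * (s : ℝ) ^ σ * ((s : ℝ) ^ (4 * σ) * Real.exp T) * (s : ℝ) ^ 3 =
      (s : ℝ) ^ (7 * σ + 6) * Real.exp T := by ring
  have a6 : 1 ≤ (s : ℝ) ^ (7 * σ + 6) * Real.exp T :=
    one_le_mul_of_one_le_of_one_le (one_le_pow₀ (by linarith)) (Real.one_le_exp hT)
  have a7 : (s : ℝ) ^ (7 * σ + 7) * Real.exp T = s * ((s : ℝ) ^ (7 * σ + 6) * Real.exp T) := by
    ring
  rw [a7]
  rw [a5] at a4
  nlinarith

theorem core1 (e δ α x : ℝ) (R σ q j s r : ℕ) (he : 0 ≤ e) (he' : e ≤ 1 / 3) (hδ : 0 ≤ δ)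
    (hN : Nice e R σ) (hR : (R : ℝ) = α * σ) (hα : 1 ≤ δ * α) (hα1 : 1 ≤ α) (hq : 1 ≤ δ * q)
    (hj : 1 ≤ j) (hqj : q = 2 ^ j) (h1 : (1 + δ) ^ 2 * (2 * q * α) ≤ x)
    (h2 : x ≤ (1 + δ) ^ 3 * (2 * q * α)) (hxs : x * σ ≤ s) (hxr : x * s ≤ r) (hs : 2 ≤ s) :
    ∃ H, Fam r s H ∧ (H.card : ℝ) ≤
      (s : ℝ) ^ (7 * σ + 7) * Real.exp ((1 + 2 * e) * (1 + δ) ^ 3 * (s / x)) := by
  have hσ : 0 < σ := hN.2.1
  have hσ' : (1 : ℝ) ≤ σ := by exact_mod_cast hσ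
  have hq0 : 1 ≤ q := by rw [hqj]; exact Nat.one_le_two_pow
  have hq1 : (1 : ℝ) ≤ q := by exact_mod_cast hq0
  have hqx : (q : ℝ) + 1 ≤ x := by
    have b1 : 1 ≤ (1 + δ) ^ 2 := one_le_pow₀ (by linarith)
    have b2 : (q : ℝ) + 1 ≤ 2 * q * α := by nlinarith
    nlinarith
  have hx0 : 0 < x := by linarith
  have hqs : (q + 1) * σ ≤ s := by
    have : ((q : ℝ) + 1) * σ ≤ s := (mul_le_mul_of_nonneg_right hqx (by positivity)).trans hxs
    exact_mod_cast this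
  have hpos : 0 < (q + 1) * σ := by positivity
  obtain ⟨t, ht⟩ : ∃ t, s / ((q + 1) * σ) = t + 1 :=
    ⟨s / ((q + 1) * σ) - 1, by have := Nat.div_pos hqs hpos; omega⟩
  have hdm := Nat.div_add_mod s ((q + 1) * σ)
  have hD := Nat.mod_lt s hpos
  obtain ⟨D, hDd⟩ : ∃ D, D = s % ((q + 1) * σ) := ⟨_, rfl⟩
  rw [ht, ← hDd] at hdm
  rw [← hDd] at hD
  have hsum : (q + 1) * ((t + 1) * σ) + D = s := by rw [← hdm]; ring
  have hN2 := hN.step he t
  have G1 := hN2.2.2.1.plane (by positivity) σ j q hj hqj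
  have G2 := Good.steps (Real.exp_pos _).le (by rw [Real.exp_le_one_iff]; simp; positivity)
    (q + 1) G1 (Nat.mul_pos (by omega) (by positivity)) D hD.le
  rw [hsum] at G2
  have hle : ((q : ℝ) + 1) * (((t : ℝ) + 1) * σ) ≤ s := by
    have : (q + 1) * ((t + 1) * σ) ≤ s := by omega
    exact_mod_cast this
  have V := core_vert δ α x q σ s t hδ hα hα1 hq hq1 (by linarith) (Nat.cast_nonneg _) hle h1
  have V2 : (((q ^ 2 + q + 1) * ((2 * t + 1) * R) + (q + 1) * (s + σ) : ℕ) : ℝ) ≤ x * s := by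
    push_cast; rw [hR]; exact V
  obtain ⟨H, f1, f2⟩ := G2.fam (r' := r) (by omega) (Real.exp_pos _)
    (by exact_mod_cast V2.trans hxr)
  refine ⟨H, f1, f2.trans ?_⟩
  refine core_count s σ q _ _ _ hs (by nlinarith) (by nlinarith) ?_ (by positivity) ?_
  · have b1 : x ≤ s := le_trans (by nlinarith) hxs
    have b2 : x * s ≤ s * s := mul_le_mul_of_nonneg_right b1 (Nat.cast_nonneg _)
    exact_mod_cast V2.trans b2
  · have := core_exp e δ α x q σ s t he he' hα1 hq1 (by linarith) (Nat.cast_nonneg _) hx0 hle h2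
    push_cast
    rw [hR]
    exact this

theorem core2 (ε : ℝ) (hε : 0 < ε) :
    ∃ K S : ℕ, 0 < K ∧ 0 < S ∧ ∀ (x : ℝ) (r s : ℕ), (K : ℝ) ≤ x → x * S ≤ s → x * s ≤ r → 2 ≤ s →
      ∃ H, Fam r s H ∧ (H.card : ℝ) ≤ (s : ℝ) ^ (7 * S + 7) * Real.exp ((1 + ε) * (s / x)) := by
  obtain ⟨δ, hδ⟩ : ∃ δ : ℝ, δ = min ε 1 / 20 := ⟨_, rfl⟩
  have m1 := min_le_left ε 1
  have m2 := min_le_right ε 1
  have hδ0 : 0 < δ := by rw [hδ]; have := lt_min hε one_pos; positivity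
  have hδ1 : δ ≤ 1 / 20 := by rw [hδ]; linarith
  have hδ2 : 20 * δ ≤ ε := by rw [hδ]; linarith
  have hfac : (1 + 2 * δ) * (1 + δ) ^ 3 ≤ 1 + ε := by
    have b1 : (1 + δ) ^ 3 ≤ 1 + 4 * δ := by nlinarith [sq_nonneg δ, mul_pos hδ0 hδ0]
    nlinarith
  obtain ⟨k, hk, hk'⟩ := nice_base δ (1 / δ) hδ0 (by linarith)
  obtain ⟨u, hu⟩ := exists_nat_ge (1 / δ)
  obtain ⟨β, hβ⟩ : ∃ β : ℝ, β = (2 * u + 1) / (2 * u + 2) := ⟨_, rfl⟩
  have hβ0 : 0 < β := by rw [hβ]; positivity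
  have hβ1 : β < 1 := by rw [hβ, div_lt_one (by positivity)]; linarith
  have hβ2 : 1 ≤ 2 * β := by
    rw [hβ, ← mul_div_assoc, le_div_iff₀ (by positivity)]
    linarith [(Nat.cast_nonneg u : (0 : ℝ) ≤ u)]
  have hu' : 1 ≤ δ * u := by rw [div_le_iff₀ hδ0] at hu; linarith
  have hβ3 : 1 ≤ (1 + δ) * β := by
    rw [hβ, ← mul_div_assoc, le_div_iff₀ (by positivity)]
    nlinarith
  obtain ⟨N, hN⟩ := exists_pow_lt_of_lt_one (show (0 : ℝ) < 1 / 2 by norm_num) hβ1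
  obtain ⟨K, hK⟩ := exists_nat_ge ((1 + δ) ^ 2 * (2 ^ (N + (u + 1)) * (3 / 2 : ℝ) ^ k))
  have hd2 : 0 < (1 + δ) ^ 2 := by positivity
  refine ⟨K + 1, (u + 1) ^ N * 2 ^ k, by omega, by positivity, fun x r s hx hxS hxr hs => ?_⟩
  push_cast at hx
  have hx0 : 0 < x := by linarith [(Nat.cast_nonneg K : (0 : ℝ) ≤ K)]
  obtain ⟨i, j, hij⟩ := tune β ((3 / 2) ^ k) (x / (1 + δ) ^ 2) N (u + 1) hN.le (by positivity)
    (by rw [le_div_iff₀ hd2]; linarith)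
  obtain ⟨hi, hj, t1, t2⟩ := hij.resolve_right (by linarith)
  have hα0 : (3 / 2 : ℝ) ^ k ≤ (3 / 2) ^ k * (2 * β) ^ i :=
    le_mul_of_one_le_right (by positivity) (one_le_pow₀ hβ2)
  have hα1 : (1 : ℝ) ≤ (3 / 2) ^ k := one_le_pow₀ (by norm_num)
  have hσ : (u + 1) ^ i * 2 ^ k ≤ (u + 1) ^ N * 2 ^ k :=
    Nat.mul_le_mul_right _ (Nat.pow_le_pow_right (by omega) hi)
  obtain ⟨H, f1, f2⟩ := core1 δ δ ((3 / 2) ^ k * (2 * β) ^ i) x _ _ (2 ^ j) j s r hδ0.le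
    (by linarith) hδ0.le (hk.iter hδ0.le u i)
    (by
      have b1 : 2 * β = (2 * u + 1) / (u + 1) := by rw [hβ]; field_simp
      push_cast
      rw [b1, div_pow, div_pow]
      field_simp)
    (by
      rw [div_le_iff₀ hδ0] at hk'
      nlinarith)
    (by linarith)
    (by
      have b1 : u ≤ 2 ^ j := le_trans (by omega) (Nat.lt_two_pow_self (n := j)).le
      have b2 : (u : ℝ) ≤ ((2 ^ j : ℕ) : ℝ) := by exact_mod_cast b1
      nlinarith)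
    (by omega) rfl
    (by
      rw [le_div_iff₀ hd2] at t1
      push_cast
      linarith)
    (by
      rw [← mul_div_assoc, div_le_iff₀ hd2] at t2
      have b1 := mul_le_mul_of_nonneg_left t2 (show 0 ≤ 1 + δ by linarith)
      have b2 := mul_le_mul_of_nonneg_right hβ3 hx0.le
      push_cast
      nlinarith)
    (by
      refine le_trans (mul_le_mul_of_nonneg_left ?_ hx0.le) hxS
      exact_mod_cast hσ)
    hxr hs
  refine ⟨H, f1, f2.trans (mul_le_mul ?_ ?_ (by positivity) (by positivity))⟩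
  · exact pow_le_pow_right₀ (by exact_mod_cast (by omega : 1 ≤ s)) (by omega)
  · rw [Real.exp_le_exp]
    exact mul_le_mul_of_nonneg_right hfac (by positivity)

theorem sharp (ε : ℝ) (hε : 0 < ε) :
    ∃ K : ℕ, 0 < K ∧ ∀ r s : ℕ, 2 ≤ s → 2 * s - 1 ≤ r → K * s ≤ r →
      ∃ H, Fam r s H ∧ (H.card : ℝ) ≤ (s : ℝ) ^ K * Real.exp ((1 + ε) * s ^ 2 / r) := by
  obtain ⟨K, S, hK, hS, h⟩ := core2 ε hε
  obtain ⟨n, hn⟩ := exists_nat_ge ((1 + ε) * S)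
  refine ⟨K + (7 * S + 7) + 2 * n + 2 * (K * S), by omega, fun r s hs hr hKr => ?_⟩
  have hs0 : (0 : ℝ) < s := by exact_mod_cast (by omega : 0 < s)
  have hs1 : (1 : ℝ) ≤ s := by exact_mod_cast (by omega : 1 ≤ s)
  have hS0 : (0 : ℝ) < S := by exact_mod_cast hS
  have hr0 : (0 : ℝ) < r := by exact_mod_cast (by omega : 0 < r)
  have hE : 1 ≤ Real.exp ((1 + ε) * s ^ 2 / r) := Real.one_le_exp (by positivity)
  rcases le_or_gt (r * S) (s * s) with h1 | h1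
  · obtain ⟨H, f1, f2⟩ := h (r / s) r s
      (by
        rw [le_div_iff₀ hs0]
        have : K * s ≤ r := le_trans (Nat.mul_le_mul_right _ (by omega)) hKr
        exact_mod_cast this)
      (by rw [div_mul_eq_mul_div, div_le_iff₀ hs0]; exact_mod_cast h1)
      (by rw [div_mul_cancel₀ _ hs0.ne']) hs
    refine ⟨H, f1, f2.trans (mul_le_mul ?_ (le_of_eq ?_) (by positivity) (by positivity))⟩
    · exact pow_le_pow_right₀ hs1 (by omega)
    · congr 1; field_simp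
  rcases le_or_gt (K * S) s with h2 | h2
  · obtain ⟨H, f1, f2⟩ := h (s / S) r s
      (by rw [le_div_iff₀ hS0]; exact_mod_cast h2)
      (by rw [div_mul_cancel₀ _ hS0.ne'])
      (by rw [div_mul_eq_mul_div, div_le_iff₀ hS0]; exact_mod_cast h1.le) hs
    refine ⟨H, f1, f2.trans (le_trans ?_ (le_mul_of_one_le_right (by positivity) hE))⟩
    have b1 : (s : ℝ) / (s / S) = S := by field_simp
    have b2 : Real.exp ((1 + ε) * S) ≤ (s : ℝ) ^ (2 * n) :=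
      (Real.exp_le_exp.2 hn).trans (exp_le_pow s n hs)
    rw [b1]
    calc (s : ℝ) ^ (7 * S + 7) * Real.exp ((1 + ε) * S) ≤ (s : ℝ) ^ (7 * S + 7) * s ^ (2 * n) :=
          mul_le_mul_of_nonneg_left b2 (by positivity)
      _ = (s : ℝ) ^ (7 * S + 7 + 2 * n) := by rw [← pow_add]
      _ ≤ _ := pow_le_pow_right₀ hs1 (by omega)
  · obtain ⟨H, f1, f2⟩ := fam_complete (by omega) hr
    refine ⟨H, f1, le_trans ?_ (le_mul_of_one_le_right (by positivity) hE)⟩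
    have b1 : 4 ^ s ≤ s ^ (K + (7 * S + 7) + 2 * n + 2 * (K * S)) := by
      calc 4 ^ s = 2 ^ (2 * s) := by rw [pow_mul]; norm_num
        _ ≤ s ^ (2 * s) := Nat.pow_le_pow_left hs _
        _ ≤ _ := Nat.pow_le_pow_right (by omega) (by omega)
    exact_mod_cast f2.trans b1

theorem log_bound (ε : ℝ) (hε : 0 < ε) :
    ∃ K : ℝ, ∀ r s n : ℕ, 2 ≤ s → 2 * s - 1 ≤ r → (∃ H, Fam r s H ∧ H.card = n) →
      (∀ H, Fam r s H → n ≤ H.card) →
      |Real.log n - (s : ℝ) ^ 2 / r| ≤ (ε + K * s / r) * ((s : ℝ) ^ 2 / r) + K * Real.log s := by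
  obtain ⟨K, hK, h⟩ := sharp ε hε
  refine ⟨2 * (K : ℝ) ^ 2, fun r s n hs hr ⟨G, g1, g2⟩ hn => ?_⟩
  have hs2 : (2 : ℝ) ≤ s := by exact_mod_cast hs
  have hr0 : (0 : ℝ) < r := by exact_mod_cast (by omega : 0 < r)
  have hsr : (s : ℝ) ≤ r := by exact_mod_cast (by omega : s ≤ r)
  have hK1 : (1 : ℝ) ≤ K := by exact_mod_cast hK
  have hlog : 1 / 2 ≤ Real.log s := by
    have := Real.log_two_gt_d9
    have := Real.log_le_log (by norm_num) hs2
    linarith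
  have low := fam_lower hs hr G g1 1 le_rfl (by omega)
  rw [g2] at low
  have low' : Real.exp (s * (s - 1) / r) ≤ n := by
    push_cast at low; linarith
  have hn0 : (0 : ℝ) < n := (Real.exp_pos _).trans_le low'
  have p1 : 0 ≤ ε * ((s : ℝ) ^ 2 / r) := by positivity
  have p2 : 0 ≤ 2 * (K : ℝ) ^ 2 * s / r * ((s : ℝ) ^ 2 / r) := by positivity
  have p3 : (K : ℝ) * Real.log s ≤ 2 * (K : ℝ) ^ 2 * Real.log s :=
    mul_le_mul_of_nonneg_right (by nlinarith) (by linarith)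
  have p4 : 2 * Real.log s ≤ 2 * (K : ℝ) ^ 2 * Real.log s :=
    mul_le_mul_of_nonneg_right (by nlinarith) (by linarith)
  have p5 : 0 ≤ (s : ℝ) ^ 2 / r := by positivity
  rw [abs_le, add_mul]
  constructor
  · rw [← Real.le_log_iff_exp_le hn0] at low'
    have b1 : (s : ℝ) * (s - 1) / r = s ^ 2 / r - s / r := by ring
    have b2 : (s : ℝ) / r ≤ 1 := by rw [div_le_one hr0]; exact hsr
    linarith
  rcases le_or_gt (K * s) r with h1 | h1
  · obtain ⟨H, f1, f2⟩ := h r s hs hr h1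
    have b1 : (n : ℝ) ≤ H.card := by exact_mod_cast hn H f1
    have b2 := Real.log_le_log hn0 (b1.trans f2)
    rw [Real.log_mul (by positivity) (by positivity), Real.log_exp, Real.log_pow] at b2
    have b3 : (1 + ε) * (s : ℝ) ^ 2 / r = s ^ 2 / r + ε * (s ^ 2 / r) := by ring
    linarith
  · obtain ⟨H, f1, f2⟩ := fam_complete (by omega) hr
    have b1 : (n : ℝ) ≤ 4 ^ s := by exact_mod_cast (hn H f1).trans f2
    have b2 : (4 : ℝ) ^ s ≤ Real.exp (s * 2) := by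
      rw [Real.exp_nat_mul]
      apply pow_le_pow_left₀ (by norm_num)
      have c1 := Real.add_one_le_exp (1 : ℝ)
      have c2 : Real.exp 2 = Real.exp 1 * Real.exp 1 := by rw [← Real.exp_add]; norm_num
      nlinarith
    have b3 := (Real.log_le_iff_le_exp hn0).2 (b1.trans b2)
    have b4 : 1 ≤ (K : ℝ) * s / r := by
      rw [le_div_iff₀ hr0, one_mul]; exact_mod_cast h1.le
    have b5 : 2 * (K : ℝ) ^ 2 * s / r * ((s : ℝ) ^ 2 / r) = 2 * s * (K * s / r) ^ 2 := by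
      field_simp
    have b6 : 2 * (s : ℝ) ≤ 2 * s * (K * s / r) ^ 2 :=
      le_mul_of_one_le_right (by positivity) (one_le_pow₀ b4)
    linarith

end Pool.Agent.Lib.MP_270b52_co
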