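import Pool.Agent.Lib.MP_270b52_co.KnD
import Pool.Agent.Lib.MP_270b52_co.Main

namespace Pool.Agent.Lib.MP_270b52_co.Kn

open Finset Real

lemma exp_six : exp 6 ≤ 729 := by
  have h := exp_one_lt_three.le
  have : exp 6 = exp 1 ^ 6 := by rw [← exp_nat_mul]; norm_num
  rw [this]
  exact (pow_le_pow_left₀ (exp_pos 1).le h 6).trans (by norm_num)

lemma c2_bound (n : ℕ) (h : 17 ≤ n) : (2 : ℝ) ^ (n + 4) ≤ (1 + 1 / (n : ℝ) ^ 2) ^ (n ^ 4) := by
  have hx : (0 : ℝ) < n := by exact_mod_cast (by omega : 0 < n)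
  have h1 := one_add_mul_le_pow (a := 1 / (n : ℝ) ^ 2)
    (le_trans (by norm_num) (by positivity : (0 : ℝ) ≤ 1 / (n : ℝ) ^ 2)) (n ^ 2)
  rw [Nat.cast_pow, mul_one_div_cancel (by positivity), one_add_one_eq_two] at h1
  rw [show n ^ 4 = n ^ 2 * n ^ 2 by ring, pow_mul]
  exact (pow_le_pow_right₀ one_le_two (by nlinarith)).trans (pow_le_pow_left₀ zero_le_two h1 _)

theorem mid (n s d : ℕ) (μ Λ D DT L : ℝ) (h17 : 17 ≤ n) (h2 : 2 ≤ s) (hsn : 2 * s ≤ n) (hd : d ≤ n)
    (hD : D = (n - s).choose s) (hDT : DT = (n - (s - 1)).choose s) (hL : L = log (n.choose s))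
    (hμ0 : 0 ≤ μ) (hμ : μ ≤ 1 / 2) (hΛ : 0 < Λ)
    (hN : (n : ℝ) ^ 7 * D ≤ n.choose s) (hCd : ((n - (s + d)).choose s : ℝ) * n ^ 12 ≤ D)
    (hA : (n : ℝ) ^ 33 * Λ * exp (L * D / DT) ≤ D)
    (hB : (n : ℝ) ^ 20 * ((s : ℝ) * n) ^ (5 * d) * exp (μ * (L * D / DT)) ≤ D)
    (hC : ∀ j ≤ 2 * d, ((s : ℝ) * n) ^ j ≤ Λ * exp (μ * L * (D - (n - (s + j)).choose s) / DT)) :
    ∃ H, Fam n s H ∧ (H.card : ℝ) ≤ (L + 6) * (n.choose s / DT) := by
  obtain ⟨N, hN'⟩ : ∃ N : ℝ, N = n.choose s := ⟨_, rfl⟩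
  obtain ⟨x, hx'⟩ : ∃ x : ℝ, x = n := ⟨_, rfl⟩
  rw [← hN'] at hL hN ⊢
  have hx : 17 ≤ x := by rw [hx']; exact_mod_cast h17
  have hx0 : 0 < x := by linarith
  have hsx : (s : ℝ) ≤ x := by rw [hx']; exact_mod_cast (by omega)
  have hdx : (d : ℝ) ≤ x := by rw [hx']; exact_mod_cast hd
  have D1 : 1 ≤ D := by rw [hD]; exact_mod_cast Nat.choose_pos (by omega)
  have D2 : D ≤ DT := by rw [hD, hDT]; exact_mod_cast Nat.choose_le_choose _ (by omega)
  have D3 : DT ≤ N := by rw [hN', hDT]; exact_mod_cast Nat.choose_le_choose _ (by omega)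
  have D4 : DT ≤ x * D := by
    rw [hD, hDT, hx']
    have := Nat.choose_mul_succ_eq (n - s) s
    rw [show n - s + 1 = n - (s - 1) by omega] at this
    have a1 : (n - (s - 1)).choose s * 1 ≤ (n - (s - 1)).choose s * (n - (s - 1) - s) :=
      Nat.mul_le_mul_left _ (by omega)
    have a2 : (n - s).choose s * (n - (s - 1)) ≤ (n - s).choose s * n :=
      Nat.mul_le_mul_left _ (by omega)
    exact_mod_cast (by linarith only [a1, a2, this] : (n - (s - 1)).choose s ≤ n * (n - s).choose s)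
  have D0 : 0 < D := by linarith
  have DT0 : 0 < DT := by linarith
  have N0 : 0 < N := by linarith
  have L0 : 0 ≤ L := by rw [hL]; exact log_nonneg (by linarith)
  have L1 : L + 5 ≤ x := by
    have a1 : N ≤ 2 ^ n := by rw [hN']; exact_mod_cast Nat.choose_le_two_pow n s
    have a2 := log_le_log N0 a1
    rw [log_pow, ← hx', ← hL] at a2
    nlinarith only [log_two_lt_d9, a2, hx]
  obtain ⟨l, hl⟩ : ∃ l, l = L * D / DT := ⟨_, rfl⟩
  rw [← hl] at hA hB
  have l0 : 0 ≤ l := by rw [hl]; positivity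
  have l1 : l ≤ L := by rw [hl, div_le_iff₀ DT0]; exact mul_le_mul_of_nonneg_left D2 L0
  obtain ⟨y, hy⟩ : ∃ y, y = 1 / x ^ 2 := ⟨_, rfl⟩
  have y0 : 0 < y := by rw [hy]; positivity
  have y1 : x ^ 2 * y = 1 := by rw [hy]; field_simp
  have y2 : x * y ≤ 1 / 17 := by nlinarith only [mul_pos hx0 y0, y1, hx]
  have y3 : y ≤ 1 / 289 := by nlinarith only [y2, hx, y0]
  obtain ⟨E, hE⟩ : ∃ E, E = D / x ^ 12 := ⟨_, rfl⟩
  have E0 : 0 < E := by rw [hE]; positivity
  have E1 : E * x ^ 12 = D := by rw [hE]; field_simp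
  have xp : ∀ a b : ℕ, a ≤ b → x ^ a ≤ x ^ b := fun a b h => pow_le_pow_right₀ (by linarith) h
  have x3 : 4913 ≤ x ^ 3 := le_trans (by norm_num) (pow_le_pow_left₀ (by norm_num) hx 3)
  have E2 : 2 * E ≤ y * D := by
    have a1 : y * D = E * x ^ 10 * (x ^ 2 * y) := by rw [← E1]; ring
    rw [a1, y1, mul_one]
    nlinarith only [xp 3 10 (by norm_num), x3, E0]
  let c : ℕ → ℝ := fun j => (1 + y) * ((n - j).choose s : ℝ) + 2 * E
  have hc : ∀ j, c j = (1 + y) * ((n - j).choose s : ℝ) + 2 * E := fun _ => rfl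
  have c0 : ∀ j, 0 < c j := fun j => by rw [hc]; positivity
  obtain ⟨A, hA'⟩ : ∃ A, A = c 0 := ⟨_, rfl⟩
  have A0 : 0 < A := hA' ▸ c0 0
  have A1 : N ≤ A ∧ A ≤ (1 + 2 * y) * N := by
    rw [hA', hc, Nat.sub_zero, ← hN']
    constructor <;> nlinarith only [mul_pos y0 N0, E0, E2, D2, D3, y0]
  have cs : c s ≤ (1 + 2 * y) * D := by rw [hc, ← hD]; linarith
  have cs1 : c (s - 1) ≤ 2 * DT := by rw [hc, ← hDT]; nlinarith only [E2, D2, y0, y3, DT0]
  have csd : c (s + d) ≤ 4 * E := by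
    rw [← hx', ← E1] at hCd
    have := le_of_mul_le_mul_right hCd (pow_pos hx0 12)
    rw [hc]; nlinarith only [this, y0, y3, E0]
  have ADT : 1 ≤ A / DT := (one_le_div DT0).2 (by linarith)
  obtain ⟨t, ht⟩ : ∃ t : ℕ, t = ⌈(L + 4) * (A / DT)⌉₊ := ⟨_, rfl⟩
  obtain ⟨t₀, ht₀⟩ : ∃ t : ℕ, t = ⌈μ * L * (A / DT)⌉₊ := ⟨_, rfl⟩
  have t1 : (L + 4) * (A / DT) ≤ t := ht ▸ Nat.le_ceil _
  have t2 : (t : ℝ) ≤ (L + 4) * (A / DT) + 1 := ht ▸ (Nat.ceil_lt_add_one (by positivity)).le
  have t3 : μ * L * (A / DT) ≤ t₀ := ht₀ ▸ Nat.le_ceil _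
  have t4 : (t₀ : ℝ) ≤ μ * L * (A / DT) + 1 := ht₀ ▸ (Nat.ceil_lt_add_one (by positivity)).le
  have t0 : (0 : ℝ) < t := lt_of_lt_of_le (by positivity) t1
  have gb : ∀ (u a : ℝ) (j : ℕ), u ≤ a * (A / DT) + 1 →
      u * (c j / c 0) ≤ (a + 1) * (c j / DT) := fun u a j hu => by
    have a1 : u ≤ (a + 1) * (A / DT) := by linarith
    refine (mul_le_mul_of_nonneg_right a1 (div_pos (c0 j) (c0 0)).le).trans (le_of_eq ?_)
    rw [← hA']; field_simp
  have gs : ∀ u a : ℝ, 0 ≤ a → a ≤ L + 4 → u ≤ a * (A / DT) + 1 →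
      u * gg c (1 + 2 * y) s ≤ a * D / DT + 2 := fun u a a0 a1 hu => by
    have b1 := mul_le_mul_of_nonneg_left (gb u a s hu) (show 0 ≤ 1 + 2 * y by linarith)
    have b2 : c s / DT ≤ (1 + 2 * y) * (D / DT) := by
      rw [← mul_div_assoc]; exact div_le_div_of_nonneg_right cs DT0.le
    have b3 := mul_le_mul_of_nonneg_left b2 (show 0 ≤ (1 + 2 * y) * (a + 1) by positivity)
    have b4 : D / DT ≤ 1 := (div_le_one DT0).2 D2
    have b5 : 0 ≤ D / DT := by positivity
    have b6 : (a + 1) * (D / DT) ≤ x := by nlinarith only [b4, a0, a1, L1]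
    have b7 : (1 + 2 * y) * (1 + 2 * y) ≤ 1 + 5 * y := by nlinarith only [y0, y3]
    have b8 := mul_le_mul_of_nonneg_right b7 (show 0 ≤ (a + 1) * (D / DT) by positivity)
    have b9 := mul_le_mul_of_nonneg_left b6 y0.le
    rw [mul_div_assoc]
    unfold gg
    linarith only [b1, b3, b4, b8, b9, y2]
  have g1 : t * gg c (1 + 2 * y) s ≤ l + 6 := by
    have := gs t (L + 4) (by linarith) le_rfl t2
    have b4 : D / DT ≤ 1 := (div_le_one DT0).2 D2
    rw [add_mul, add_div, ← hl, mul_div_assoc] at this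
    linarith
  have g2 : t₀ * gg c (1 + 2 * y) s ≤ μ * l + 2 := by
    have := gs t₀ (μ * L) (by positivity) (by nlinarith only [hμ, L0]) t4
    rw [hl]; convert this using 2; ring
  have EDT : E / DT * x ^ 12 ≤ 1 := by
    rw [div_mul_eq_mul_div, E1]; exact (div_le_one DT0).2 D2
  have EDT0 : 0 ≤ E / DT := by positivity
  have g3 : t * gg c (1 + 2 * y) (s + d) ≤ 8 * x * (E / DT) := by
    have b1 := mul_le_mul_of_nonneg_left (gb t (L + 4) (s + d) t2) (show 0 ≤ 1 + 2 * y by linarith)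
    have b2 : c (s + d) / DT ≤ 4 * (E / DT) := by
      rw [← mul_div_assoc]; exact div_le_div_of_nonneg_right csd DT0.le
    have b3 : (1 + 2 * y) * (L + 4 + 1) ≤ 2 * x := by nlinarith only [y0, y3, L1, L0]
    have b4 := mul_le_mul b3 b2 (div_pos (c0 _) DT0).le (by positivity)
    unfold gg
    linarith only [b1, b4]
  have g4 : t * (c (s - 1) / c 0) ≤ 2 * x := by
    have b2 : c (s - 1) / DT ≤ 2 := by rwa [div_le_iff₀ DT0]
    have := mul_le_mul (show L + 4 + 1 ≤ x by linarith) b2 (div_pos (c0 _) DT0).le hx0.le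
    linarith [gb t (L + 4) (s - 1) t2]
  have g5 : t * (E / A) ≤ x * (E / DT) := by
    have a1 : (t : ℝ) ≤ x * (A / DT) := by nlinarith only [t2, L1, ADT]
    refine (mul_le_mul_of_nonneg_right a1 (by positivity)).trans (le_of_eq ?_)
    field_simp
  have hOk : Ok s (n ^ 4) c (1 + 2 * y) := by
    refine ⟨fun i j hij => ?_, c0, by omega, Nat.one_le_pow _ _ (by omega), by linarith, ?_⟩
    · rw [hc, hc]
      have : ((n - j).choose s : ℝ) ≤ (n - i).choose s := by
        exact_mod_cast Nat.choose_le_choose _ (by omega)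
      nlinarith only [this, y0]
    · rw [Nat.cast_pow, ← hx', ← hA']
      rw [← hx'] at hN
      have a1 : x ^ 7 * (c s / A) ≤ 2 := by
        rw [← mul_div_assoc, div_le_iff₀ A0]
        have := mul_le_mul_of_nonneg_left (cs.trans (show _ ≤ 2 * D by nlinarith only [y3, D0])) (pow_pos hx0 7).le
        linarith
      have a2 : x ^ 4 * (c s / A) = x ^ 7 * (c s / A) * y / x := by
        rw [hy]; field_simp
      have a3 : x ^ 4 * (c s / A) ≤ y / 8 := by
        rw [a2, div_le_iff₀ hx0]; nlinarith only [a1, y0, hx]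
      nlinarith only [a3, y0, y3]
  have hg := hOk.g_nonneg
  have ex : exp (t * gg c (1 + 2 * y) s) ≤ 729 * exp l := by
    refine (exp_le_exp.2 g1).trans ?_
    rw [exp_add, mul_comm]
    exact mul_le_mul_of_nonneg_right exp_six (exp_pos _).le
  rw [← hx'] at hA hB hC
  have hH : Hyp n s (n ^ 4) d t t₀ c (1 + 2 * y) E
      (2 * (DT * (((2 * d : ℕ) + 1) * (Λ * exp (t₀ * gg c (1 + 2 * y) s)))) / E) Λ (1 / t) y := by
    refine ⟨hOk, h2, by omega, ?_, E0, by positivity, fun j => (hc j).ge, y0.le, by linarith, ?_,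
      by positivity, (mul_one_div_cancel t0.ne').le, ?_, ?_, fun j hj => ?_, ?_, ?_, ?_, ?_, ?_, ?_⟩
    · have : (2 : ℝ) * t₀ ≤ t := by
        nlinarith only [mul_nonneg L0 (zero_le_one.trans ADT), t4, t1, hμ, ADT]
      exact_mod_cast this
    · rw [hy, hx']; exact c2_bound n h17
    · rw [le_div_iff₀ t0, Nat.cast_pow, ← hx']
      have a1 := mul_le_mul_of_nonneg_left g3 (show 0 ≤ 4 * (x ^ 4) ^ 2 by positivity)
      have a2 := mul_le_mul_of_nonneg_right x3 (show 0 ≤ E / DT * x ^ 9 by positivity)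
      linarith only [a1, a2, EDT, (show 0 ≤ E / DT * x ^ 9 by positivity)]
    · rw [← hx']
      push_cast
      rw [← hx']
      have a1 : exp (t₀ * gg c (1 + 2 * y) s) ≤ 729 * exp (μ * l) := by
        refine (exp_le_exp.2 (g2.trans (show _ ≤ μ * l + 6 by linarith))).trans ?_
        rw [exp_add, mul_comm]
        exact mul_le_mul_of_nonneg_right exp_six (exp_pos _).le
      refine le_of_mul_le_mul_right ?_ (pow_pos hx0 12)
      rw [E1]
      refine le_trans ?_ hB
      calc _ ≤ x ^ 4 * ((6 * x) * ((s * x) ^ (5 * d) * (729 * exp (μ * l)))) * x ^ 12 := by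
            gcongr; linarith
        _ = 4374 * (x ^ 17 * (s * x) ^ (5 * d) * exp (μ * l)) := by ring
        _ ≤ x ^ 3 * (x ^ 17 * (s * x) ^ (5 * d) * exp (μ * l)) := by gcongr; linarith
        _ = _ := by ring
    · rw [← hx']
      refine (mul_le_mul_of_nonneg_right (hC j hj) (exp_pos _).le).trans ?_
      rw [mul_assoc, ← exp_add]
      refine mul_le_mul_of_nonneg_left (exp_le_exp.2 ?_) hΛ.le
      have a0 : 0 ≤ D - ((n - (s + j)).choose s : ℝ) := by
        rw [hD, sub_nonneg]; exact_mod_cast Nat.choose_le_choose _ (by omega)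
      have a1 := mul_le_mul_of_nonneg_right t3 (div_nonneg a0 A0.le)
      have a2 : μ * L * (A / DT) * ((D - ((n - (s + j)).choose s : ℝ)) / A) =
        μ * L * (D - (n - (s + j)).choose s) / DT := by field_simp
      have a3 : gg c (1 + 2 * y) s = gg c (1 + 2 * y) (s + j) +
          (1 + 2 * y) * (1 + y) * ((D - ((n - (s + j)).choose s : ℝ)) / A) := by
        simp only [gg, ← hA', hc s, hc (s + j), ← hD]; field_simp; ring
      have a4 := mul_le_mul_of_nonneg_right (show 1 ≤ (1 + 2 * y) * (1 + y) by nlinarith only [y0])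
        (mul_nonneg (Nat.cast_nonneg t₀) (div_nonneg a0 A0.le))
      rw [a3, ← a2]
      linarith
    · rw [div_mul_cancel₀ _ E0.ne', ← hDT]
    · rw [Nat.cast_pow, ← hx', div_mul_eq_mul_div, ← mul_div_assoc, div_le_iff₀ E0]
      refine le_of_mul_le_mul_right ?_ (pow_pos hx0 24)
      have a1 : exp (t₀ * gg c (1 + 2 * y) s) * exp ((t - t₀) * gg c (1 + 2 * y) s) ≤
          729 * exp l := by
        rw [← exp_add]; convert ex using 2; ring
      push_cast
      calc _ = x ^ 28 * (2 * (DT * ((2 * d + 1) * (Λ * (exp (t₀ * gg c (1 + 2 * y) s) *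
              exp ((t - t₀) * gg c (1 + 2 * y) s)))))) := by ring
        _ ≤ x ^ 28 * (2 * (x * D * ((3 * x) * (Λ * (729 * exp l))))) := by gcongr; linarith
        _ = 4374 * (x ^ 30 * Λ * exp l) * D := by ring
        _ ≤ x ^ 3 * (x ^ 30 * Λ * exp l) * D := by gcongr; linarith
        _ = x ^ 33 * Λ * exp l * D := by ring
        _ ≤ D * D := by gcongr
        _ = _ := by rw [← E1]; ring
    · rw [← hA']
      have a1 := mul_le_mul_of_nonneg_right (x3.trans (xp 3 11 (by norm_num)))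
        (show 0 ≤ x * (E / DT) by positivity)
      have a2 : t * (E / A) ≤ 1 / 2 := by linarith only [a1, g5, EDT]
      rw [← mul_div_assoc, div_le_iff₀ A0] at a2
      linarith
    · rw [← hx']
      refine le_of_mul_le_mul_right ?_ (pow_pos hx0 12)
      rw [E1]
      refine le_trans ?_ hA
      calc _ ≤ (2 * x) * (x * x * Λ * (729 * exp l)) * x ^ 12 := by gcongr; linarith
        _ = 1458 * (x ^ 15 * Λ * exp l) := by ring
        _ ≤ x ^ 18 * (x ^ 15 * Λ * exp l) := by gcongr; linarith [xp 3 18 (by norm_num)]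
        _ = _ := by ring
    · rw [le_div_iff₀ t0, ← hA']
      rw [← hA'] at g4
      have a1 : t * gg c (1 + 2 * y) (s + d) * (t * (c (s - 1) / A) * (t * gg c (1 + 2 * y) s)) ≤
          8 * x * (E / DT) * (2 * x * (2 * x)) :=
        mul_le_mul g3 (mul_le_mul g4 (by linarith) (mul_nonneg t0.le (hg s)) (by positivity))
          (mul_nonneg (mul_nonneg t0.le (div_pos (c0 _) A0).le) (mul_nonneg t0.le (hg s)))
          (by positivity)
      have a2 := mul_le_mul_of_nonneg_right (x3.trans (xp 3 9 (by norm_num)))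
        (show 0 ≤ x ^ 3 * (E / DT) by positivity)
      have a3 := mul_le_mul_of_nonneg_right (xp 1 3 (by norm_num)) EDT0
      linarith only [a1, a2, a3, g5, EDT, (show 0 ≤ x ^ 3 * (E / DT) by positivity)]
    · rw [← hA', ← hDT]
      have a1 : (n.choose (s - 1) : ℝ) ≤ N := by
        have := Nat.choose_le_succ_of_lt_half_left (r := s - 1) (n := n) (by omega)
        rw [show s - 1 + 1 = s by omega] at this
        rw [hN']; exact_mod_cast this
      have a2 : L + 4 ≤ t / A * DT := by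
        have := mul_le_mul_of_nonneg_right t1 (div_pos DT0 A0).le
        refine le_trans (le_of_eq ?_) (this.trans (le_of_eq ?_)) <;> field_simp
      calc _ ≤ N * exp 2 * exp (-(L + 4)) := by gcongr
        _ = 1 / (exp 1 * exp 1) := by
          rw [← exp_log N0, ← hL, ← exp_add, ← exp_add, ← exp_add, one_div, ← exp_neg]
          congr 1; ring
        _ ≤ 1 / 4 := by
          have := add_one_le_exp 1
          exact one_div_le_one_div_of_le (by norm_num) (by nlinarith only [this])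
  obtain ⟨G, g1, g2, g3, g4⟩ := abstract (V := Fin n) (by simpa using hH)
  obtain ⟨H, f1, f2⟩ := fam_of_emb (r := n) (by simp) G g1 g2 g3
  refine ⟨H, f1, le_trans (by exact_mod_cast f2.trans g4) (t2.trans ?_)⟩
  have a1 : A / DT ≤ (1 + 2 * y) * (N / DT) := by
    rw [← mul_div_assoc]; exact div_le_div_of_nonneg_right A1.2 DT0.le
  have a2 : 1 ≤ N / DT := (one_le_div DT0).2 D3
  have a3 := mul_le_mul_of_nonneg_left a1 (show 0 ≤ L + 4 by linarith)
  have a4 : (L + 4) * (2 * y) ≤ 1 := by nlinarith only [L1, y0, y2]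
  have a5 := mul_le_mul_of_nonneg_right a4 (zero_le_one.trans a2)
  linarith only [a2, a3, a5]

end Pool.Agent.Lib.MP_270b52_co.Kn
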