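import Pool.Agent.Lib.MP_270b52_co.KnE

namespace Pool.Agent.Lib.MP_270b52_co.Kn

open Finset Real

lemma log_fact (n : ℕ) (hn : 1 ≤ n) : n * log n - n ≤ log n.factorial ∧
    log n.factorial ≤ n * log n - n + 1 + log n := by
  induction n, hn using Nat.le_induction with
  | base => simp
  | succ n hn ih =>
    have h0 : (0 : ℝ) < n := by exact_mod_cast hn
    have h1 := log_le_sub_one_of_pos (x := (n + 1) / n) (by positivity)
    have h2 := one_sub_inv_le_log_of_pos (x := (n + 1) / n) (by positivity)
    rw [log_div (by positivity) h0.ne'] at h1 h2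
    have h3 := mul_le_mul_of_nonneg_left h1 h0.le
    have h4 := mul_le_mul_of_nonneg_left h2 (show (0 : ℝ) ≤ n + 1 by positivity)
    rw [show (n : ℝ) * ((n + 1) / n - 1) = 1 by field_simp; ring] at h3
    rw [show ((n : ℝ) + 1) * (1 - (((n : ℝ) + 1) / n)⁻¹) = 1 by field_simp; ring] at h4
    rw [Nat.factorial_succ, Nat.cast_mul, log_mul (by positivity) (by positivity)]
    push_cast
    constructor <;> linarith [ih.1, ih.2]

lemma log_choose (g s : ℕ) (hg : 1 ≤ g) (hs : 1 ≤ s) :
    g * log ((g + s) / g) + s * log ((g + s) / s) - 2 - log g - log s ≤ log ((g + s).choose s) := by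
  have g0 : (0 : ℝ) < g := by exact_mod_cast hg
  have s0 : (0 : ℝ) < s := by exact_mod_cast hs
  have h : log (((g + s).choose s * g.factorial * s.factorial : ℕ) : ℝ) = log (g + s).factorial := by
    rw [Nat.add_choose_mul_factorial_mul_factorial]
  have hc : (0 : ℝ) < (g + s).choose s := by exact_mod_cast Nat.choose_pos (by omega)
  rw [Nat.cast_mul, Nat.cast_mul, log_mul (by positivity) (by positivity),
    log_mul hc.ne' (by positivity)] at h
  have h1 := (log_fact (g + s) (by omega)).1
  rw [log_div (by positivity) g0.ne', log_div (by positivity) s0.ne']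
  push_cast at h1
  linarith [(log_fact g hg).2, (log_fact s hs).2]

lemma down (M s : ℕ) (hs : 1 ≤ s) (j : ℕ) : (M - j).choose s * M ^ j ≤ M.choose s * (M - s) ^ j := by
  induction j with
  | zero => simp
  | succ j ih =>
    rcases lt_or_ge (M - (j + 1)) s with h | h
    · rw [Nat.choose_eq_zero_of_lt h, zero_mul]; exact Nat.zero_le _
    have h1 := Nat.choose_mul_succ_eq (M - (j + 1)) s
    rw [show M - (j + 1) + 1 = M - j by omega] at h1
    have h2 : (M - (j + 1)).choose s * M ≤ (M - j).choose s * (M - s) := by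
      refine Nat.le_of_mul_le_mul_right ?_ (show 0 < M - j by omega)
      rw [mul_right_comm, h1, mul_assoc, mul_assoc]
      refine Nat.mul_le_mul_left _ ?_
      obtain ⟨u, rfl⟩ : ∃ u, M = s + j + u := ⟨M - s - j, by omega⟩
      rw [show s + j + u - j - s = u by omega, show s + j + u - s = j + u by omega,
        show s + j + u - j = s + u by omega]
      nlinarith [Nat.zero_le (j * s)]
    calc _ = (M - (j + 1)).choose s * M * M ^ j := by ring
      _ ≤ (M - j).choose s * (M - s) * M ^ j := Nat.mul_le_mul_right _ h2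
      _ = (M - j).choose s * M ^ j * (M - s) := by ring
      _ ≤ M.choose s * (M - s) ^ j * (M - s) := Nat.mul_le_mul_right _ ih
      _ = _ := by ring

lemma up (a s : ℕ) (hs : s ≤ a) (j : ℕ) :
    (a + j).choose s * (a + 1 - s) ^ j ≤ a.choose s * (a + 1) ^ j := by
  induction j with
  | zero => simp
  | succ j ih =>
    have h1 := Nat.choose_mul_succ_eq (a + j) s
    have h2 : (a + j + 1).choose s * (a + 1 - s) ≤ (a + j).choose s * (a + 1) := by
      refine Nat.le_of_mul_le_mul_right ?_ (show 0 < a + j + 1 - s by omega)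
      rw [mul_right_comm, ← h1, mul_assoc, mul_assoc]
      refine Nat.mul_le_mul_left _ ?_
      obtain ⟨u, rfl⟩ : ∃ u, a = s + u := ⟨a - s, by omega⟩
      rw [show s + u + 1 - s = u + 1 by omega, show s + u + j + 1 - s = u + j + 1 by omega]
      nlinarith [Nat.zero_le (j * s)]
    calc _ = (a + j + 1).choose s * (a + 1 - s) * (a + 1 - s) ^ j := by rw [add_assoc]; ring
      _ ≤ (a + j).choose s * (a + 1) * (a + 1 - s) ^ j := Nat.mul_le_mul_right _ h2
      _ = (a + j).choose s * (a + 1 - s) ^ j * (a + 1) := by ring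
      _ ≤ a.choose s * (a + 1) ^ j * (a + 1) := Nat.mul_le_mul_right _ ih
      _ = _ := by ring

lemma sub_inv_le_log {x y : ℝ} (hx : 0 < x) (hy : 0 < y) : y / (x + y) ≤ log ((x + y) / x) := by
  refine le_trans (le_of_eq ?_) (one_sub_inv_le_log_of_pos (by positivity))
  field_simp; ring

/-- the conditions in logarithmic form -/
theorem mid' (n s g d : ℕ) (hn : n + 1 = 2 * s + g) (h17 : 17 ≤ n) (h2 : 2 ≤ s) (hg : 1 ≤ g)
    (hd : d ≤ n) (lD L l : ℝ) (hlD : lD = log ((n - s).choose s)) (hL : L = log (n.choose s))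
    (hl : l = L * (g / (g + s))) (h7 : 7 * log n ≤ (s : ℝ) ^ 2 / n)
    (h12 : 12 * log n ≤ d * log ((g + s) / g))
    (h : 33 * log n + 10 * d * log n + l ≤ lD ∨ (33 * log n + l ≤ lD ∧
      20 * log n + 10 * d * log n + l / 2 ≤ lD ∧
      ∀ j ≤ 2 * d, 2 * j * log n ≤ l / 2 * (1 - ((g : ℝ) / (g + s)) ^ j))) :
    ∃ H, Fam n s H ∧ (H.card : ℝ) ≤ (L + 6) * (n.choose s / (n - (s - 1)).choose s) := by
  have n0 : (0 : ℝ) < n := by exact_mod_cast (by omega : 0 < n)
  have g0 : (0 : ℝ) < g := by exact_mod_cast hg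
  have s0 : (0 : ℝ) < s := by exact_mod_cast (by omega : 0 < s)
  have sn : (s : ℝ) ≤ n := by exact_mod_cast (by omega : s ≤ n)
  have lam : 0 ≤ log n := log_natCast_nonneg n
  obtain ⟨D, hD⟩ : ∃ D : ℝ, D = (n - s).choose s := ⟨_, rfl⟩
  obtain ⟨DT, hDT⟩ : ∃ D : ℝ, D = (n - (s - 1)).choose s := ⟨_, rfl⟩
  have D0 : 0 < D := by rw [hD]; exact_mod_cast Nat.choose_pos (by omega)
  have DT0 : 0 < DT := by rw [hDT]; exact_mod_cast Nat.choose_pos (by omega)
  have N1 : (1 : ℝ) ≤ n.choose s := by exact_mod_cast Nat.choose_pos (by omega)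
  have L0 : 0 ≤ L := hL ▸ log_nonneg N1
  have eD : D = exp lD := by rw [hlD, ← hD, exp_log D0]
  have en : ∀ a : ℕ, (n : ℝ) ^ a = exp (a * log n) := fun a => by rw [exp_nat_mul, exp_log n0]
  have esn : ∀ a : ℕ, ((s : ℝ) * n) ^ a ≤ exp (2 * a * log n) := fun a => by
    refine (pow_le_pow_left₀ (by positivity) (mul_le_mul_of_nonneg_right sn n0.le) a).trans
      (le_of_eq ?_)
    rw [← sq, ← pow_mul, en]; push_cast; rfl
  have F1 : D / DT = g / (g + s) := by
    have := Nat.choose_mul_succ_eq (n - s) s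
    rw [show n - s + 1 = n - (s - 1) by omega, show n - (s - 1) - s = g by omega] at this
    rw [div_eq_div_iff DT0.ne' (by positivity), hD, hDT]
    have e : n - (s - 1) = g + s := by omega
    nth_rewrite 1 [e] at this
    exact_mod_cast this.trans (mul_comm _ _)
  have hl' : L * D / DT = l := by rw [hl, mul_div_assoc, F1]
  have F2 : ∀ j : ℕ, ((n - (s + j)).choose s : ℝ) ≤ D * (g / (g + s)) ^ j := fun j => by
    have := down (g + s) s (by omega) (j + 1)
    rw [show g + s - (j + 1) = n - (s + j) by omega, Nat.add_sub_cancel] at this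
    have e : DT = (g + s).choose s := by rw [hDT]; congr 2; omega
    rw [(div_eq_iff DT0.ne').1 F1, mul_right_comm, ← pow_succ', div_pow, div_mul_eq_mul_div,
      le_div_iff₀ (by positivity), e, mul_comm ((g : ℝ) ^ _)]
    exact_mod_cast this
  have hN : (n : ℝ) ^ 7 * D ≤ n.choose s := by
    have a1 : D * (n : ℝ) ^ s ≤ n.choose s * ((n : ℝ) - s) ^ s := by
      have := down n s (by omega) s
      rw [hD, ← Nat.cast_sub (by omega)]
      exact_mod_cast this
    have a2 : ((n : ℝ) - s) ^ s ≤ n ^ s * exp (-((s : ℝ) ^ 2 / n)) := by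
      have b1 : (n : ℝ) - s ≤ n * exp (-(s / n)) := by
        have := mul_le_mul_of_nonneg_left (add_one_le_exp (-((s : ℝ) / n))) n0.le
        refine le_trans (le_of_eq ?_) this
        field_simp; ring
      refine (pow_le_pow_left₀ (by linarith) b1 s).trans (le_of_eq ?_)
      rw [mul_pow, ← exp_nat_mul]; congr 2; ring
    have a3 := a1.trans (mul_le_mul_of_nonneg_left a2 (by positivity))
    rw [mul_left_comm, mul_comm D] at a3
    have a4 := le_of_mul_le_mul_left a3 (by positivity)
    refine (mul_le_mul_of_nonneg_left a4 (by positivity)).trans ?_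
    rw [mul_left_comm, en, ← exp_add]
    exact mul_le_of_le_one_right (by positivity) (exp_le_one_iff.2 (by push_cast; linarith))
  have hCd : ((n - (s + d)).choose s : ℝ) * n ^ 12 ≤ D := by
    refine (mul_le_mul_of_nonneg_right (F2 d) (by positivity)).trans ?_
    rw [mul_assoc, en, ← exp_log (show (0 : ℝ) < g / (g + s) by positivity), ← exp_nat_mul,
      ← exp_add, ← inv_div, log_inv]
    exact mul_le_of_le_one_right D0.le (exp_le_one_iff.2 (by push_cast; linarith))
  rw [← hDT]
  have dl : 0 ≤ d * log n := by positivity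
  have l0 : 0 ≤ l := by rw [hl]; positivity
  rcases h with h | ⟨h1, h2', h3⟩
  · refine mid n s d 0 (((s : ℝ) * n) ^ (2 * d)) D DT L h17 h2 (by omega) hd hD hDT hL le_rfl
      (by norm_num) (by positivity) hN hCd ?_ ?_ fun j hj => ?_
    · rw [hl', en, eD]
      refine (mul_le_mul_of_nonneg_right (mul_le_mul_of_nonneg_left (esn _) (exp_pos _).le)
        (exp_pos _).le).trans ?_
      rw [← exp_add, ← exp_add, exp_le_exp]; push_cast; linarith
    · rw [hl', en, eD]
      refine (mul_le_mul_of_nonneg_right (mul_le_mul_of_nonneg_left (esn _) (exp_pos _).le)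
        (exp_pos _).le).trans ?_
      rw [← exp_add, ← exp_add, exp_le_exp]; push_cast; linarith
    · simp only [zero_mul, zero_div, exp_zero, mul_one]
      exact pow_le_pow_right₀ (by exact_mod_cast Nat.mul_pos (by omega) (by omega)) hj
  · refine mid n s d (1 / 2) 1 D DT L h17 h2 (by omega) hd hD hDT hL (by norm_num) le_rfl
      one_pos hN hCd ?_ ?_ fun j hj => ?_
    · rw [hl', en, eD, mul_one, ← exp_add, exp_le_exp]; push_cast; linarith
    · rw [hl', en, eD]
      refine (mul_le_mul_of_nonneg_right (mul_le_mul_of_nonneg_left (esn _) (exp_pos _).le)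
        (exp_pos _).le).trans ?_
      rw [← exp_add, ← exp_add, exp_le_exp]; push_cast; linarith
    · rw [one_mul]
      refine (esn j).trans (exp_le_exp.2 ((h3 j hj).trans ?_))
      rw [← hl', le_div_iff₀ DT0]
      have := mul_le_mul_of_nonneg_left (F2 j) L0
      refine le_trans (le_of_eq ?_) (show 1 / 2 * L * (D - D * (g / (g + s)) ^ j) ≤ _ by linarith)
      field_simp

/-- entropy estimates -/
theorem ent (n s g : ℕ) (hn : n + 1 = 2 * s + g) (h17 : 17 ≤ n) (h2 : 2 ≤ s) (hg : 1 ≤ g) :
    g * log ((g + s) / g) + s * log ((g + s) / s) - 3 * log n ≤ log ((n - s).choose s) ∧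
    log ((n - s).choose s) ≤ log (n.choose s) ∧
    log (n.choose s) ≤ log ((n - s).choose s) + s * log ((g + s) / g) ∧
    log (n.choose s) ≤ n * log 2 := by
  have n0 : (17 : ℝ) ≤ n := by exact_mod_cast h17
  have g0 : (0 : ℝ) < g := by exact_mod_cast hg
  have s0 : (0 : ℝ) < s := by exact_mod_cast (by omega : 0 < s)
  have D0 : (0 : ℝ) < (n - s).choose s := by exact_mod_cast Nat.choose_pos (by omega)
  have N0 : (0 : ℝ) < n.choose s := by exact_mod_cast Nat.choose_pos (by omega)
  refine ⟨?_, log_le_log D0 (by exact_mod_cast Nat.choose_le_choose _ (by omega)), ?_, ?_⟩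
  · have h1 := log_choose g s hg (by omega)
    have h3 := Nat.choose_mul_succ_eq (n - s) s
    rw [show n - s + 1 = g + s by omega, Nat.add_sub_cancel] at h3
    have h4 : log ((n - s).choose s * (g + s) : ℝ) = log ((g + s).choose s * g : ℝ) := by
      congr 1; exact_mod_cast h3
    have hc : (0 : ℝ) < (g + s).choose s := by exact_mod_cast Nat.choose_pos (by omega)
    rw [log_mul D0.ne' (by positivity), log_mul hc.ne' g0.ne'] at h4
    have h5 : log (g + s) ≤ log n := log_le_log (by positivity) (by exact_mod_cast (by omega))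
    have h6 : log s ≤ log n := log_le_log s0 (by exact_mod_cast (by omega))
    have h7 : 2 ≤ log n := by
      rw [le_log_iff_exp_le (by linarith), show (2 : ℝ) = 1 + 1 by norm_num, exp_add]
      nlinarith [exp_one_lt_three, exp_pos 1]
    linarith
  · have h1 := up (n - s) s (by omega) s
    rw [show n - s + s = n by omega, show n - s + 1 = g + s by omega, Nat.add_sub_cancel] at h1
    rw [← log_pow, ← log_mul D0.ne' (by positivity)]
    refine log_le_log N0 ?_
    rw [div_pow, ← mul_div_assoc, le_div_iff₀ (by positivity)]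
    exact_mod_cast h1
  · rw [← log_pow]
    exact log_le_log N0 (by exact_mod_cast Nat.choose_le_two_pow n s)

end Pool.Agent.Lib.MP_270b52_co.Kn
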