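import Pool.Agent.Lib.MP_270b52_co.KnF

namespace Pool.Agent.Lib.MP_270b52_co.Kn

open Finset Real

lemma ev_log : ∃ K : ℕ, 5000 ≤ K ∧ ∀ s : ℕ, K ≤ s → (400000 * log s ^ 2) ^ 2 ≤ s := by
  have h := (isLittleO_pow_log_id_atTop (n := 4)).bound (c := 1 / 400000 ^ 2) (by norm_num)
  obtain ⟨x, hx⟩ := Filter.eventually_atTop.1 h
  refine ⟨max 5000 ⌈x⌉₊, le_max_left _ _, fun s hs => ?_⟩
  have := hx s ((Nat.le_ceil x).trans (by exact_mod_cast (le_max_right _ _).trans hs))
  rw [Real.norm_of_nonneg (by positivity), id, Real.norm_of_nonneg (Nat.cast_nonneg _)] at this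
  linarith

theorem main_range : ∃ K : ℕ, ∀ n s : ℕ, K ≤ s → 2 * s + K ≤ n → (K : ℝ) * n * log s ≤ s ^ 2 →
    ∃ H, Fam n s H ∧
      (H.card : ℝ) ≤ (log (n.choose s) + 6) * (n.choose s / (n - (s - 1)).choose s) := by
  obtain ⟨K, hK, hev⟩ := ev_log
  refine ⟨K, fun n s hs hn hr => ?_⟩
  obtain ⟨g, hg⟩ : ∃ g, n + 1 = 2 * s + g := ⟨n + 1 - 2 * s, by omega⟩
  obtain ⟨e1, e2, e3, e4⟩ := ent n s g hg (by omega) (by omega) (by omega)
  have key := fun d hd => mid' n s g d hg (by omega) (by omega) (by omega) hd _ _ _ rfl rfl rfl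
  have hσ := hev s hs
  have S0 : (5000 : ℝ) ≤ s := by exact_mod_cast hK.trans hs
  have G0 : (5000 : ℝ) ≤ g := by exact_mod_cast (by omega)
  have K0 : (5000 : ℝ) ≤ K := by exact_mod_cast hK
  have X0 : (n : ℝ) + 1 = 2 * s + g := by exact_mod_cast hg
  have b1 := sub_inv_le_log (x := g) (y := s) (by linarith) (by linarith)
  have b2 := sub_inv_le_log (x := s) (y := g) (by linarith) (by linarith)
  rw [add_comm (s : ℝ)] at b2
  have s6 : 6 ≤ log s := by rw [le_log_iff_exp_le (by linarith)]; linarith [exp_six]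
  have n0 : (0 : ℝ) < n := by linarith
  have r1 : 5000 * log s * n ≤ s ^ 2 := by
    nlinarith only [hr, K0, mul_nonneg n0.le (show 0 ≤ log s by linarith)]
  have l1 : log n ≤ 2 * log s := by
    have := log_le_log n0 (show (n : ℝ) ≤ s ^ 2 by nlinarith only [r1, s6, n0])
    rwa [log_pow] at this
  have l2 : log s ≤ log n := log_le_log (by linarith) (by linarith)
  have r2 : 5000 * log s ≤ (s : ℝ) ^ 2 / n := by rwa [le_div_iff₀ n0]
  have hσ' : 400000 * log s ^ 2 ≤ s :=
    (le_self_pow₀ (by nlinarith only [s6]) two_ne_zero).trans hσ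
  have hlog : ∀ x y : ℝ, 0 < y → y ≤ x ^ 2 → 0 < x → log y / 2 ≤ log x := fun x y hy h _ => by
    have := log_le_log hy h
    rw [log_pow] at this
    push_cast at this; linarith
  have M0 : (0 : ℝ) < g + s := by linarith
  generalize log ((n - s).choose s) = lD at *
  generalize log (n.choose s) = L at *
  have slack : s / (g + s) * (s * log ((g + s) / s) - 3 * log n) ≤ lD - L * (g / (g + s)) := by
    have a1 := mul_le_mul_of_nonneg_right e3 (show (0 : ℝ) ≤ g / (g + s) by positivity)
    have a2 := mul_le_mul_of_nonneg_left (show s * log ((g + s) / s) - 3 * log n ≤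
      lD - g * log ((g + s) / g) by linarith) (show (0 : ℝ) ≤ s / (g + s) by positivity)
    refine a2.trans (le_trans (le_of_eq ?_) (sub_le_sub_left a1 lD))
    field_simp; ring
  by_cases c1 : g ^ 2 ≤ s
  · have c1' : (g : ℝ) ^ 2 ≤ s := by exact_mod_cast c1
    have a1 : log s / 2 ≤ log ((g + s) / g) := hlog _ _ (by linarith) (by
      rw [div_pow, le_div_iff₀ (by positivity)]
      nlinarith only [c1', S0, G0]) (by positivity)
    have a2 : L * (g / (g + s)) ≤ 1.4 * g := by
      rw [← mul_div_assoc, div_le_iff₀ M0]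
      have : L ≤ 1.4 * (g + s) := by nlinarith only [e4, log_two_lt_d9, X0, n0, G0]
      nlinarith only [this, G0]
    have a3 : 0 ≤ s * log ((g + s) / s) := mul_nonneg (by linarith) (le_trans (by positivity) b2)
    refine key 48 (by omega) (by linarith) (by push_cast; linarith) (Or.inl ?_)
    have a4 := mul_le_mul_of_nonneg_left a1 (show (0 : ℝ) ≤ g by linarith)
    push_cast
    nlinarith only [a2, a3, a4, e1, l1, s6, G0]
  by_cases c2 : g ≤ 8 * s
  · have c2' : (g : ℝ) ≤ 8 * s := by exact_mod_cast c2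
    have c1' : (s : ℝ) ≤ g ^ 2 := by exact_mod_cast (not_le.1 c1).le
    have a0 : 400000 * log s ^ 2 ≤ g := abs_le_of_sq_le_sq' (hσ.trans c1') (by linarith) |>.2
    have a1 : 1 / 9 ≤ (s : ℝ) / (g + s) := by rw [le_div_iff₀ M0]; linarith
    have d1 := Nat.le_ceil (108 * log n)
    have d2 := (Nat.ceil_lt_add_one (show 0 ≤ 108 * log n by linarith)).le
    generalize ⌈108 * log n⌉₊ = d at *
    have a2 : (g : ℝ) / 9 ≤ s * log ((g + s) / s) := by
      refine le_trans ?_ (mul_le_mul_of_nonneg_left b2 (by linarith))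
      rw [mul_div_left_comm]
      nlinarith only [a1, G0]
    have a3 : log n ^ 2 ≤ 4 * log s ^ 2 := by nlinarith only [l1, l2, s6]
    have a4 := mul_le_mul_of_nonneg_right a1 (show 0 ≤ s * log ((g + s) / s) - 3 * log n by
      nlinarith only [a2, a0, l1, s6])
    have a5 := mul_le_mul_of_nonneg_right d2 (show 0 ≤ log n by linarith)
    refine key d ?_ (by linarith) ?_ (Or.inl ?_)
    · have : (d : ℝ) ≤ n := by nlinarith only [d2, l1, hσ', s6, X0, G0]
      exact_mod_cast this
    · nlinarith only [d1, a1, b1, l2, s6]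
    · nlinarith only [slack, a4, a5, a2, a3, a0, l2, s6]
  · have c2' : 8 * (s : ℝ) ≤ g := by exact_mod_cast (not_le.1 c2).le
    have s0 : (0 : ℝ) < s := by linarith
    obtain ⟨a, ha⟩ : ∃ a : ℝ, a = (g + s) / s := ⟨_, rfl⟩
    have ha' : a * s = g + s := by rw [ha]; field_simp
    have a9 : 9 ≤ a := by rw [ha, le_div_iff₀ s0]; linarith
    rw [← ha] at e1 slack b2
    have a2 : 2 ≤ log a := by
      rw [le_log_iff_exp_le (by linarith), show (2 : ℝ) = 1 + 1 by norm_num, exp_add]
      nlinarith only [exp_one_lt_three, exp_pos 1, a9]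
    have al : 0 ≤ a * log n := mul_nonneg (by linarith) (by linarith)
    have d1 := Nat.le_ceil (12 * a * log n)
    have d2 : (⌈12 * a * log n⌉₊ : ℝ) ≤ 13 * a * log n := by
      have := (Nat.ceil_lt_add_one (show 0 ≤ 12 * a * log n by linarith)).le
      nlinarith only [this, a9, l2, s6]
    generalize ⌈12 * a * log n⌉₊ = d at *
    have i1 : s / (g + s) * a = 1 := by rw [ha]; field_simp
    have r3 : 33 * log n + L * (g / (g + s)) ≤ lD := by
      have u1 : (s : ℝ) ≤ s * log a - 3 * log n := by nlinarith only [a2, s0, l1, hσ', s6]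
      have u2 := mul_le_mul_of_nonneg_left u1 (show (0 : ℝ) ≤ s / (g + s) by positivity)
      have u3 : (s : ℝ) ^ 2 / n ≤ s / (g + s) * s := by
        rw [div_mul_eq_mul_div, ← sq]
        exact div_le_div_of_nonneg_left (by positivity) M0 (by linarith)
      linarith
    have r4 : 300 * (a * log n ^ 2) ≤ lD := by
      have u0 : 0 ≤ g * log ((g + s) / g) := mul_nonneg (by linarith) (le_trans (by positivity) b1)
      have u1 : a * log n ^ 2 ≤ a * (4 * log s ^ 2) :=
        mul_le_mul_of_nonneg_left (by nlinarith only [l1, l2, s6]) (by linarith)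
      have u2 : 3 * log n ≤ s * log a / 2 := by nlinarith only [a2, s0, l1, hσ', s6]
      have u3 : 2400 * (a * log s ^ 2) ≤ s * log a := by
        rcases le_total (s : ℝ) (a ^ 2) with c | c
        · have v1 := mul_le_mul_of_nonneg_left (hlog a s s0 c (by linarith)) s0.le
          have v2 : 5000 * log s * a ≤ s := by
            refine le_of_mul_le_mul_right ?_ s0
            rw [mul_assoc, ha']
            nlinarith only [r1, X0, S0, s6]
          nlinarith only [v1, v2, s6, s0]
        · have v1 : 400000 * log s ^ 2 * a ≤ s := (abs_le_of_sq_le_sq' (by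
            rw [mul_pow, sq (s : ℝ)]
            exact mul_le_mul hσ c (by positivity) s0.le) s0.le).2
          nlinarith only [v1, a2, s0, mul_nonneg (sq_nonneg (log s)) (show 0 ≤ a by linarith)]
      linarith
    have r5 : d * log n ≤ 13 * (a * log n ^ 2) := by
      nlinarith only [mul_le_mul_of_nonneg_right d2 (show 0 ≤ log n by linarith)]
    have r6 : log n ≤ a * log n ^ 2 := by nlinarith only [al, a9, l2, s6]
    refine key d ?_ (by linarith) ?_ (Or.inr ⟨r3, by linarith, fun j hj => ?_⟩)
    · have : (d : ℝ) ≤ n := by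
        have := mul_le_mul_of_nonneg_left (show 13 * log n ≤ s by nlinarith only [l1, hσ', s6])
          (show 0 ≤ a by linarith)
        linarith
      exact_mod_cast this
    · have u1 := mul_le_mul d1 b1 (by positivity) (Nat.cast_nonneg d)
      have : 12 * a * log n * (s / (g + s)) = 12 * log n * (s / (g + s) * a) := by ring
      rw [this, i1] at u1
      linarith
    · have j0 : (0 : ℝ) ≤ j := Nat.cast_nonneg j
      have j1 : (j : ℝ) ≤ 2 * d := by exact_mod_cast hj
      have u1 : ((g : ℝ) / (g + s)) ^ j * (a + j) ≤ a := by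
        have v1 := one_add_mul_le_pow (a := (s : ℝ) / g)
          (le_trans (by norm_num) (by positivity : (0 : ℝ) ≤ s / g)) j
        have v2 : ((g : ℝ) / (g + s)) ^ j * (1 + s / g) ^ j = 1 := by
          rw [← mul_pow]; convert one_pow j; field_simp
        have v3 : 1 ≤ s / g * a := by
          rw [← i1]; gcongr; linarith
        have v4 : 0 ≤ ((g : ℝ) / (g + s)) ^ j := by positivity
        have v5 := mul_le_mul_of_nonneg_left v1 (mul_nonneg v4 (show 0 ≤ a by linarith))
        have v6 := mul_le_mul_of_nonneg_left v3 (mul_nonneg v4 j0)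
        have v7 : ((g : ℝ) / (g + s)) ^ j * a * (1 + s / g) ^ j = a := by
          rw [mul_right_comm, v2, one_mul]
        linarith
      have u2 : 8 / 9 ≤ (g : ℝ) / (g + s) := by rw [le_div_iff₀ M0]; linarith
      have u3 : 108 * (a * log n ^ 2) ≤ L * (g / (g + s)) := by
        nlinarith only [u2, e2, r4, r6, l2, s6]
      have u4 : a + j ≤ 27 * (a * log n) := by nlinarith only [j1, d2, a9, l2, s6]
      generalize ((g : ℝ) / (g + s)) ^ j = ρ at *
      generalize L * (g / (g + s)) = l at *
      have u5 : j ≤ (1 - ρ) * (a + j) := by linarith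
      have u6 : 0 ≤ 1 - ρ := by
        by_contra hc
        nlinarith only [hc, u5, j0, a9]
      have u7 := mul_le_mul_of_nonneg_left u4 u6
      have u8 := mul_le_mul_of_nonneg_right u3 u6
      have u9 := mul_le_mul_of_nonneg_right (u5.trans u7) (show 0 ≤ log n by linarith)
      nlinarith only [u8, u9]

end Pool.Agent.Lib.MP_270b52_co.Kn
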