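import Pool.Agent.Lib.MP_270b52_co.KnG

namespace Pool.Agent.Lib.MP_270b52_co.Kn

open Finset Real

lemma lb_eq {r s : ℕ} (hs : 2 ≤ s) (hr : 2 * s - 1 ≤ r) :
    (r.choose s : ℝ) / (r - (s - 1)).choose s = r.choose (s - 1) / (r - s).choose (s - 1) := by
  have h1 := Nat.choose_succ_right_eq r (s - 1)
  have h2 := Nat.add_one_mul_choose_eq (r - s) (s - 1)
  rw [show s - 1 + 1 = s by omega] at h1 h2
  rw [show r - s + 1 = r - (s - 1) by omega] at h2
  have p1 : (0 : ℝ) < (r - (s - 1)).choose s := by exact_mod_cast Nat.choose_pos (by omega)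
  have p2 : (0 : ℝ) < (r - s).choose (s - 1) := by exact_mod_cast Nat.choose_pos (by omega)
  rw [div_eq_div_iff p1.ne' p2.ne']
  have : r.choose s * (r - s).choose (s - 1) = r.choose (s - 1) * (r - (s - 1)).choose s := by
    refine Nat.eq_of_mul_eq_mul_right (show 0 < s by omega) ?_
    rw [mul_right_comm, h1, mul_assoc, h2, mul_assoc]
  exact_mod_cast this

lemma lb_le {r s : ℕ} (hs : 2 ≤ s) (hr : 2 * s - 1 ≤ r) {H : Finset (Finset (Fin r))}
    (h : Fam r s H) : (r.choose (s - 1) : ℝ) / (r - s).choose (s - 1) ≤ H.card := by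
  obtain ⟨h1, -, h3⟩ := h
  have a1 : ∀ C ∈ powersetCard (s - 1) (univ : Finset (Fin r)),
      1 ≤ (H.filter (fun e => Disjoint e C)).card := fun C hC => by
    obtain ⟨e, he, hd⟩ := h3 C (by have := (mem_powersetCard.1 hC).2; omega)
    exact card_pos.2 ⟨e, mem_filter.2 ⟨he, hd⟩⟩
  have a2 : r.choose (s - 1) * 1 ≤ H.card * (r - s).choose (s - 1) := by
    have b1 := card_nsmul_le_sum _ _ _ a1
    rw [card_powersetCard, card_univ, Fintype.card_fin, smul_eq_mul] at b1
    refine b1.trans (le_of_eq ?_)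
    simp only [card_filter]
    rw [sum_comm, ← smul_eq_mul, ← sum_const]
    refine sum_congr rfl fun e he => ?_
    rw [← card_filter]
    have : r - s = eᶜ.card := by rw [card_compl, Fintype.card_fin, h1 e he]
    rw [this, ← card_powersetCard]
    congr 1
    ext T
    simp only [mem_filter, mem_powersetCard, subset_univ, true_and,
      subset_compl_iff_disjoint_left]
    tauto
  rw [div_le_iff₀ (by exact_mod_cast Nat.choose_pos (by omega))]
  exact_mod_cast (mul_one _).ge.trans a2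

theorem final : ∃ K : ℕ, ∀ r s : ℕ, 2 ≤ s → 2 * s - 1 ≤ r →
    (∃ H, Fam r s H ∧ (H.card : ℝ) ≤ (s : ℝ) ^ K * (r.choose (s - 1) / (r - s).choose (s - 1))) ∧
    (K ≤ s → 2 * s + K ≤ r → (K : ℝ) * r * log s ≤ s ^ 2 → ∃ H, Fam r s H ∧
      (H.card : ℝ) ≤ (log (r.choose s) + 6) * (r.choose (s - 1) / (r - s).choose (s - 1))) := by
  obtain ⟨K, hK⟩ := main_range
  obtain ⟨K1, k1, hK1⟩ := sharp 1 one_pos
  obtain ⟨S, hS⟩ : ∃ S, S = K + 2 + 4 * ((K + 2) * K1) ^ 2 := ⟨_, rfl⟩
  refine ⟨2 * S + K1 + 2 * (K + 2), fun r s hs hr => ?_⟩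
  rw [← lb_eq hs hr]
  have s1 : (2 : ℝ) ≤ s := by exact_mod_cast hs
  have r0 : (0 : ℝ) < r := by exact_mod_cast (by omega)
  have ls : 1 / 2 ≤ log s := le_trans (by linarith [log_two_gt_d9]) (log_le_log two_pos s1)
  have hm : ∀ K' : ℕ, K ≤ K' → K' ≤ s → 2 * s + K' ≤ r → (K' : ℝ) * r * log s ≤ s ^ 2 →
      ∃ H, Fam r s H ∧ (H.card : ℝ) ≤ (log (r.choose s) + 6) *
        (r.choose s / (r - (s - 1)).choose s) := fun K' a1 a2 a3 a4 =>
    hK r s (by omega) (by omega) (le_trans (by gcongr) a4)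
  refine ⟨?_, hm _ (by omega)⟩
  have p1 : (0 : ℝ) < (r - (s - 1)).choose s := by exact_mod_cast Nat.choose_pos (by omega)
  have L1 : (1 : ℝ) ≤ r.choose s / (r - (s - 1)).choose s :=
    (one_le_div p1).2 (by exact_mod_cast Nat.choose_le_choose _ (by omega))
  have fin : ∀ (H : Finset (Finset (Fin r))) (j : ℕ), Fam r s H → j ≤ 2 * S + K1 + 2 * (K + 2) →
      (H.card : ℝ) ≤ s ^ j * (r.choose s / (r - (s - 1)).choose s) → ∃ H, Fam r s H ∧
      (H.card : ℝ) ≤ (s : ℝ) ^ (2 * S + K1 + 2 * (K + 2)) * (r.choose s / (r - (s - 1)).choose s) :=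
    fun H j a1 a2 a3 => ⟨H, a1, a3.trans (mul_le_mul_of_nonneg_right
      (pow_le_pow_right₀ (by linarith) a2) (by positivity))⟩
  obtain ⟨H0, f1, f2⟩ := fam_complete (r := r) (s := s) (by omega) hr
  by_cases c0 : s ≤ S
  · refine fin H0 (2 * S) f1 (by omega) (le_trans ?_ (le_mul_of_one_le_right (by positivity) L1))
    have : H0.card ≤ s ^ (2 * S) := by
      refine f2.trans ((Nat.pow_le_pow_right (by norm_num) c0).trans ?_)
      rw [pow_mul]
      exact Nat.pow_le_pow_left (by nlinarith) _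
    exact_mod_cast this
  by_cases c1 : r < 2 * s + (K + 2)
  · refine fin H0 (2 * (K + 2)) f1 (by omega) ?_
    rw [← mul_div_assoc, le_div_iff₀ p1, mul_comm]
    have a1 : H0.card ≤ r.choose s := by
      have := card_le_card (show H0 ⊆ powersetCard s univ from fun e he =>
        mem_powersetCard.2 ⟨subset_univ e, f1.1 e he⟩)
      simpa using this
    have a2 : (r - (s - 1)).choose s ≤ s ^ (2 * (K + 2)) := by
      rw [← Nat.choose_symm (by omega), pow_mul]
      refine (Nat.choose_le_pow _ _).trans ((Nat.pow_le_pow_left (show _ ≤ s ^ 2 by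
        have : 2 * s ≤ s ^ 2 := by nlinarith
        omega) _).trans (Nat.pow_le_pow_right (by positivity) (by omega)))
    exact_mod_cast Nat.mul_le_mul a2 a1
  by_cases c2 : ((K + 2 : ℕ) : ℝ) * r * log s ≤ s ^ 2
  · obtain ⟨H, a1, a2⟩ := hm (K + 2) (by omega) (by omega) (by omega) c2
    refine fin H 4 a1 (by omega) (a2.trans (mul_le_mul_of_nonneg_right ?_ (by positivity)))
    have b1 : log (r.choose s) ≤ r * log 2 := by
      rw [← log_pow]
      exact log_le_log (by exact_mod_cast Nat.choose_pos (by omega))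
        (by exact_mod_cast Nat.choose_le_two_pow r s)
    have b2 : (r : ℝ) ≤ s ^ 2 := by
      push_cast at c2
      nlinarith only [c2, ls, r0, mul_nonneg (mul_nonneg (Nat.cast_nonneg K) r0.le)
        (show 0 ≤ log s by linarith)]
    have b3 : (4 : ℝ) ≤ s ^ 2 := by nlinarith only [s1]
    nlinarith only [b1, b2, b3, log_two_lt_d9, r0]
  push Not at c2
  have c3 : K1 * s ≤ r := by
    by_contra hc
    have a1 : (r : ℝ) ≤ K1 * s := by exact_mod_cast (not_le.1 hc).le
    have a2 : log s ≤ 2 * √s := by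
      have := log_le_sub_one_of_pos (sqrt_pos.2 (show (0 : ℝ) < s by linarith))
      rw [log_sqrt (by linarith)] at this
      linarith
    have a3 : (s : ℝ) ^ 2 < ((K + 2 : ℕ) : ℝ) * (K1 * s) * (2 * √s) :=
      c2.trans_le (by gcongr)
    have a4 : 4 * (((K + 2 : ℕ) : ℝ) * K1) ^ 2 ≤ s := by exact_mod_cast (by omega)
    have a5 : 2 * (((K + 2 : ℕ) : ℝ) * K1) ≤ √s := le_sqrt_of_sq_le (by linarith)
    have a6 := mul_le_mul_of_nonneg_right a5 (show (0 : ℝ) ≤ s * √s by positivity)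
    have a7 : √s * √s = s := mul_self_sqrt (by linarith)
    have a8 : √s * (s * √s) = (s : ℝ) ^ 2 := by rw [mul_left_comm, a7, sq]
    linarith
  obtain ⟨H, a1, a2⟩ := hK1 r s hs hr c3
  refine fin H (K1 + 2 * (K + 2)) a1 (by omega)
    (le_trans (a2.trans ?_) (le_mul_of_one_le_right (by positivity) L1))
  rw [pow_add]
  refine mul_le_mul_of_nonneg_left ?_ (by positivity)
  rw [← exp_log (show (0 : ℝ) < s ^ (2 * (K + 2)) by positivity), exp_le_exp, log_pow,
    div_le_iff₀ r0]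
  push_cast at c2 ⊢
  linarith

end Pool.Agent.Lib.MP_270b52_co.Kn
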