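import Pool.Agent.Lib.MP_270b52_co.Complete

set_option autoImplicit false

namespace Pool.Agent.Lib.MP_270b52_co

open Finset Configuration

/-- A family of uniformity `s` on at most `r` vertices with total weight at most `M` in which
every small set is avoided by edges of large total weight. -/
def Good (r s : ℕ) (M p : ℝ) (J : ℕ) : Prop :=
  ∃ (V : Type) (_ : Fintype V) (_ : DecidableEq V) (S : Sys V), Fintype.card V ≤ r ∧ S.Unif s ∧
    S.mass ≤ M ∧ ∀ C : Finset V, C.card < s → p * (((s : ℝ) - C.card) / s) ^ J ≤ S.P C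

section
variable (P L : Type) [Membership P L] [ProjectivePlane P L] [Fintype P] [Fintype L]

open Classical in
/-- The lines of a projective plane. -/
noncomputable def pln : Sys P where
  Ω := L
  fin := inferInstance
  e := fun l => univ.filter (fun p => p ∈ l)
  w := fun _ => 1
  w_nonneg := fun _ => zero_le_one
  inter := by
    intro l l'
    by_cases h : l = l'
    · subst h
      have h2 := ProjectivePlane.two_lt_pointCount P l
      unfold pointCount at h2
      have : Nonempty {p : P // p ∈ l} := by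
        by_contra hne
        rw [not_nonempty_iff] at hne
        simp at h2
      obtain ⟨p, hp⟩ := this
      exact not_disjoint_iff.2 ⟨p, by simp [hp], by simp [hp]⟩
    · obtain ⟨p, hp, -⟩ := HasPoints.existsUnique_point P L l l' h
      exact not_disjoint_iff.2 ⟨p, by simp [hp.1], by simp [hp.2]⟩

theorem pln_unif : (pln P L).Unif (ProjectivePlane.order P L + 1) := by
  classical
  intro l
  rw [← ProjectivePlane.pointCount_eq P (L := L) l]
  unfold pointCount
  rw [Nat.card_eq_fintype_card, Fintype.card_subtype]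
  rfl

theorem pln_mass : (pln P L).mass = (Fintype.card L : ℝ) := by
  change ∑ _l : L, (1 : ℝ) = _
  simp

open Classical in
theorem deg_eq (p : P) :
    (univ.filter (fun l : L => p ∈ l)).card = ProjectivePlane.order P L + 1 := by
  rw [← ProjectivePlane.lineCount_eq L p]
  unfold lineCount
  rw [Nat.card_eq_fintype_card, Fintype.card_subtype]

open Classical in
theorem deg_le (p x : P) (h : x ≠ p) :
    (univ.filter (fun l : L => x ∈ l ∧ p ∉ l)).card ≤ ProjectivePlane.order P L := by
  obtain ⟨l, hl, -⟩ := HasLines.existsUnique_line P L x p h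
  have h1 : univ.filter (fun l : L => x ∈ l ∧ p ∉ l) ⊆
      (univ.filter (fun l : L => x ∈ l)).erase l := by
    intro m hm
    simp only [mem_filter, mem_univ, true_and] at hm
    simp only [mem_erase, mem_filter, mem_univ, true_and]
    exact ⟨fun h => hm.2 (h ▸ hl.2), hm.1⟩
  have h2 := card_le_card h1
  rw [card_erase_of_mem (by simp [hl.1]), deg_eq] at h2
  omega

open Classical in
theorem miss_card (B : Finset P) (p : P) (hp : p ∈ B) :
    Fintype.card L ≤ (univ.filter (fun l : L => Disjoint ((pln P L).e l) B)).card +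
      (ProjectivePlane.order P L + 1) + (B.card - 1) * ProjectivePlane.order P L := by
  have h1 : (univ : Finset L) ⊆ univ.filter (fun l : L => Disjoint ((pln P L).e l) B) ∪
      univ.filter (fun l : L => p ∈ l) ∪
      (B.erase p).biUnion (fun x => univ.filter (fun l : L => x ∈ l ∧ p ∉ l)) := by
    intro l _
    simp only [mem_union, mem_filter, mem_univ, true_and, mem_biUnion, mem_erase]
    by_cases h : Disjoint ((pln P L).e l) B
    · exact Or.inl (Or.inl h)
    by_cases h' : p ∈ l
    · exact Or.inl (Or.inr h')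
    obtain ⟨x, hx, hx'⟩ := not_disjoint_iff.1 h
    have hx2 : x ∈ l := by simpa [pln] using hx
    exact Or.inr ⟨x, ⟨fun e => h' (e ▸ hx2), hx'⟩, hx2, h'⟩
  have h2 := card_le_card h1
  have h3 : ((B.erase p).biUnion (fun x => univ.filter (fun l : L => x ∈ l ∧ p ∉ l))).card ≤
      (B.erase p).card * ProjectivePlane.order P L :=
    card_biUnion_le_card_mul _ _ _ fun x hx => deg_le P L p x (mem_erase.1 hx).1
  rw [card_erase_of_mem hp] at h3
  have h4 := card_union_le (univ.filter (fun l : L => Disjoint ((pln P L).e l) B) ∪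
      univ.filter (fun l : L => p ∈ l))
      ((B.erase p).biUnion (fun x => univ.filter (fun l : L => x ∈ l ∧ p ∉ l)))
  have h5 := card_union_le (univ.filter (fun l : L => Disjoint ((pln P L).e l) B))
      (univ.filter (fun l : L => p ∈ l))
  rw [deg_eq] at h5
  rw [card_univ] at h2
  omega

theorem Lin.plane' {r s : ℕ} {lam : ℝ} (h : Lin r s lam) (hlam : 0 ≤ lam) (J q : ℕ)
    (hq : ProjectivePlane.order P L = q) :
    Good ((q ^ 2 + q + 1) * r) ((q + 1) * s) (q ^ 2 + q + 1)
      (Real.exp (-(lam * (s * (1 + 1 / q))))) J := by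
  classical
  obtain ⟨V, i1, i2, S, h1, h2, h3, h4⟩ := h
  have hq1 : 1 < q := hq ▸ ProjectivePlane.one_lt_order P L
  have hL : Fintype.card L = q ^ 2 + q + 1 := hq ▸ ProjectivePlane.card_lines P L
  have hPt : Fintype.card P = q ^ 2 + q + 1 := hq ▸ ProjectivePlane.card_points P L
  refine ⟨P × V, inferInstance, inferInstance, comp (pln P L) S, ?_, ?_, ?_, ?_⟩
  · rw [Fintype.card_prod, hPt, h1]
  · exact comp_unif (pln P L) S (hq ▸ pln_unif P L) h2
  · rw [comp_mass _ _ h3, pln_mass, hL]; push_cast; exact le_rfl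
  intro C hC
  have hq0 : (0 : ℝ) < q := by exact_mod_cast (by omega : 0 < q)
  have main : ∀ B : Finset P, B.Nonempty → B.card ≤ q → (∀ i, i ∉ B → (fib C i).card < s) →
      (∑ i ∈ Bᶜ, ((fib C i).card : ℝ) ≤ (q + 1 - B.card) * (s * (1 + 1 / q))) →
      Real.exp (-(lam * (s * (1 + 1 / q)))) ≤ (comp (pln P L) S).P C := by
    rintro B ⟨p, hp⟩ hBq hB hz
    have m1 := miss_card P L B p hp
    rw [hL, hq] at m1
    obtain ⟨A, hA⟩ : ∃ A : Finset L, A = univ.filter (fun l : L => Disjoint ((pln P L).e l) B) :=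
      ⟨_, rfl⟩
    rw [← hA] at m1
    have hb1 : 1 ≤ B.card := card_pos.2 ⟨p, hp⟩
    have m2 : q * (q + 1 - B.card) ≤ A.card := by
      obtain ⟨b, hb⟩ : ∃ b, B.card = b + 1 := ⟨B.card - 1, by omega⟩
      obtain ⟨d, hd⟩ : ∃ d, q = b + d := ⟨q - b, by omega⟩
      rw [hb] at m1 ⊢
      have e1 : q + 1 - (b + 1) = d := by omega
      rw [e1]
      rw [Nat.add_sub_cancel] at m1
      have e2 : q ^ 2 = b * q + q * d := by rw [hd]; ring
      have e3 : q * d = q * (d - 1) + q := by
        obtain ⟨d', rfl⟩ : ∃ d', d = d' + 1 := ⟨d - 1, by omega⟩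
        rw [Nat.add_sub_cancel]; ring
      omega
    have m3 : (q : ℝ) * (q + 1 - B.card) ≤ A.card := by
      have : ((q * (q + 1 - B.card) : ℕ) : ℝ) ≤ A.card := by exact_mod_cast m2
      rw [Nat.cast_mul, Nat.cast_sub (by omega)] at this
      push_cast at this
      exact this
    have m4 : 1 ≤ A.card := le_trans (Nat.mul_pos (by omega) (by omega)) m2
    have key := avg_lemma (pln P L) S h3 s lam hlam h4 C A (card_pos.1 m4) 1 q
      (s * (1 + 1 / q)) zero_le_one (fun _ _ => le_rfl) B hB
      (fun o ho => by rw [hA] at ho; exact (mem_filter.1 ho).2)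
      (by
        intro i hi
        have d1 := deg_le P L p i (fun e => hi (e ▸ hp))
        rw [hq] at d1
        have d2 : A.filter (fun o => i ∈ (pln P L).e o) ⊆
            univ.filter (fun l : L => i ∈ l ∧ p ∉ l) := by
          intro l hl
          obtain ⟨a1, a2⟩ := mem_filter.1 hl
          rw [hA] at a1
          refine mem_filter.2 ⟨mem_univ _, by simpa [pln] using a2, fun a3 => ?_⟩
          exact disjoint_left.1 (mem_filter.1 a1).2 (by simpa [pln] using a3) hp
        exact_mod_cast (card_le_card d2).trans d1)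
      (by
        refine (mul_le_mul_of_nonneg_left hz hq0.le).trans ?_
        rw [← mul_assoc]
        exact mul_le_mul_of_nonneg_right m3 (by positivity))
    refine le_trans ?_ key
    have m5 : (1 : ℝ) ≤ A.card := by exact_mod_cast m4
    rw [one_mul]
    exact le_mul_of_one_le_left (Real.exp_pos _).le m5
  have hfac : ((((q + 1) * s : ℕ) : ℝ) - C.card) / ((q + 1) * s : ℕ) ≤ 1 := by
    apply div_le_one_of_le₀ _ (Nat.cast_nonneg _)
    linarith [(Nat.cast_nonneg C.card : (0 : ℝ) ≤ C.card)]
  have hfac0 : 0 ≤ ((((q + 1) * s : ℕ) : ℝ) - C.card) / ((q + 1) * s : ℕ) := by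
    apply div_nonneg _ (Nat.cast_nonneg _)
    have : (C.card : ℝ) ≤ ((q + 1) * s : ℕ) := by exact_mod_cast hC.le
    linarith
  refine le_trans (mul_le_of_le_one_right (Real.exp_pos _).le (pow_le_one₀ hfac0 hfac)) ?_
  obtain ⟨B, hB⟩ : ∃ B : Finset P, B = univ.filter (fun i => s ≤ (fib C i).card) := ⟨_, rfl⟩
  have hBn : ∀ i, i ∉ B → (fib C i).card < s := by intro i hi; rw [hB] at hi; simpa using hi
  have hC' : (C.card : ℝ) ≤ (q + 1) * s := by exact_mod_cast hC.le
  have hs0 : (0 : ℝ) ≤ s := Nat.cast_nonneg _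
  rcases B.eq_empty_or_nonempty with hB0 | hB0
  · have : Nonempty P := by
      rw [← Fintype.card_pos_iff, hPt]; positivity
    obtain ⟨p⟩ := this
    refine main {p} (singleton_nonempty p) (by simp; omega)
      (fun i _ => hBn i (by rw [hB0]; simp)) ?_
    have a1 := blocked_sum C 0 {p} (fun _ _ => Nat.zero_le _)
    rw [mul_zero, add_zero] at a1
    have a2 : ∑ i ∈ {p}ᶜ, ((fib C i).card : ℝ) ≤ C.card := by exact_mod_cast a1
    have a3 : ((q : ℝ) + 1 - ({p} : Finset P).card) * (s * (1 + 1 / q)) = (q + 1) * s := by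
      rw [card_singleton]; push_cast; field_simp; ring
    linarith
  · have a1 := blocked_sum C s B (by intro i hi; rw [hB] at hi; simpa using hi)
    have hb : B.card ≤ q := by
      by_contra hb
      have : (q + 1) * s ≤ B.card * s := Nat.mul_le_mul_right _ (by omega)
      omega
    refine main B hB0 hb hBn ?_
    have a2 : ∑ i ∈ Bᶜ, ((fib C i).card : ℝ) + B.card * s ≤ C.card := by exact_mod_cast a1
    have a3 : (B.card : ℝ) ≤ q := by exact_mod_cast hb
    have a4 : 0 ≤ ((q : ℝ) + 1 - B.card) * (s * (1 / q)) :=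
      mul_nonneg (by linarith) (by positivity)
    nlinarith

end

theorem Lin.plane {r s : ℕ} {lam : ℝ} (h : Lin r s lam) (hlam : 0 ≤ lam) (J j q : ℕ) (hj : 1 ≤ j)
    (hq : q = 2 ^ j) :
    Good ((q ^ 2 + q + 1) * r) ((q + 1) * s) (q ^ 2 + q + 1)
      (Real.exp (-(lam * (s * (1 + 1 / q))))) J := by
  classical
  have : Fact (Nat.Prime 2) := ⟨Nat.prime_two⟩
  have hK : Nat.card (GaloisField 2 j) = q := by rw [hq]; exact GaloisField.card 2 j (by omega)
  let _ : Fintype (Projectivization (GaloisField 2 j) (Fin 3 → GaloisField 2 j)) :=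
    Fintype.ofFinite _
  refine Lin.plane' (Projectivization (GaloisField 2 j) (Fin 3 → GaloisField 2 j))
    (Projectivization (GaloisField 2 j) (Fin 3 → GaloisField 2 j)) h hlam J q ?_
  have h1 := ProjectivePlane.card_points
    (Projectivization (GaloisField 2 j) (Fin 3 → GaloisField 2 j))
    (Projectivization (GaloisField 2 j) (Fin 3 → GaloisField 2 j))
  have h2 := Projectivization.card_of_finrank (GaloisField 2 j) (Fin 3 → GaloisField 2 j)
    (n := 3) (by simp)
  rw [Nat.card_eq_fintype_card, h1, hK] at h2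
  simp only [sum_range_succ, range_zero, sum_empty] at h2
  obtain ⟨o, ho⟩ : ∃ o, o = ProjectivePlane.order
    (Projectivization (GaloisField 2 j) (Fin 3 → GaloisField 2 j))
    (Projectivization (GaloisField 2 j) (Fin 3 → GaloisField 2 j)) := ⟨_, rfl⟩
  rw [← ho] at h2 ⊢
  rcases lt_trichotomy o q with h | h | h
  · nlinarith
  · exact h
  · nlinarith

end Pool.Agent.Lib.MP_270b52_co
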