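import Pool.Agent.Lib.MP_270b52_co.Basic

set_option autoImplicit false

namespace Pool.Agent.Lib.MP_270b52_co

open Finset

theorem third_exp (p S : ℝ) : p * Real.exp (-S - (3 * p - 1)) ≤ 1 / 3 * Real.exp (-S) := by
  have h := Real.add_one_le_exp (3 * p - 1)
  have h2 : Real.exp (-S) = Real.exp (-S - (3 * p - 1)) * Real.exp (3 * p - 1) := by
    rw [← Real.exp_add]; congr 1; ring
  rw [h2]
  have h3 := Real.exp_pos (-S - (3 * p - 1))
  nlinarith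

theorem quad_bound (d : ℝ) :
    (d + 1 / 3) * max (5 / 2 * (d + 1 / 3) - 1) 0 ≤ 5 * d ^ 2 := by
  rcases le_total (5 / 2 * (d + 1 / 3) - 1) 0 with h | h
  · rw [max_eq_right h]; nlinarith [sq_nonneg d]
  · rw [max_eq_left h]; nlinarith [sq_nonneg (d - 2 / 15)]

theorem piece (q y A B : ℝ) (h0 : 0 ≤ q) (h1 : q ≤ 1) (hy : y ≤ A + B) (hB : 0 ≤ B) :
    (1 - q) * y ≤ (1 - q) * A + B := by
  have := mul_le_mul_of_nonneg_left hy (show 0 ≤ 1 - q by linarith)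
  have h3 : 0 ≤ q * B := mul_nonneg h0 hB
  nlinarith

theorem gain_alg (v d0 d1 d2 y0 y1 y2 r g q0 q1 q2 : ℝ) (hd : d0 + d1 + d2 = 0) (hg : 0 < g)
    (hv : 60 * g ≤ v) (hr : 0 ≤ r) (hq0 : q0 = 1 / 3 + 10 * g * d0)
    (hq1 : q1 = 1 / 3 + 10 * g * d1) (hq2 : q2 = 1 / 3 + 10 * g * d2)
    (b0 : (1 - q0) * y0 ≤ (1 - q0) * (v * (d0 + 1 / 3) * (1 + r)) + g * v * (5 * d0 ^ 2))
    (b1 : (1 - q1) * y1 ≤ (1 - q1) * (v * (d1 + 1 / 3) * (1 + r)) + g * v * (5 * d1 ^ 2))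
    (b2 : (1 - q2) * y2 ≤ (1 - q2) * (v * (d2 + 1 / 3) * (1 + r)) + g * v * (5 * d2 ^ 2)) :
    -(2 / 3 * v * (1 + r)) ≤ q0 * (-(y1 + y2) - (3 * q0 - 1)) +
      q1 * (-(y0 + y2) - (3 * q1 - 1)) + q2 * (-(y0 + y1) - (3 * q2 - 1)) := by
  have hv0 : 0 ≤ v := by linarith
  obtain rfl : d2 = -d0 - d1 := by linarith
  obtain ⟨σ, hσ⟩ : ∃ σ, σ = d0 ^ 2 + d1 ^ 2 + (-d0 - d1) ^ 2 := ⟨_, rfl⟩
  have hσ0 : 0 ≤ σ := by rw [hσ]; positivity
  have k1 : q0 * (-(y1 + y2) - (3 * q0 - 1)) + q1 * (-(y0 + y2) - (3 * q1 - 1)) +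
      q2 * (-(y0 + y1) - (3 * q2 - 1)) =
      -((1 - q0) * y0 + (1 - q1) * y1 + (1 - q2) * y2) - 300 * g ^ 2 * σ := by
    rw [hq0, hq1, hq2, hσ]; ring
  have k4 : (1 - q0) * (v * (d0 + 1 / 3) * (1 + r)) + (1 - q1) * (v * (d1 + 1 / 3) * (1 + r)) +
      (1 - q2) * (v * (-d0 - d1 + 1 / 3) * (1 + r)) =
      2 / 3 * v * (1 + r) - 10 * (g * v * σ) - 10 * (v * r * (g * σ)) := by
    rw [hq0, hq1, hq2, hσ]; ring
  have k5 : g * v * (5 * d0 ^ 2) + g * v * (5 * d1 ^ 2) + g * v * (5 * (-d0 - d1) ^ 2) =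
      5 * (g * v * σ) := by rw [hσ]; ring
  have k6 : 0 ≤ v * r * (g * σ) := by positivity
  have k7 : 0 ≤ (v - 60 * g) * (g * σ) := mul_nonneg (by linarith) (by positivity)
  have k8 : (v - 60 * g) * (g * σ) = g * v * σ - 60 * g ^ 2 * σ := by ring
  rw [k1]
  linarith

theorem gain (v p0 p1 p2 y0 y1 y2 r g : ℝ) (h0 : 0 ≤ p0) (h1 : 0 ≤ p1) (h2 : 0 ≤ p2)
    (hs : p0 + p1 + p2 = 1) (hg : 0 < g) (hg' : g ≤ 1 / 20) (hv : 60 * g ≤ v) (hr : 0 ≤ r)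
    (e0 : y0 ≤ v * p0 * (1 + r) + g * v * (p0 * max (5 / 2 * p0 - 1) 0))
    (e1 : y1 ≤ v * p1 * (1 + r) + g * v * (p1 * max (5 / 2 * p1 - 1) 0))
    (e2 : y2 ≤ v * p2 * (1 + r) + g * v * (p2 * max (5 / 2 * p2 - 1) 0)) :
    Real.exp (-(2 / 3 * v * (1 + r))) ≤
      1 / 3 * Real.exp (-(y1 + y2)) + 1 / 3 * Real.exp (-(y0 + y2)) +
        1 / 3 * Real.exp (-(y0 + y1)) := by
  have hv0 : 0 ≤ v := by linarith
  have hgv : 0 ≤ g * v := mul_nonneg hg.le hv0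
  obtain ⟨d0, rfl⟩ : ∃ d, p0 = d + 1 / 3 := ⟨p0 - 1 / 3, by ring⟩
  obtain ⟨d1, rfl⟩ : ∃ d, p1 = d + 1 / 3 := ⟨p1 - 1 / 3, by ring⟩
  obtain ⟨d2, rfl⟩ : ∃ d, p2 = d + 1 / 3 := ⟨p2 - 1 / 3, by ring⟩
  obtain ⟨q0, hq0⟩ : ∃ q, q = 1 / 3 + 10 * g * d0 := ⟨_, rfl⟩
  obtain ⟨q1, hq1⟩ : ∃ q, q = 1 / 3 + 10 * g * d1 := ⟨_, rfl⟩
  obtain ⟨q2, hq2⟩ : ∃ q, q = 1 / 3 + 10 * g * d2 := ⟨_, rfl⟩
  have hd : d0 + d1 + d2 = 0 := by linarith
  have a0 : 0 ≤ q0 := by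
    have := mul_nonneg hg.le h0
    rw [hq0]; nlinarith
  have a1 : 0 ≤ q1 := by
    have := mul_nonneg hg.le h1
    rw [hq1]; nlinarith
  have a2 : 0 ≤ q2 := by
    have := mul_nonneg hg.le h2
    rw [hq2]; nlinarith
  have hq : q0 + q1 + q2 = 1 := by
    have : q0 + q1 + q2 = 1 + 10 * g * (d0 + d1 + d2) := by rw [hq0, hq1, hq2]; ring
    rw [this, hd]; ring
  have m0 := mul_le_mul_of_nonneg_left (quad_bound d0) hgv
  have m1 := mul_le_mul_of_nonneg_left (quad_bound d1) hgv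
  have m2 := mul_le_mul_of_nonneg_left (quad_bound d2) hgv
  have b0 := piece q0 y0 (v * (d0 + 1 / 3) * (1 + r)) (g * v * (5 * d0 ^ 2)) a0 (by linarith)
    (by linarith) (by positivity)
  have b1 := piece q1 y1 (v * (d1 + 1 / 3) * (1 + r)) (g * v * (5 * d1 ^ 2)) a1 (by linarith)
    (by linarith) (by positivity)
  have b2 := piece q2 y2 (v * (d2 + 1 / 3) * (1 + r)) (g * v * (5 * d2 ^ 2)) a2 (by linarith)
    (by linarith) (by positivity)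
  have J := jensen_exp (univ : Finset (Fin 3)) ![q0, q1, q2]
    ![-(y1 + y2) - (3 * q0 - 1), -(y0 + y2) - (3 * q1 - 1), -(y0 + y1) - (3 * q2 - 1)]
    (by intro i _; fin_cases i <;> simpa) (by simpa [Fin.sum_univ_three] using hq)
  simp only [Fin.sum_univ_three, Matrix.cons_val_zero, Matrix.cons_val_one, Matrix.cons_val_two,
    Matrix.head_cons, Matrix.tail_cons] at J
  have t0 := third_exp q0 (y1 + y2)
  have t1 := third_exp q1 (y0 + y2)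
  have t2 := third_exp q2 (y0 + y1)
  refine le_trans ?_ (J.trans (by linarith))
  rw [Real.exp_le_exp]
  exact gain_alg v d0 d1 d2 y0 y1 y2 r g q0 q1 q2 hd hg hv hr hq0 hq1 hq2 b0 b1 b2

/-- The triangle. -/
noncomputable def tri : Sys (Fin 3) where
  Ω := Fin 3
  fin := inferInstance
  e := fun k => univ.erase k
  w := fun _ => 1 / 3
  w_nonneg := fun _ => by norm_num
  inter := by decide

theorem tri_unif : tri.Unif 2 := by
  intro k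
  change (univ.erase k : Finset (Fin 3)).card = 2
  rw [card_erase_of_mem (mem_univ _)]; simp

theorem tri_mass : tri.mass = 1 := by
  change ∑ _k : Fin 3, (1 / 3 : ℝ) = 1
  simp

theorem tri_P {V : Type} [Fintype V] [DecidableEq V] (S : Sys V) (hS : S.mass = 1)
    (C : Finset (Fin 3 × V)) :
    (comp tri S).P C = 1 / 3 * (S.P (fib C 1) * S.P (fib C 2)) +
      1 / 3 * (S.P (fib C 0) * S.P (fib C 2)) + 1 / 3 * (S.P (fib C 0) * S.P (fib C 1)) := by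
  rw [comp_P tri S hS]
  change ∑ k : Fin 3, (1 / 3 : ℝ) * ∏ i ∈ (univ.erase k : Finset (Fin 3)), S.P (fib C i) = _
  have e0 : (univ.erase 0 : Finset (Fin 3)) = {1, 2} := by decide
  have e1 : (univ.erase 1 : Finset (Fin 3)) = {0, 2} := by decide
  have e2 : (univ.erase 2 : Finset (Fin 3)) = {0, 1} := by decide
  rw [Fin.sum_univ_three, e0, e1, e2, prod_pair (by decide), prod_pair (by decide),
    prod_pair (by decide)]

theorem log_step (a y : ℝ) (ha : 0 ≤ a) (hy : 0 ≤ y) :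
    Real.log (1 + a * y) ≤ Real.log (1 + y) + max (a - 1) 0 := by
  have h1 : 0 < 1 + y := by linarith
  have h2 : 0 < 1 + a * y := by positivity
  have h3 : Real.log (1 + a * y) - Real.log (1 + y) = Real.log ((1 + a * y) / (1 + y)) := by
    rw [Real.log_div h2.ne' h1.ne']
  have h4 := Real.log_le_sub_one_of_pos (div_pos h2 h1)
  have h5 : (1 + a * y) / (1 + y) ≤ 1 + max (a - 1) 0 := by
    rw [div_le_iff₀ h1]
    have m1 := le_max_left (a - 1) 0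
    have m2 := le_max_right (a - 1) 0
    nlinarith
  linarith

theorem one_sub_ge (u e : ℝ) (hu : 0 ≤ u) (hue : u ≤ e) (he : e ≤ 1 / 3) :
    Real.exp (-(u * (1 + e))) ≤ 1 - u := by
  have h1 : 0 < 1 - u := by linarith
  have h2 : 1 + u * (1 + e) + (u * (1 + e)) ^ 2 / 2 ≤ Real.exp (u * (1 + e)) :=
    Real.quadratic_le_exp_of_nonneg (by nlinarith)
  rw [Real.exp_neg, inv_le_comm₀ (Real.exp_pos _) h1, inv_eq_one_div]
  refine le_trans ?_ h2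
  rw [div_le_iff₀ h1]
  have h3 : u * (1 + u) ≤ u * (1 + e) := by nlinarith
  have h4 : u ^ 2 ≤ (u * (1 + e)) ^ 2 := by
    apply pow_le_pow_left₀ hu; nlinarith
  have h5 : 1 ≤ (1 + u * (1 + u) + u ^ 2 / 2) * (1 - u) := by
    have : (1 + u * (1 + u) + u ^ 2 / 2) * (1 - u) = 1 + u ^ 2 * (1 / 2 - 3 / 2 * u) := by ring
    rw [this]
    have : 0 ≤ u ^ 2 * (1 / 2 - 3 / 2 * u) := mul_nonneg (sq_nonneg _) (by linarith)
    linarith
  have h6 : (1 + u * (1 + u) + u ^ 2 / 2) * (1 - u) ≤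
      (1 + u * (1 + e) + (u * (1 + e)) ^ 2 / 2) * (1 - u) :=
    mul_le_mul_of_nonneg_right (by linarith) h1.le
  linarith

end Pool.Agent.Lib.MP_270b52_co
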