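import Pool.Agent.Lib.MP_270b52_co.Plane

set_option autoImplicit false

namespace Pool.Agent.Lib.MP_270b52_co

open Finset

theorem disjSum_disjoint {V W : Type} (A : Finset V) (g : Finset W) (C : Finset (V ⊕ W)) :
    Disjoint (A.disjSum g) C ↔ Disjoint A C.toLeft ∧ Disjoint g C.toRight := by
  simp only [disjoint_left, mem_toLeft, mem_toRight]
  constructor
  · intro h
    exact ⟨fun a ha => h (inl_mem_disjSum.2 ha), fun a ha => h (inr_mem_disjSum.2 ha)⟩
  · rintro ⟨h1, h2⟩ (a | a) ha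
    · exact h1 (inl_mem_disjSum.1 ha)
    · exact h2 (inr_mem_disjSum.1 ha)

theorem ind_disjSum {V W : Type} (A : Finset V) (g : Finset W) (C : Finset (V ⊕ W)) :
    ind (A.disjSum g) C = ind A C.toLeft * ind g C.toRight := by
  by_cases h1 : Disjoint A C.toLeft
  · by_cases h2 : Disjoint g C.toRight
    · rw [ind_pos h1, ind_pos h2, ind_pos ((disjSum_disjoint A g C).2 ⟨h1, h2⟩), one_mul]
    · rw [ind_neg h2, mul_zero, ind_neg (fun h => h2 ((disjSum_disjoint A g C).1 h).2)]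
  · rw [ind_neg h1, zero_mul, ind_neg (fun h => h1 ((disjSum_disjoint A g C).1 h).1)]

theorem sum_ind {W : Type} [Fintype W] [DecidableEq W] (t : ℕ) (B : Finset W) :
    ∑ g : {T : Finset W // T.card = t}, ind g.1 B = ((Fintype.card W - B.card).choose t : ℕ) := by
  rw [← card_sub_disj t B, card_filter]
  push_cast
  refine sum_congr rfl fun g _ => ?_
  split_ifs with h
  · exact ind_pos h
  · exact ind_neg h

theorem big_meet {n : ℕ} (A B : Finset (Fin n)) (h : n < A.card + B.card) : ¬ Disjoint A B := by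
  intro hd
  have h1 := card_le_univ (A ∪ B)
  rw [card_union_of_disjoint hd, Fintype.card_fin] at h1
  omega

/-- Adding `J` to the uniformity with `w` new vertices. -/
noncomputable def wst {V : Type} (S : Sys V) (w J m : ℕ) (h1 : w < J + m) (h2 : w < m + m) :
    Sys (V ⊕ Fin w) where
  Ω := (S.Ω × {T : Finset (Fin w) // T.card = J}) ⊕ {T : Finset (Fin w) // T.card = m}
  fin := inferInstance
  e := Sum.elim (fun x => (S.e x.1).disjSum x.2.1) (fun f => (∅ : Finset V).disjSum f.1)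
  w := Sum.elim (fun x => S.w x.1 * (1 / (w.choose J : ℕ))) (fun _ => 1)
  w_nonneg := by
    rintro (x | f)
    · exact mul_nonneg (S.w_nonneg _) (by positivity)
    · exact zero_le_one
  inter := by
    rintro (x | f) (y | g) h <;> simp only [Sum.elim_inl, Sum.elim_inr, disjSum_disjoint,
      toLeft_disjSum, toRight_disjSum] at h
    · exact S.inter _ _ h.1
    · exact big_meet _ _ (by rw [x.2.2, g.2]; exact h1) h.2
    · exact big_meet _ _ (by rw [y.2.2, f.2]; omega) h.2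
    · exact big_meet _ _ (by rw [g.2, f.2]; exact h2) h.2

theorem wst_P {V : Type} (S : Sys V) (w J m : ℕ) (h1 : w < J + m) (h2 : w < m + m)
    (C : Finset (V ⊕ Fin w)) :
    (wst S w J m h1 h2).P C = S.P C.toLeft * (((w - C.toRight.card).choose J : ℕ) /
      (w.choose J : ℕ)) + ((w - C.toRight.card).choose m : ℕ) := by
  unfold Sys.P
  change ∑ x : (S.Ω × {T : Finset (Fin w) // T.card = J}) ⊕ {T : Finset (Fin w) // T.card = m},
    (wst S w J m h1 h2).w x * ind ((wst S w J m h1 h2).e x) C = _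
  rw [Fintype.sum_sum_type, Fintype.sum_prod_type]
  have e1 := sum_ind J C.toRight
  have e2 := sum_ind m C.toRight
  rw [Fintype.card_fin] at e1 e2
  rw [← e1, ← e2, sum_mul]
  refine congrArg₂ _ (sum_congr rfl fun ω _ => ?_) (sum_congr rfl fun f _ => ?_)
  · rw [sum_div, mul_sum]
    refine sum_congr rfl fun g _ => ?_
    change S.w ω * (1 / (w.choose J : ℕ)) * ind ((S.e ω).disjSum g.1) C = _
    rw [ind_disjSum]; ring
  · change 1 * ind ((∅ : Finset V).disjSum f.1) C = _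
    rw [ind_disjSum, ind_pos (disjoint_empty_left _)]; ring

theorem wst_mass {V : Type} (S : Sys V) (w J m : ℕ) (h1 : w < J + m) (h2 : w < m + m)
    (hJ : J ≤ w) : (wst S w J m h1 h2).mass = S.mass + (w.choose m : ℕ) := by
  have hP : ∀ {U : Type} (T : Sys U), T.mass = T.P ∅ := by
    intro U T
    unfold Sys.mass Sys.P
    refine sum_congr rfl fun ω _ => ?_
    rw [ind_pos (disjoint_empty_right _), mul_one]
  rw [hP, wst_P, hP]
  have e1 : (∅ : Finset (V ⊕ Fin w)).toLeft = ∅ := by ext; simp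
  have e2 : (∅ : Finset (V ⊕ Fin w)).toRight = ∅ := by ext; simp
  have : (0 : ℝ) < (w.choose J : ℕ) := by exact_mod_cast Nat.choose_pos hJ
  rw [e1, e2, card_empty, Nat.sub_zero, div_self this.ne', mul_one]

theorem asc_ratio (x y J : ℕ) (h : y ≤ x) :
    y ^ J * x.ascFactorial J ≤ y.ascFactorial J * x ^ J := by
  induction J with
  | zero => simp
  | succ J ih =>
    rw [Nat.ascFactorial_succ, Nat.ascFactorial_succ]
    have h1 : y * (x + J) ≤ (y + J) * x := by nlinarith
    calc y ^ (J + 1) * ((x + J) * x.ascFactorial J)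
        = (y * (x + J)) * (y ^ J * x.ascFactorial J) := by ring
      _ ≤ ((y + J) * x) * (y.ascFactorial J * x ^ J) := Nat.mul_le_mul h1 ih
      _ = _ := by ring

theorem choose_ratio2 (x y J : ℕ) (h : y ≤ x) (hx : 0 < x) :
    ((y : ℝ) / x) ^ J ≤ (((y + J - 1).choose J : ℕ) : ℝ) / ((x + J - 1).choose J : ℕ) := by
  have h1 := asc_ratio x y J h
  rw [Nat.ascFactorial_eq_factorial_mul_choose', Nat.ascFactorial_eq_factorial_mul_choose'] at h1
  have h2 : y ^ J * (x + J - 1).choose J ≤ (y + J - 1).choose J * x ^ J := by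
    refine Nat.le_of_mul_le_mul_left ?_ (Nat.factorial_pos J)
    calc J.factorial * (y ^ J * (x + J - 1).choose J)
        = y ^ J * (J.factorial * (x + J - 1).choose J) := by ring
      _ ≤ _ := h1
      _ = _ := by ring
  have h3 : (0 : ℝ) < ((x + J - 1).choose J : ℕ) := by exact_mod_cast Nat.choose_pos (by omega)
  have h4 : (0 : ℝ) < x := by exact_mod_cast hx
  rw [div_pow, div_le_div_iff₀ (by positivity) h3]
  exact_mod_cast h2

theorem Good.mono {r r' s : ℕ} {M M' p : ℝ} {J : ℕ} (h : Good r s M p J) (hr : r ≤ r')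
    (hM : M ≤ M') : Good r' s M' p J := by
  obtain ⟨V, i1, i2, S, h1, h2, h3, h4⟩ := h
  exact ⟨V, i1, i2, S, h1.trans hr, h2, h3.trans hM, h4⟩

theorem Good.step {r s : ℕ} {M p : ℝ} {J : ℕ} (h : Good r s M p J) (hs : 1 ≤ s) (hp0 : 0 ≤ p)
    (hp : p ≤ 1) (d : ℕ) (hd : 1 ≤ d) (hdJ : d ≤ J) :
    Good (r + (s + d + J)) (s + d) (M + ((s + d + J : ℕ) : ℝ) ^ J) p J := by
  obtain ⟨V, i1, i2, S, h1, h2, h3, h4⟩ := h
  obtain ⟨w, hw⟩ : ∃ w, w = s + d + d - 1 := ⟨_, rfl⟩
  refine ⟨V ⊕ Fin w, inferInstance, inferInstance,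
    wst S w d (s + d) (by omega) (by omega), ?_, ?_, ?_, ?_⟩
  · rw [Fintype.card_sum, Fintype.card_fin]; omega
  · rintro (x | f)
    · change ((S.e x.1).disjSum x.2.1).card = _
      rw [card_disjSum, h2, x.2.2]
    · change ((∅ : Finset V).disjSum f.1).card = _
      rw [card_disjSum, f.2, card_empty, zero_add]
  · rw [wst_mass _ _ _ _ _ _ (by omega)]
    have a1 : w.choose (s + d) ≤ (s + d + J) ^ J := by
      rw [← Nat.choose_symm (by omega)]
      calc w.choose (w - (s + d)) ≤ w ^ (w - (s + d)) := Nat.choose_le_pow _ _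
        _ ≤ (s + d + J) ^ (w - (s + d)) := Nat.pow_le_pow_left (by omega) _
        _ ≤ _ := Nat.pow_le_pow_right (by omega) (by omega)
    have a2 : ((w.choose (s + d) : ℕ) : ℝ) ≤ ((s + d + J : ℕ) : ℝ) ^ J := by exact_mod_cast a1
    linarith
  intro C hC
  rw [wst_P]
  have hcard := card_toLeft_add_card_toRight (u := C)
  obtain ⟨a, ha⟩ : ∃ a, a = C.toRight.card := ⟨_, rfl⟩
  obtain ⟨c, hc⟩ : ∃ c, c = C.toLeft.card := ⟨_, rfl⟩
  rw [← ha, ← hc] at hcard
  rw [← ha, ← hcard]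
  rw [← hcard] at hC
  have hs' : (0 : ℝ) < ((s + d : ℕ) : ℝ) := by exact_mod_cast (by omega : 0 < s + d)
  have hC' : ((c + a : ℕ) : ℝ) ≤ ((s + d : ℕ) : ℝ) := by exact_mod_cast hC.le
  have f0 : 0 ≤ (((s + d : ℕ) : ℝ) - ((c + a : ℕ) : ℝ)) / ((s + d : ℕ) : ℝ) :=
    div_nonneg (by linarith) hs'.le
  have t0 : 0 ≤ S.P C.toLeft * ((((w - a).choose d : ℕ) : ℝ) / (w.choose d : ℕ)) :=
    mul_nonneg (S.P_nonneg _) (by positivity)
  rcases lt_or_ge a d with had | had
  · have f1 : (((s + d : ℕ) : ℝ) - ((c + a : ℕ) : ℝ)) / ((s + d : ℕ) : ℝ) ≤ 1 := by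
      rw [div_le_one hs']
      linarith [(Nat.cast_nonneg (c + a) : (0 : ℝ) ≤ ((c + a : ℕ) : ℝ))]
    have f2 := pow_le_one₀ (n := J) f0 f1
    have f3 : (1 : ℝ) ≤ ((w - a).choose (s + d) : ℕ) := by
      exact_mod_cast Nat.choose_pos (by omega : s + d ≤ w - a)
    have f4 := mul_le_mul hp f2 (pow_nonneg f0 J) zero_le_one
    linarith
  · have g1 := h4 C.toLeft (by omega)
    rw [← hc] at g1
    have g2 := choose_ratio2 (s + d) (s + d - a) d (by omega) (by omega)
    have e1 : s + d - a + d - 1 = w - a := by omega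
    rw [e1, ← hw, Nat.cast_sub (by omega)] at g2
    have ha' : (a : ℝ) ≤ ((s + d : ℕ) : ℝ) := by exact_mod_cast (by omega : a ≤ s + d)
    have g0 : 0 ≤ (((s + d : ℕ) : ℝ) - a) / ((s + d : ℕ) : ℝ) := div_nonneg (by linarith) hs'.le
    have g3 : ((((s + d : ℕ) : ℝ) - a) / ((s + d : ℕ) : ℝ)) ^ J ≤
        ((((s + d : ℕ) : ℝ) - a) / ((s + d : ℕ) : ℝ)) ^ d := by
      refine pow_le_pow_of_le_one g0 ?_ hdJ
      rw [div_le_one hs']
      linarith [(Nat.cast_nonneg a : (0 : ℝ) ≤ a)]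
    have hs0 : (0 : ℝ) < s := by exact_mod_cast hs
    have g4 : (((s + d : ℕ) : ℝ) - ((c + a : ℕ) : ℝ)) / ((s + d : ℕ) : ℝ) ≤
        ((s : ℝ) - c) / s * ((((s + d : ℕ) : ℝ) - a) / ((s + d : ℕ) : ℝ)) := by
      rw [← mul_div_assoc]
      refine div_le_div_of_nonneg_right ?_ hs'.le
      rw [div_mul_eq_mul_div, le_div_iff₀ hs0]
      push_cast
      have : (d : ℝ) ≤ a := by exact_mod_cast had
      have := mul_nonneg (Nat.cast_nonneg c : (0 : ℝ) ≤ c) (sub_nonneg.2 this)
      nlinarith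
    have g5 := pow_le_pow_left₀ f0 g4 J
    rw [mul_pow] at g5
    have g6 := mul_le_mul g1 (g3.trans g2) (pow_nonneg g0 J) (S.P_nonneg _)
    have g7 := mul_le_mul_of_nonneg_left g5 hp0
    have g8 : (0 : ℝ) ≤ ((w - a).choose (s + d) : ℕ) := Nat.cast_nonneg _
    rw [← mul_assoc] at g7
    linarith

theorem Good.steps {p : ℝ} {J : ℕ} (hp0 : 0 ≤ p) (hp : p ≤ 1) (n : ℕ) :
    ∀ {r s : ℕ} {M : ℝ}, Good r s M p J → 1 ≤ s → ∀ D, D ≤ n * J →
      Good (r + n * (s + D + J)) (s + D) (M + n * ((s + D + J : ℕ) : ℝ) ^ J) p J := by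
  induction n with
  | zero =>
    intro r s M h _ D hD
    obtain rfl : D = 0 := by omega
    simpa using h
  | succ n ih =>
    intro r s M h hs D hD
    rcases le_or_gt D (n * J) with h1 | h1
    · refine (ih h hs D h1).mono ?_ ?_
      · nlinarith
      · push_cast
        have : (0 : ℝ) ≤ ((s : ℝ) + D + J) ^ J := by positivity
        nlinarith
    · obtain ⟨d, rfl⟩ : ∃ d, D = n * J + d := ⟨D - n * J, by omega⟩
      have h2 := (ih h hs (n * J) le_rfl).step (by omega) hp0 hp d (by omega) (by nlinarith)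
      have e : s + n * J + d = s + (n * J + d) := add_assoc _ _ _
      rw [e] at h2
      refine h2.mono ?_ ?_
      · nlinarith
      · have a1 : ((s + n * J + J : ℕ) : ℝ) ^ J ≤ ((s + (n * J + d) + J : ℕ) : ℝ) ^ J := by
          exact_mod_cast Nat.pow_le_pow_left (by omega) J
        have a2 := mul_le_mul_of_nonneg_left a1 (Nat.cast_nonneg n)
        rw [Nat.cast_succ]
        linarith

end Pool.Agent.Lib.MP_270b52_co
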